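import Pool.Agent.ROr14.Defs

/-!
# Exponential-time algorithms with an oracle and a solver
-/

set_option autoImplicit false

namespace Pool.Agent.TFR21

open N68a2faeb N793a5b8e N487b59b3 Pool.Agent.ROr14

/-- The oracle that answers a question `0z` by the bit `X z` and a question `1π` by the
string `W π`. -/
def both (X : List Bool → Bool) (W : List Bool → List Bool) : List Bool → List Bool
  | [] => []
  | false :: z => [X z]
  | true :: π => W π

/-- The first `m` replies of the oracle `O` in the computation on input `y` whose next question,
when the replies so far are `a`, is `q (y, a)`, cut to its first `l` symbols. -/
def replies (O : List Bool → List Bool) {α : Type} (q : α × List (List Bool) → List Bool)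
    (l : ℕ) (y : α) : ℕ → List (List Bool)
  | 0 => []
  | m + 1 => replies O q l y m ++ [O ((q (y, replies O q l y m)).take l)]

/-- An algorithm working in time `2^O(n)`, with oracle questions: everything is done in
polynomial time in the length of the input `x` padded with `2^|x|` ones. -/
structure Algorithm where
  /-- bound for the number and the lengths of the questions -/
  r : Polynomial ℕ
  /-- the next question -/
  q : (List Bool × List Bool) × List (List Bool) → List Bool
  /-- the output -/
  g : (List Bool × List Bool) × List (List Bool) → Bool
  /-- the next question is computed in polynomial time -/
  hq : IsPolyTime q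
  /-- the output is computed in polynomial time -/
  hg : IsPolyTime g

/-- The padded input. -/
def padded (x : List Bool) : List Bool × List Bool := (x, List.replicate (2 ^ x.length) true)

/-- The bound for the number and the lengths of the questions on input `x`. -/
def Algorithm.bound (M : Algorithm) (x : List Bool) : ℕ :=
  M.r.eval (bitEncode (padded x)).length

/-- The output of the algorithm on input `x` when its questions are answered by `both X W`. -/
def Algorithm.run (M : Algorithm) (X : List Bool → Bool) (W : List Bool → List Bool)
    (x : List Bool) : Bool :=
  M.g (padded x, replies (both X W) M.q (M.bound x) (padded x) (M.bound x))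

/-- `W` finds for every `π` a witness of length at most `p(|P π|)` for `P π`. -/
def FindsWitnesses (V : List Bool × List Bool → Bool) (p : Polynomial ℕ)
    (P W : List Bool → List Bool) : Prop :=
  ∀ π, (W π).length ≤ p.eval (P π).length ∧ V (P π, W π) = true

/-- `f` separates `C` from `D`. -/
def Separates (f C D : List Bool → Bool) : Prop :=
  (∀ x, C x = true → f x = true) ∧ ∀ x, D x = true → f x = false

end Pool.Agent.TFR21
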