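import Pool.Agent.ROr14.Main
import Pool.Agent.TFR21.Defs

/-!
# Scales, windows, blocks and the events of the proof
-/

set_option autoImplicit false

namespace Pool.Agent.TFR21

open Pool.Agent.PT Pool.Agent.ROr14
open N68a2faeb N793a5b8e N487b59b3 MeasureTheory

/-! ### Scales -/

/-- The growth of the scales. -/
def tw (m : ℕ) : ℕ := 2 ^ 2 ^ 2 ^ 2 ^ 2 ^ m

/-- The scales. -/
def sc : ℕ → ℕ
  | 0 => 1
  | j + 1 => tw (sc j)

/-- The window of scale `n` ends at length `Lw n`. -/
def Lw (n : ℕ) : ℕ := 2 ^ 2 ^ n

/-- Questions to the solver at scale `n` have length at most `ql n`. -/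
def ql (n : ℕ) : ℕ := 2 ^ (n * n)

/-- All strings of length `< n`. -/
def strs (n : ℕ) : Finset (List Bool) :=
  (Finset.range n).biUnion fun l => (Finset.univ : Finset (List.Vector Bool l)).image (·.1)

theorem mem_strs {n : ℕ} {z : List Bool} : z ∈ strs n ↔ z.length < n := by
  unfold strs
  simp only [Finset.mem_biUnion, Finset.mem_range, Finset.mem_image, Finset.mem_univ, true_and]
  constructor
  · rintro ⟨l, hl, v, rfl⟩
    rwa [v.2]
  · intro h
    exact ⟨z.length, h, ⟨z, rfl⟩, rfl⟩

/-- The coordinates of scale `n`. -/
def win (n : ℕ) : Finset (List Bool) := strs (Lw n) \ strs n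

theorem mem_win {n : ℕ} {z : List Bool} : z ∈ win n ↔ n ≤ z.length ∧ z.length < Lw n := by
  unfold win
  rw [Finset.mem_sdiff, mem_strs, mem_strs]
  omega

/-! ### Changing a random oracle on finitely many coordinates -/

/-- `R` changed on `w` to the indicator function of `B`. -/
def overlay (w B : Finset (List Bool)) (R : List Bool → Bool) : List Bool → Bool :=
  fun z => if z ∈ w then decide (z ∈ B) else R z

open Classical in
/-- The conditional probability of the event `E`, given the coordinates outside `w`. -/
noncomputable def frac (w : Finset (List Bool)) (E : Set (List Bool → Bool))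
    (R : List Bool → Bool) : ℝ :=
  ((w.powerset.filter fun B => overlay w B R ∈ E).card : ℝ) / 2 ^ w.card

/-! ### Access to the random oracle -/

/-- A way to ask a random oracle through another oracle. -/
structure Acc extends Access where
  /-- only the question `e z` asks for the coordinate `z` -/
  hec : ∀ y z, c y = some z → y = e z

/-- The oracle at hand. -/
def Acc.orc (S : Acc) (A R : List Bool → Bool) : List Bool → Bool := mix S.c A R

/-- The oracle `X` changed on the questions for coordinates in `w`. -/
def ovX (e : List Bool → List Bool) (w B : Finset (List Bool)) (X : List Bool → Bool) :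
    List Bool → Bool :=
  fun y => if y ∈ w.image e then decide (y ∈ B.image e) else X y

/-! ### Total search problems -/

/-- Every `π` of length at most `l` has a solution. -/
def Tot (F : (List Bool → Bool) → List Bool × List Bool → Bool) (X : List Bool → Bool)
    (l : ℕ) : Prop := ∀ π : List Bool, π.length ≤ l → ∃ w, F X (π, w) = true

/-- Uniform search problems with polynomially bounded solutions. -/
structure Search (F : (List Bool → Bool) → List Bool × List Bool → Bool)
    (pw : Polynomial ℕ) : Prop where
  /-- uniform polynomial time -/
  ut : UT F
  /-- solutions are short -/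
  short : ∀ X π w, F X (π, w) = true → w.length ≤ pw.eval π.length

/-! ### Blocks -/

/-- The name of a candidate: level `k`, instance `i`, side `s`, sub-block `t`, string `u`. -/
def ccode (k : ℕ) (i : List Bool) (s : Bool) (t : ℕ) (u : List Bool) : List Bool :=
  bitEncode ((ones k, i), (s :: ones t, u))

/-- The `b`-th private coordinate of the candidate named `c` at scale `n`. -/
def cpos (n : ℕ) (c : List Bool) (b : ℕ) : List Bool :=
  bitEncode (ones n, (ones b, c))

/-- The half-block `s` of instance `i` at scale `n` and level `k` has a success. -/
def Succ (R : List Bool → Bool) (n k : ℕ) (i : List Bool) (s : Bool) : Prop :=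
  ∃ t < k, ∃ u : List Bool, u.length = n * n ∧
    ∀ b < n * n, R (cpos n (ccode k i s t u) b) = true

/-- The instance `i` at scale `n`. -/
def inst (n : ℕ) (i : List Bool) : List Bool := bitEncode (ones n, i)

/-- No instance of level `k` at scale `n` has both halves empty. -/
def Covered (R : List Bool → Bool) (n k : ℕ) : Prop :=
  ∀ i : List Bool, i.length = 2 * k → Succ R n k i false ∨ Succ R n k i true

/-- All questions `1π` of the algorithm get solutions. -/
def Valid (F : (List Bool → Bool) → List Bool × List Bool → Bool) (M : Algorithm)
    (X : List Bool → Bool) (W : List Bool → List Bool) (x : List Bool) : Prop :=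
  ∀ m < M.bound x, ∀ π : List Bool,
    (M.q (padded x, replies (both X W) M.q (M.bound x) (padded x) m)).take (M.bound x) =
      true :: π → F X (π, W π) = true

/-- With solutions for its questions the algorithm always names a nonempty half. -/
def Works (S : Acc) (F : (List Bool → Bool) → List Bool × List Bool → Bool) (M : Algorithm)
    (A R : List Bool → Bool) (n k : ℕ) : Prop :=
  ∀ i : List Bool, i.length = 2 * k → ∀ W, Valid F M (S.orc A R) W (inst n i) →
    Succ R n k i (M.run (S.orc A R) W (inst n i))

/-! ### Levels -/

/-- The number of changes of `X` in the window of scale `m` for which the search problem is not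
total. -/
noncomputable def nontot (e : List Bool → List Bool)
    (F : (List Bool → Bool) → List Bool × List Bool → Bool) (X : List Bool → Bool) (m : ℕ) : ℕ :=
  open Classical in
  ((win m).powerset.filter fun B => ¬ Tot F (ovX e (win m) B X) (ql m)).card

/-- The condition for the level `k` at the scale after `m`; here `t` is the number of changes of
the window of scale `m` and `a` of them are not total. -/
def LevOK (m t a k : ℕ) : Prop :=
  4 ^ k * m ^ (2 * k * (m + 1)) * t ≤ 512 * a * (m + 1) ^ (2 * k * (m + 1))

instance (m t a k : ℕ) : Decidable (LevOK m t a k) := by unfold LevOK; infer_instance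

/-- The level at the scale after `m`. -/
def lev (m t a : ℕ) : ℕ :=
  if h : ∃ k, k ≤ m ∧ LevOK m t a k then Nat.find h else tw m

/-- The level at the scale after `m`, for the oracle `X`. -/
noncomputable def level (e : List Bool → List Bool)
    (F : (List Bool → Bool) → List Bool × List Bool → Bool) (X : List Bool → Bool) (m : ℕ) : ℕ :=
  lev m (2 ^ (win m).card) (nontot e F X m)

end Pool.Agent.TFR21
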