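import Pool.Agent.TFR21.Params

/-!
# Countability of the machines
-/

set_option autoImplicit false

namespace Pool.Agent.TFR21

open Pool.Agent.PT Pool.Agent.TMB67 Pool.Agent.POpt70 Pool.Agent.ROr14
open N68a2faeb N793a5b8e N487b59b3 MeasureTheory

section

variable {α β : Type} [N487b59b3 α] [N487b59b3 β] [Enc α] [Enc β] [Compat α] [Compat β]

theorem countable_poly : {f : α → β | PolyTime f}.Countable := by
  obtain ⟨D, hD, hD'⟩ := Compat.dec (α := α)
  obtain ⟨E, hE, hE'⟩ := Compat.dec (α := β)
  refine (Set.countable_range (fun (z : ℕ × ℕ) (x : α) =>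
    E (val z.1 z.2 (bitEncode x)))).mono ?_
  intro f hf
  have h1 : PolyTime (fun u : List Bool => (bitEncode (f (D u)) : List Bool)) :=
    (Compat.enc (α := β)).comp (PolyTime.comp (g := f) (f := D) hf hD)
  obtain ⟨q, a, hqa⟩ := exists_val h1
  exact ⟨(q, a), by funext x; beta_reduce; rw [hqa, hD', hE']⟩

theorem countable_isPoly : {f : α → β | IsPolyTime f}.Countable := by
  simp only [isPolyTime_iff]
  exact countable_poly

theorem countable_UT' : {F : (List Bool → Bool) → α → β | UT F}.Countable := by
  have h1 := (Set.countable_univ (α := ℕ)).prod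
    ((countable_poly (α := α × List Bool) (β := List Bool)).prod
      (countable_poly (α := α × List Bool) (β := β)))
  refine (h1.image fun z : ℕ × ((α × List Bool → List Bool) × (α × List Bool → β)) =>
    fun (X : List Bool → Bool) (x : α) =>
      z.2.2 (x, answers X z.2.1 x ((sz x + 2) ^ (z.1 + 1)))).mono ?_
  rintro F ⟨p, q, g, hq, hg, hF⟩
  obtain ⟨a, ha⟩ := exists_pow_bound p
  refine ⟨(a, q, g), ⟨Set.mem_univ _, hq, hg⟩, ?_⟩
  funext X x
  exact (hF X x _ (ha _)).symm

end

theorem countable_natPoly : Countable (Polynomial ℕ) := by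
  have h : Function.Injective
      (fun p : Polynomial ℕ => (List.range (p.natDegree + 1)).map p.coeff) := by
    intro p q h
    have h1 : p.natDegree = q.natDegree := by
      have := congrArg List.length h
      simpa using this
    ext i
    by_cases hi : i < p.natDegree + 1
    · have h2 := congrArg (fun l => l[i]?) h
      simp only [List.getElem?_map] at h2
      rw [List.getElem?_range hi, List.getElem?_range (by omega)] at h2
      simpa using h2
    · rw [Polynomial.coeff_eq_zero_of_natDegree_lt (by omega),
        Polynomial.coeff_eq_zero_of_natDegree_lt (by omega)]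
  exact h.countable

theorem countable_algorithm : Countable Algorithm := by
  have h1 : Countable {f : (List Bool × List Bool) × List (List Bool) → List Bool |
      IsPolyTime f} := countable_isPoly.to_subtype
  have h2 : Countable {f : (List Bool × List Bool) × List (List Bool) → Bool |
      IsPolyTime f} := countable_isPoly.to_subtype
  have h3 := countable_natPoly
  let Φ : Algorithm → Polynomial ℕ × ({f : (List Bool × List Bool) × List (List Bool) →
      List Bool | IsPolyTime f} × {f : (List Bool × List Bool) × List (List Bool) → Bool |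
      IsPolyTime f}) := fun M => (M.r, ⟨M.q, M.hq⟩, ⟨M.g, M.hg⟩)
  have hΦ : Function.Injective Φ := by
    intro M M' h
    obtain ⟨r, q, g, _, _⟩ := M
    obtain ⟨r', q', g', _, _⟩ := M'
    simp only [Φ, Prod.mk.injEq, Subtype.mk.injEq] at h
    obtain ⟨rfl, rfl, rfl⟩ := h
    rfl
  exact hΦ.countable

end Pool.Agent.TFR21
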