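import Pool.Agent.TFR21.Resample

/-!
# Module TFR21/Borel

PROOF. Let `μ = randomOracle`. For every `j`
`μ(tot j ∩ fail (j+2)) ≤ C' * μ(tot j \ tot (j+1)) + err'` where `C' = ENNReal.ofReal C`,
`err' = ENNReal.ofReal (err (j+1))`:
`tot j` depends on `past (j+1)`, which is disjoint from `win (j+1)` and (being contained in
`past (j+2)`) from `win (j+2)`; so by `measure_inter_eq`
`μ(tot j ∩ fail (j+2)) = ∫_{tot j} frac (win (j+2)) (fail (j+2))
 ≤ ∫_{tot j} (C * frac (win (j+1)) (tot (j+1))ᶜ + err (j+1)) ≤ C' μ(tot j ∩ (tot (j+1))ᶜ) + err'`.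
The sets `tot j \ tot (j+1)` are disjoint, so the sum over `j` is finite, and Borel-Cantelli
(`MeasureTheory.measure_limsup_atTop_eq_zero`, or `ae_eventually_notMem`) applied to
`tot j ∩ fail (j+2)` gives the claim.
-/

set_option autoImplicit false

namespace Pool.Agent.TFR21

open Pool.Agent.ROr14 MeasureTheory

/-- If the conditional risk of `fail (j+1)` is at most `C` times that of leaving `tot j`, plus a
summable error, then almost surely on `⋂ tot j` only finitely many `fail j` happen. -/
theorem borel (past win : ℕ → Finset (List Bool)) (hd : ∀ j, Disjoint (past j) (win j))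
    (hs : ∀ j, past j ∪ win j ⊆ past (j + 1)) (tot fail : ℕ → Set (List Bool → Bool))
    (htot : ∀ j, Dep (past (j + 1)) (tot j)) (hanti : ∀ j, tot (j + 1) ⊆ tot j)
    (hfail : ∀ j, Dep (past (j + 1)) (fail j)) (C : ℝ) (hC : 0 ≤ C) (err : ℕ → ℝ)
    (herr : Summable err) (herr0 : ∀ j, 0 ≤ err j)
    (hle : ∀ j R, frac (win (j + 1)) (fail (j + 1)) R ≤ C * frac (win j) (tot j)ᶜ R + err j) :
    ∀ᵐ R ∂randomOracle, (∀ j, R ∈ tot j) → ∃ j0, ∀ j ≥ j0, R ∉ fail j := by
  have hpm : ∀ j, past j ⊆ past (j + 1) := fun j => Finset.subset_union_left.trans (hs j)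
  have key : ∀ j, randomOracle (tot j ∩ fail (j + 2)) ≤
      ENNReal.ofReal C * randomOracle (tot j \ tot (j + 1)) +
        ENNReal.ofReal (err (j + 1)) := by
    intro j
    have hd2 : Disjoint (past (j + 1)) (win (j + 2)) :=
      Finset.disjoint_of_subset_left (hpm (j + 1)) (hd (j + 2))
    have h1 : randomOracle (tot j \ tot (j + 1)) =
        ∫⁻ R in tot j, ENNReal.ofReal (frac (win (j + 1)) (tot (j + 1))ᶜ R) ∂randomOracle := by
      rw [Set.sdiff_eq]
      exact measure_inter_eq (htot j) (htot (j + 1)).compl (hd (j + 1))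
    have hm : Measurable fun R => ENNReal.ofReal (frac (win (j + 1)) (tot (j + 1))ᶜ R) :=
      ENNReal.measurable_ofReal.comp (measurable_frac (htot (j + 1)).compl)
    rw [measure_inter_eq (htot j) (hfail (j + 2)) hd2, h1, ← lintegral_const_mul _ hm]
    calc ∫⁻ R in tot j, ENNReal.ofReal (frac (win (j + 2)) (fail (j + 2)) R) ∂randomOracle
        ≤ ∫⁻ R in tot j, (ENNReal.ofReal C *
            ENNReal.ofReal (frac (win (j + 1)) (tot (j + 1))ᶜ R) +
              ENNReal.ofReal (err (j + 1))) ∂randomOracle := by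
          refine lintegral_mono fun R => ?_
          rw [← ENNReal.ofReal_mul hC, ← ENNReal.ofReal_add
            (mul_nonneg hC (frac_nonneg _ _ _)) (herr0 _)]
          exact ENNReal.ofReal_le_ofReal (hle (j + 1) R)
      _ = (∫⁻ R in tot j, ENNReal.ofReal C *
            ENNReal.ofReal (frac (win (j + 1)) (tot (j + 1))ᶜ R) ∂randomOracle) +
              ∫⁻ _ in tot j, ENNReal.ofReal (err (j + 1)) ∂randomOracle :=
          lintegral_add_left (hm.const_mul _) _
      _ ≤ (∫⁻ R in tot j, ENNReal.ofReal C *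
            ENNReal.ofReal (frac (win (j + 1)) (tot (j + 1))ᶜ R) ∂randomOracle) +
              ENNReal.ofReal (err (j + 1)) := by
          gcongr
          rw [lintegral_const, Measure.restrict_apply MeasurableSet.univ, Set.univ_inter]
          calc ENNReal.ofReal (err (j + 1)) * randomOracle (tot j)
              ≤ ENNReal.ofReal (err (j + 1)) * 1 := by gcongr; exact prob_le_one
            _ = ENNReal.ofReal (err (j + 1)) := mul_one _
  -- the sum is finite
  have hanti' : ∀ i j, i ≤ j → tot j ⊆ tot i := by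
    intro i j hij
    induction j, hij using Nat.le_induction with
    | base => exact subset_rfl
    | succ j _ ih => exact (hanti j).trans ih
  have hdisj : Pairwise (Function.onFun Disjoint fun j => tot j \ tot (j + 1)) := by
    intro i j hij
    rcases lt_or_gt_of_ne hij with h | h
    · refine Set.disjoint_left.mpr fun R hR hR' => ?_
      exact hR.2 (hanti' (i + 1) j h hR'.1)
    · refine Set.disjoint_left.mpr fun R hR hR' => ?_
      exact hR'.2 (hanti' (j + 1) i h hR.1)
  have hsum1 : ∑' j, randomOracle (tot j \ tot (j + 1)) ≤ 1 := by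
    refine (tsum_meas_le_meas_iUnion_of_disjoint randomOracle
      (fun j => ((htot j).measurableSet.diff (htot (j + 1)).measurableSet)) hdisj).trans ?_
    exact prob_le_one
  have hsum : ∑' j, randomOracle (tot j ∩ fail (j + 2)) ≠ ⊤ := by
    have h1 : ∑' j, randomOracle (tot j ∩ fail (j + 2)) ≤
        ENNReal.ofReal C * (∑' j, randomOracle (tot j \ tot (j + 1))) +
          ∑' j, ENNReal.ofReal (err (j + 1)) := by
      rw [← ENNReal.tsum_mul_left, ← ENNReal.tsum_add]
      exact ENNReal.tsum_le_tsum key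
    have h2 : ∑' j, ENNReal.ofReal (err (j + 1)) ≠ ⊤ := by
      have hs' : Summable fun j => err (j + 1) := (summable_nat_add_iff 1).mpr herr
      rw [← ENNReal.ofReal_tsum_of_nonneg (fun j => herr0 _) hs']
      exact ENNReal.ofReal_ne_top
    refine ne_top_of_le_ne_top ?_ h1
    refine ENNReal.add_ne_top.mpr ⟨?_, h2⟩
    exact ENNReal.mul_ne_top ENNReal.ofReal_ne_top
      (ne_top_of_le_ne_top ENNReal.one_ne_top hsum1)
  filter_upwards [ae_eventually_notMem hsum] with R hR hall
  obtain ⟨j0, hj0⟩ := Filter.eventually_atTop.mp hR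
  refine ⟨j0 + 2, fun j hj hf => ?_⟩
  obtain ⟨i, rfl⟩ : ∃ i, j = i + 2 := ⟨j - 2, by omega⟩
  exact hj0 i (by omega) ⟨hall i, hf⟩

end Pool.Agent.TFR21
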