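import Pool.Agent.TFR21.Params

/-!
# Module TFR21/Growth

PROOFS. `(inst n i).length = 6 n + 1 + 3 i.length ≤ 12 n + 1`, so `M.bound (inst n i)` is at most
`2 ^ (a n)` for some constant `a` (depending on `M`) and all `n ≥ 1`: `padded x` has an encoding of
length `≤ 10 (x.length + 2 ^ x.length)`, and use `exists_pow_bound` (`POpt70/Tools`) or `pow_bound`
(`ROr14/Grow`). `PT (2^(a n)) ≤ 2^(a' n)`, and `n * n ≥ a'' n` for large `n`;
`PT (2^(n n)) + 2^(n n) < 2^(2^n)` for large `n`.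
`sc` is strictly increasing with `tw m > m`, `Lw m ≤ tw m`.
-/

set_option autoImplicit false

namespace Pool.Agent.TFR21

open Pool.Agent.PT Pool.Agent.TMB67 Pool.Agent.POpt70 Pool.Agent.ROr14
open N68a2faeb N793a5b8e N487b59b3 MeasureTheory

theorem gr_list_length (x : List Bool) : (bitEncode x : List Bool).length = 3 * x.length := by
  have h : ∀ x : List Bool, (bitEncode x : List Bool) =
      ((x.map bitEncode).map delimit).flatten := fun _ => rfl
  rw [h]
  induction x with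
  | nil => rfl
  | cons b x ih =>
    simp only [List.map_cons, List.flatten_cons, List.length_append, length_delimit,
      List.length_cons] at ih ⊢
    rw [ih]
    have : (bitEncode b : List Bool).length = 1 := rfl
    rw [this]
    ring

theorem gr_pair_length (x y : List Bool) :
    (bitEncode (x, y) : List Bool).length = 6 * x.length + 1 + 3 * y.length := by
  have h : (bitEncode (x, y) : List Bool) = delimit (bitEncode x) ++ bitEncode y := rfl
  rw [h, List.length_append, length_delimit, gr_list_length, gr_list_length]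
  ring

theorem gr_cube {n : ℕ} (hn : 10 ≤ n) : n ^ 3 ≤ 2 ^ n := by
  induction n, hn using Nat.le_induction with
  | base => norm_num
  | succ n hn ih =>
    rw [pow_succ 2 n]
    nlinarith [Nat.mul_le_mul hn hn, Nat.mul_le_mul (Nat.mul_le_mul hn hn) hn]

theorem gr_poly {K n : ℕ} (hn : K + 10 ≤ n) : K * (n * n + 2) + 2 < 2 ^ n := by
  have h1 : n ^ 3 ≤ 2 ^ n := gr_cube (by omega)
  have h2 : K * (n * n + 2) + 2 < n ^ 3 := by
    have h3 : (K + 10) * (n * n) ≤ n * (n * n) := Nat.mul_le_mul_right _ hn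
    have h4 : 1 ≤ n * n := Nat.mul_pos (by omega) (by omega)
    have h5 : K ≤ n * n := by nlinarith
    nlinarith
  omega

/-- the bound for the questions at the instances. -/
theorem gr_bound (M : Algorithm) : ∃ a, ∀ n ≥ 1, ∀ i : List Bool, i.length ≤ 2 * n →
    M.bound (inst n i) ≤ 2 ^ (a * n) := by
  obtain ⟨a, ha⟩ := ROr14.pow_bound M.r
  refine ⟨19 * (a + 1), fun n hn i hi => ?_⟩
  have hL : (inst n i).length ≤ 12 * n + 1 := by
    unfold inst
    rw [gr_pair_length]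
    simp only [List.length_replicate]
    omega
  have hP : (bitEncode (padded (inst n i)) : List Bool).length ≤ 2 ^ (12 * n + 5) := by
    unfold padded
    rw [gr_pair_length, List.length_replicate]
    have h1 : (inst n i).length < 2 ^ (inst n i).length := Nat.lt_two_pow_self
    have h2 : 2 ^ (inst n i).length ≤ 2 ^ (12 * n + 1) := Nat.pow_le_pow_right (by norm_num) hL
    have h3 : 2 ^ (12 * n + 5) = 16 * 2 ^ (12 * n + 1) := by
      rw [show 12 * n + 5 = 12 * n + 1 + 4 by omega, pow_add]; ring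
    omega
  unfold Algorithm.bound
  refine (eval_mono M.r hP).trans ((ha _).trans (Nat.pow_le_pow_right (by norm_num) ?_))
  calc (a + 1) * (12 * n + 5 + 2) ≤ (a + 1) * (19 * n) := by gcongr; omega
    _ = 19 * (a + 1) * n := by ring

theorem growth (M : Algorithm) (PT : Polynomial ℕ) : ∃ n1, ∀ n ≥ n1, ∀ i : List Bool,
    i.length ≤ 2 * n → M.bound (inst n i) ≤ ql n ∧
      8 * (M.bound (inst n i) * (PT.eval (M.bound (inst n i)) + 1)) ≤ 2 ^ (n * n) ∧
      PT.eval (M.bound (inst n i)) + M.bound (inst n i) < Lw n := by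
  obtain ⟨a, ha⟩ := gr_bound M
  obtain ⟨c, hc⟩ := ROr14.pow_bound PT
  refine ⟨a + (c + 1) * (a + 2) + 4 + 10, fun n hn i hi => ?_⟩
  have hn1 : 1 ≤ n := by omega
  have hb := ha n hn1 i hi
  set b := M.bound (inst n i) with hbd
  have hPT : PT.eval b ≤ 2 ^ ((c + 1) * (a * n + 2)) := (eval_mono PT hb).trans (hc _)
  have hexp : a * n + (c + 1) * (a * n + 2) + 4 ≤ n * n := by
    calc a * n + (c + 1) * (a * n + 2) + 4 ≤ a * n + (c + 1) * (a * n + 2 * n) + 4 * n := by
          gcongr <;> omega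
      _ = (a + (c + 1) * (a + 2) + 4) * n := by ring
      _ ≤ n * n := Nat.mul_le_mul_right _ (by omega)
  have hone : 1 ≤ 2 ^ ((c + 1) * (a * n + 2)) := Nat.one_le_two_pow
  have h8 : 8 * (b * (PT.eval b + 1)) ≤ 2 ^ (n * n) := by
    calc 8 * (b * (PT.eval b + 1)) ≤ 8 * (2 ^ (a * n) * (2 ^ ((c + 1) * (a * n + 2)) +
          2 ^ ((c + 1) * (a * n + 2)))) := by gcongr
      _ = 2 ^ (a * n + (c + 1) * (a * n + 2) + 4) := by
          rw [pow_add, pow_add]; ring
      _ ≤ 2 ^ (n * n) := Nat.pow_le_pow_right (by norm_num) hexp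
  refine ⟨hb.trans (Nat.pow_le_pow_right (by norm_num) (by omega)), h8, ?_⟩
  have hsum : PT.eval b + b ≤ 2 ^ (n * n) := by
    calc PT.eval b + b ≤ 2 ^ ((c + 1) * (a * n + 2)) + 2 ^ (a * n) := by gcongr
      _ ≤ 2 ^ (a * n + (c + 1) * (a * n + 2)) + 2 ^ (a * n + (c + 1) * (a * n + 2)) := by
          gcongr <;> first | norm_num | omega
      _ = 2 ^ (a * n + (c + 1) * (a * n + 2) + 1) := by rw [pow_succ]; ring
      _ ≤ 2 ^ (n * n) := Nat.pow_le_pow_right (by norm_num) (by omega)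
  refine hsum.trans_lt ?_
  unfold Lw
  refine Nat.pow_lt_pow_right (by norm_num) ?_
  have := gr_poly (K := 1) (n := n) (by omega)
  omega

theorem growth_ql (PT : Polynomial ℕ) : ∃ n1, ∀ n ≥ n1, PT.eval (ql n) + ql n < Lw n ∧
    200 * (n * n + n + 1) < Lw n := by
  obtain ⟨c, hc⟩ := ROr14.pow_bound PT
  refine ⟨c + 1 + 10, fun n hn => ⟨?_, ?_⟩⟩
  · have h1 : PT.eval (ql n) ≤ 2 ^ ((c + 1) * (n * n + 2)) := hc (n * n)
    have h2 : ql n ≤ 2 ^ ((c + 1) * (n * n + 2)) := by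
      unfold ql
      refine Nat.pow_le_pow_right (by norm_num) ?_
      calc n * n ≤ 1 * (n * n + 2) := by omega
        _ ≤ (c + 1) * (n * n + 2) := Nat.mul_le_mul_right _ (by omega)
    have h3 : PT.eval (ql n) + ql n ≤ 2 ^ ((c + 1) * (n * n + 2) + 1) := by
      rw [pow_succ]; omega
    refine h3.trans_lt ?_
    unfold Lw
    refine Nat.pow_lt_pow_right (by norm_num) ?_
    have := gr_poly (K := c + 1) (n := n) hn
    omega
  · have h1 : n ^ 3 ≤ 2 ^ n := gr_cube (by omega)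
    have h2 : 10 * (n * n) ≤ n ^ 3 := by
      calc 10 * (n * n) ≤ n * (n * n) := Nat.mul_le_mul_right _ (by omega)
        _ = n ^ 3 := by ring
    have h0 : n ≤ n * n := Nat.le_mul_of_pos_left _ (by omega)
    have h3 : n * n + n + 1 ≤ 2 ^ n := by
      have : 1 ≤ n * n := by omega
      omega
    have h4 : n + 8 ≤ 2 ^ n := by
      have : 100 ≤ n * n := Nat.mul_le_mul (show 10 ≤ n by omega) (show 10 ≤ n by omega)
      omega
    unfold Lw
    calc 200 * (n * n + n + 1) ≤ 200 * 2 ^ n := Nat.mul_le_mul_left _ h3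
      _ < 256 * 2 ^ n := by
          have : 0 < 2 ^ n := by positivity
          omega
      _ = 2 ^ (n + 8) := by rw [pow_add]; ring
      _ ≤ 2 ^ 2 ^ n := Nat.pow_le_pow_right (by norm_num) h4

theorem lt_tw (m : ℕ) : m < tw m := by
  unfold tw
  have h1 : m < 2 ^ m := Nat.lt_two_pow_self
  have h2 : 2 ^ m < 2 ^ 2 ^ m := Nat.lt_two_pow_self
  have h3 : 2 ^ 2 ^ m < 2 ^ 2 ^ 2 ^ m := Nat.lt_two_pow_self
  have h4 : 2 ^ 2 ^ 2 ^ m < 2 ^ 2 ^ 2 ^ 2 ^ m := Nat.lt_two_pow_self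
  have h5 : 2 ^ 2 ^ 2 ^ 2 ^ m < 2 ^ 2 ^ 2 ^ 2 ^ 2 ^ m := Nat.lt_two_pow_self
  exact h1.trans (h2.trans (h3.trans (h4.trans h5)))

theorem Lw_le_tw (m : ℕ) : Lw m ≤ tw m := by
  unfold tw Lw
  have h3 : 2 ^ 2 ^ m < 2 ^ 2 ^ 2 ^ m := Nat.lt_two_pow_self
  have h4 : 2 ^ 2 ^ 2 ^ m < 2 ^ 2 ^ 2 ^ 2 ^ m := Nat.lt_two_pow_self
  have h5 : 2 ^ 2 ^ 2 ^ 2 ^ m < 2 ^ 2 ^ 2 ^ 2 ^ 2 ^ m := Nat.lt_two_pow_self
  exact (h3.trans (h4.trans h5)).le

theorem sc_pos (j : ℕ) : 1 ≤ sc j := by
  cases j with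
  | zero => exact le_rfl
  | succ j => exact Nat.one_le_two_pow

theorem sc_strictMono : StrictMono sc :=
  strictMono_nat_of_lt_succ fun j => lt_tw (sc j)

theorem le_sc (j : ℕ) : j ≤ sc j := sc_strictMono.le_apply

theorem strs_mono {m n : ℕ} (h : m ≤ n) : strs m ⊆ strs n := by
  intro z hz
  rw [mem_strs] at hz ⊢
  omega

theorem disjoint_strs_win (n : ℕ) : Disjoint (strs n) (win n) := by
  rw [Finset.disjoint_left]
  intro z hz hz'
  rw [mem_strs] at hz
  rw [mem_win] at hz'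
  omega

theorem union_subset (j : ℕ) : strs (sc j) ∪ win (sc j) ⊆ strs (sc (j + 1)) := by
  intro z hz
  have h1 : Lw (sc j) ≤ sc (j + 1) := Lw_le_tw (sc j)
  have h2 : sc j < sc (j + 1) := lt_tw (sc j)
  rw [Finset.mem_union, mem_strs, mem_win] at hz
  rw [mem_strs]
  omega

end Pool.Agent.TFR21
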