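import Pool.Agent.TFR21.Params

/-!
# Module TFR21/Resample

PROOF. `frac_congr`: `overlay w B R` does not depend on the values of `R` on `w`.
`measure_inter_eq`: for `B ∈ w.powerset` let `C_B = {R | ∀ z ∈ w, R z = decide (z ∈ B)}`; these
`2 ^ w.card` events are disjoint, cover everything, depend on `w` (`Dep w C_B`) and have probability
`2 ^ (-w.card)` (as `measure_allTrue` in `ROr14/Prob.lean`, with `Measure.infinitePi_pi`, sets
`{decide (z ∈ B)}`). On `C_B` we have `R = overlay w B R`, so
`G ∩ E ∩ C_B = G ∩ {R | overlay w B R ∈ E} ∩ C_B`, and `{R | overlay w B R ∈ E}` depends on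
`S \ w`, `G` on `T`, both disjoint from `w`. By `Dep.indep`
`μ(G ∩ E) = ∑_B μ(G ∩ E_B) 2^(-w.card)`, `E_B = {R | overlay w B R ∈ E}`, and
`∑_B 2^(-w.card) [R ∈ E_B] = frac w E R`.
-/

set_option autoImplicit false

namespace Pool.Agent.TFR21

open Pool.Agent.ROr14 MeasureTheory

theorem overlay_congr {w B : Finset (List Bool)} {R R' : List Bool → Bool}
    (h : ∀ z ∉ w, R z = R' z) : overlay w B R = overlay w B R' := by
  funext z
  unfold overlay
  split_ifs with hz
  · rfl
  · exact h z hz

theorem overlay_of_dep {T w B : Finset (List Bool)} {G : Set (List Bool → Bool)} (hG : Dep T G)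
    (hd : Disjoint T w) {R : List Bool → Bool} : overlay w B R ∈ G ↔ R ∈ G := by
  have h : ∀ z ∈ T, overlay w B R z = R z := by
    intro z hz
    have : z ∉ w := Finset.disjoint_left.1 hd hz
    simp [overlay, this]
  exact ⟨hG _ _ h, hG _ _ fun z hz => (h z hz).symm⟩

theorem frac_congr {w : Finset (List Bool)} {E : Set (List Bool → Bool)} {R R' : List Bool → Bool}
    (h : ∀ z ∉ w, R z = R' z) : frac w E R = frac w E R' := by
  classical
  have h' : ∀ B, overlay w B R = overlay w B R' := fun B => overlay_congr h
  unfold frac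
  have h2 := Finset.filter_congr (s := w.powerset) (p := fun B => overlay w B R ∈ E)
    (q := fun B => overlay w B R' ∈ E) fun B _ => by rw [h' B]
  rw [h2]

theorem frac_nonneg (w : Finset (List Bool)) (E : Set (List Bool → Bool)) (R : List Bool → Bool) :
    0 ≤ frac w E R := by
  unfold frac
  positivity

theorem frac_le_one (w : Finset (List Bool)) (E : Set (List Bool → Bool))
    (R : List Bool → Bool) : frac w E R ≤ 1 := by
  classical
  unfold frac
  rw [div_le_one (by positivity)]
  have h := Finset.card_filter_le w.powerset (fun B => overlay w B R ∈ E)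
  rw [Finset.card_powerset] at h
  exact_mod_cast h

theorem frac_mono {w : Finset (List Bool)} {E E' : Set (List Bool → Bool)} {R : List Bool → Bool}
    (h : ∀ B ⊆ w, overlay w B R ∈ E → overlay w B R ∈ E') : frac w E R ≤ frac w E' R := by
  classical
  unfold frac
  refine div_le_div_of_nonneg_right ?_ (by positivity)
  refine Nat.cast_le.2 (Finset.card_le_card ?_)
  intro B hB
  rw [Finset.mem_filter, Finset.mem_powerset] at hB ⊢
  exact ⟨hB.1, h B hB.1 hB.2⟩

theorem dep_overlay {S w B : Finset (List Bool)} {E : Set (List Bool → Bool)} (hE : Dep S E) :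
    Dep (S \ w) {R | overlay w B R ∈ E} := by
  intro R R' hR h
  refine hE _ _ (fun z hz => ?_) h
  unfold overlay
  split_ifs with hw
  · rfl
  · exact hR z (Finset.mem_sdiff.2 ⟨hz, hw⟩)

open Classical in
theorem frac_eq_sum (w : Finset (List Bool)) (E : Set (List Bool → Bool)) (R : List Bool → Bool) :
    frac w E R = (∑ B ∈ w.powerset, Set.indicator {R | overlay w B R ∈ E} (fun _ => (1 : ℝ)) R) /
      2 ^ w.card := by
  unfold frac
  congr 1
  rw [Finset.card_filter]
  push_cast
  refine Finset.sum_congr rfl fun B _ => ?_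
  simp only [Set.indicator_apply, Set.mem_ofPred_eq]

theorem measurable_frac {S w : Finset (List Bool)} {E : Set (List Bool → Bool)} (hE : Dep S E) :
    Measurable (frac w E) := by
  have h : frac w E = fun R => (∑ B ∈ w.powerset,
      Set.indicator {R | overlay w B R ∈ E} (fun _ => (1 : ℝ)) R) / 2 ^ w.card := by
    funext R
    exact frac_eq_sum w E R
  rw [h]
  refine Measurable.div_const ?_ _
  refine Finset.measurable_sum _ fun B _ => ?_
  exact measurable_const.indicator (dep_overlay hE).measurableSet

/-- The cylinder on which the coordinates in `w` are given by `B`. -/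
def cyl (w B : Finset (List Bool)) : Set (List Bool → Bool) := {R | ∀ z ∈ w, R z = decide (z ∈ B)}

theorem dep_cyl (w B : Finset (List Bool)) : Dep w (cyl w B) :=
  fun R R' hR h z hz => by rw [← hR z hz]; exact h z hz

theorem measure_cyl (w B : Finset (List Bool)) :
    randomOracle (cyl w B) = (2⁻¹ : ENNReal) ^ w.card := by
  have h := Measure.infinitePi_pi (fun _ : List Bool => coin) (s := w)
    (t := fun z => {decide (z ∈ B)}) (fun _ _ => measurableSet_singleton _)
  have h2 : (Set.pi (w : Set (List Bool)) fun z => ({decide (z ∈ B)} : Set Bool)) = cyl w B := by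
    ext R
    simp [Set.mem_pi, cyl]
  rw [h2] at h
  unfold randomOracle
  rw [h]
  have h3 : ∀ b : Bool, coin {b} = 2⁻¹ := by
    intro b
    unfold coin
    rw [PMF.toMeasure_apply_singleton _ _ (measurableSet_singleton _)]
    simp [PMF.uniformOfFintype_apply]
  simp [h3]

theorem mem_cyl_iff {w B : Finset (List Bool)} {R : List Bool → Bool} (hB : B ⊆ w) :
    R ∈ cyl w B ↔ w.filter (fun z => R z = true) = B := by
  constructor
  · intro h
    ext z
    rw [Finset.mem_filter]
    constructor
    · rintro ⟨h1, h2⟩
      have := h z h1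
      rw [h2] at this
      exact of_decide_eq_true this.symm
    · intro hz
      refine ⟨hB hz, ?_⟩
      rw [h z (hB hz)]
      exact decide_eq_true hz
  · rintro rfl
    intro z hz
    by_cases h : R z = true
    · simp [h, hz]
    · simp [h]

theorem overlay_of_mem_cyl {w B : Finset (List Bool)} {R : List Bool → Bool} (h : R ∈ cyl w B) :
    overlay w B R = R := by
  funext z
  unfold overlay
  split_ifs with hz
  · exact (h z hz).symm
  · rfl

theorem measure_eq_sum_cyl (w : Finset (List Bool)) {D : Set (List Bool → Bool)}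
    (hD : MeasurableSet D) :
    randomOracle D = ∑ B ∈ w.powerset, randomOracle (D ∩ cyl w B) := by
  rw [← measure_biUnion_finset]
  · congr 1
    ext R
    simp only [Set.mem_iUnion, Finset.mem_powerset, Set.mem_inter_iff, exists_prop]
    constructor
    · intro h
      exact ⟨w.filter (fun z => R z = true), Finset.filter_subset _ _, h,
        (mem_cyl_iff (Finset.filter_subset _ _)).2 rfl⟩
    · rintro ⟨_, _, h, _⟩
      exact h
  · intro B hB B' hB' hne
    rw [Finset.mem_coe, Finset.mem_powerset] at hB hB'
    change Disjoint _ _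
    rw [Set.disjoint_left]
    rintro R ⟨_, h1⟩ ⟨_, h2⟩
    rw [mem_cyl_iff hB] at h1
    rw [mem_cyl_iff hB'] at h2
    exact hne (h1.symm.trans h2)
  · intro B _
    exact hD.inter (dep_cyl w B).measurableSet

/-- Conditioning on the coordinates outside `w`. -/
theorem measure_inter_eq {S T w : Finset (List Bool)} {G E : Set (List Bool → Bool)}
    (hG : Dep T G) (hE : Dep S E) (hd : Disjoint T w) :
    randomOracle (G ∩ E) = ∫⁻ R in G, ENNReal.ofReal (frac w E R) ∂randomOracle := by
  classical
  have hGm := hG.measurableSet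
  have hEm := hE.measurableSet
  -- the left side
  have hl : randomOracle (G ∩ E) =
      ∑ B ∈ w.powerset, randomOracle (G ∩ {R | overlay w B R ∈ E}) * (2⁻¹ : ENNReal) ^ w.card := by
    rw [measure_eq_sum_cyl w (hGm.inter hEm)]
    refine Finset.sum_congr rfl fun B _ => ?_
    have h1 : G ∩ E ∩ cyl w B = (G ∩ {R | overlay w B R ∈ E}) ∩ cyl w B := by
      ext R
      simp only [Set.mem_inter_iff, Set.mem_ofPred_eq]
      constructor
      · rintro ⟨⟨h1, h2⟩, h3⟩
        exact ⟨⟨h1, by rw [overlay_of_mem_cyl h3]; exact h2⟩, h3⟩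
      · rintro ⟨⟨h1, h2⟩, h3⟩
        exact ⟨⟨h1, by rw [overlay_of_mem_cyl h3] at h2; exact h2⟩, h3⟩
    rw [h1]
    have h2 : Dep ((T ∪ S) \ w) (G ∩ {R | overlay w B R ∈ E}) := by
      refine Dep.inter (hG.mono ?_) ((dep_overlay hE).mono ?_)
      · intro z hz
        exact Finset.mem_sdiff.2 ⟨Finset.mem_union_left _ hz, Finset.disjoint_left.1 hd hz⟩
      · exact Finset.sdiff_subset_sdiff Finset.subset_union_right (Finset.Subset.refl _)
    rw [h2.indep (dep_cyl w B) Finset.sdiff_disjoint, measure_cyl]
  -- the right side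
  have hr : ∀ R, ENNReal.ofReal (frac w E R) = (∑ B ∈ w.powerset,
      Set.indicator {R | overlay w B R ∈ E} (fun _ => (1 : ENNReal)) R) *
        (2⁻¹ : ENNReal) ^ w.card := by
    intro R
    rw [frac_eq_sum, div_eq_mul_inv, ENNReal.ofReal_mul
      (Finset.sum_nonneg fun B _ => Set.indicator_nonneg (fun _ _ => zero_le_one) _)]
    congr 1
    · rw [ENNReal.ofReal_sum_of_nonneg
        (fun B _ => Set.indicator_nonneg (fun _ _ => zero_le_one) _)]
      refine Finset.sum_congr rfl fun B _ => ?_
      simp only [Set.indicator_apply]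
      split_ifs <;> simp
    · rw [ENNReal.ofReal_inv_of_pos (by positivity), ENNReal.ofReal_pow (by norm_num),
        ENNReal.inv_pow]
      norm_num
  simp only [hr]
  rw [lintegral_mul_const _ (Finset.measurable_sum _ fun B _ =>
    measurable_const.indicator (dep_overlay hE).measurableSet), hl, ← Finset.sum_mul]
  congr 1
  rw [lintegral_finsetSum _ fun B _ => measurable_const.indicator (dep_overlay hE).measurableSet]
  refine Finset.sum_congr rfl fun B _ => ?_
  rw [lintegral_indicator (dep_overlay hE).measurableSet, lintegral_const, one_mul,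
    Measure.restrict_apply_univ, Measure.restrict_apply (dep_overlay hE).measurableSet,
    Set.inter_comm]

end Pool.Agent.TFR21
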