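import Pool.Agent.TFR21.Run
import Pool.Agent.TFR21.Growth
import Pool.Agent.TFR21.Resample

/-!
# Module TFR21/LevDep

PROOFS. `orc_overlay`: by `S.hec`, `S.hce`. `frac_nontot`: definition of `frac` and `orc_overlay`.
`level_congr`: `frac_nontot`-like: for `B ⊆ win m` the oracles `ovX S.e (win m) B (S.orc A R)` and
`ovX S.e (win m) B (S.orc A R')` are `S.orc A` of `overlay (win m) B R`, `overlay (win m) B R'`,
which agree on all coordinates of length `< Lw m`; `tot_dep`.
-/

set_option autoImplicit false

namespace Pool.Agent.TFR21

open Pool.Agent.PT Pool.Agent.TMB67 Pool.Agent.POpt70 Pool.Agent.ROr14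
open N68a2faeb N793a5b8e N487b59b3 MeasureTheory

theorem Acc.e_inj (S : Acc) : Function.Injective S.e := by
  intro z z' h
  have h1 := S.hce z
  rw [h, S.hce z'] at h1
  exact (Option.some.inj h1).symm

theorem orc_overlay (S : Acc) (A R : List Bool → Bool) {w B : Finset (List Bool)} (h : B ⊆ w) :
    S.orc A (overlay w B R) = ovX S.e w B (S.orc A R) := by
  funext y
  unfold Acc.orc ovX mix
  cases hy : S.c y with
  | none =>
    have hn : y ∉ w.image S.e := by
      intro hm
      obtain ⟨z, -, rfl⟩ := Finset.mem_image.mp hm
      rw [S.hce] at hy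
      exact Option.some_ne_none _ hy
    rw [if_neg hn]
  | some z =>
    have hyz : y = S.e z := S.hec y z hy
    subst hyz
    have h1 : ∀ s : Finset (List Bool), S.e z ∈ s.image S.e ↔ z ∈ s := fun s => by
      constructor
      · intro hm
        obtain ⟨z', hz', he⟩ := Finset.mem_image.mp hm
        rwa [S.e_inj he] at hz'
      · exact fun hm => Finset.mem_image_of_mem _ hm
    simp only [h1]
    rfl

/-- The conditional risk is the proportion of the changes that are not total. -/
theorem frac_nontot (S : Acc) (A R : List Bool → Bool)
    (F : (List Bool → Bool) → List Bool × List Bool → Bool) (m : ℕ) :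
    frac (win m) {R' | Tot F (S.orc A R') (ql m)}ᶜ R =
      (nontot S.e F (S.orc A R) m : ℝ) / (2 ^ (win m).card : ℕ) := by
  classical
  unfold frac nontot
  have h1 : ((win m).powerset.filter fun B =>
      overlay (win m) B R ∈ {R' | Tot F (S.orc A R') (ql m)}ᶜ) =
      ((win m).powerset.filter fun B => ¬ Tot F (ovX S.e (win m) B (S.orc A R)) (ql m)) := by
    apply Finset.filter_congr
    intro B hB
    rw [Finset.mem_powerset] at hB
    rw [Set.mem_compl_iff, Set.mem_ofPred_eq, orc_overlay S A R hB]
  push_cast
  congr 2
  convert congrArg Finset.card h1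

/-- The level depends on the coordinates of length `< m` only. -/
theorem level_congr {F : (List Bool → Bool) → List Bool × List Bool → Bool} {PT : Polynomial ℕ}
    (hloc : Local F PT) (S : Acc) (A : List Bool → Bool) {m : ℕ} (hm : PT.eval (ql m) < Lw m)
    {R R' : List Bool → Bool} (h : ∀ z : List Bool, z.length < m → R z = R' z) :
    level S.e F (S.orc A R) m = level S.e F (S.orc A R') m := by
  classical
  have hd := tot_dep hloc S A hm
  have h1 : nontot S.e F (S.orc A R) m = nontot S.e F (S.orc A R') m := by
    unfold nontot
    congr 1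
    apply Finset.filter_congr
    intro B hB
    rw [Finset.mem_powerset] at hB
    have hov : ∀ z ∈ strs (Lw m), overlay (win m) B R z = overlay (win m) B R' z := by
      intro z hz
      rw [mem_strs] at hz
      unfold overlay
      split_ifs with hw
      · rfl
      · rw [mem_win] at hw
        exact h z (by omega)
    rw [← orc_overlay S A R hB, ← orc_overlay S A R' hB, not_iff_not]
    exact ⟨hd _ _ hov, hd _ _ fun z hz => (hov z hz).symm⟩
  unfold level
  rw [h1]

end Pool.Agent.TFR21
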