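import Pool.Agent.TFR21.KeyWin
import Pool.Agent.TFR21.LevDep
import Pool.Agent.TFR21.Borel

/-!
# Module TFR21/Alpha

PROOF. Take `PT` from `Search.exists_local`, `J` so large that `growth_ql`, `uncovered_window` apply to all
`sc j`, `j ≥ J`. Apply `borel` with `past j = strs (sc (j + J))`, `win j = win (sc (j + J))`,
`tot j = {R | Tot F (S.orc A R) (ql (sc (j + J)))}`,
`fail (j + 1) = {R | ¬ Covered R (sc (j + J + 1)) (level S.e F (S.orc A R) (sc (j + J)))}`,
`fail 0 = ∅`, `C = 4096`, `err j = (4 exp (-2)) ^ (sc (j + J + 1))`. `hle`: the level does not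
depend on the window of scale `sc (j+J+1)` (`level_congr`), so by `uncovered_window` the left side
is at most `4^k del^2` with `k` the level (`k ≤ tw m` by `lev_upper`), and `lev_upper` with
`a/t = frac (win m) (tot)ᶜ R` (`frac_nontot`), `m = sc (j+J)`, `tw m = sc (j+J+1)`. `hanti`: `ql`
and `sc` are monotone. Dependence: `tot_dep`, `covered_dep`, `level_congr`, `strs_mono`.
-/

set_option autoImplicit false

namespace Pool.Agent.TFR21

open Pool.Agent.PT Pool.Agent.TMB67 Pool.Agent.POpt70 Pool.Agent.ROr14
open N68a2faeb N793a5b8e N487b59b3 MeasureTheory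

theorem alpha_ql_mono {m n : ℕ} (h : m ≤ n) : ql m ≤ ql n := by
  unfold ql
  exact Nat.pow_le_pow_right (by norm_num) (Nat.mul_le_mul h h)

theorem alpha_tot_mono {F : (List Bool → Bool) → List Bool × List Bool → Bool} {X : List Bool → Bool}
    {l l' : ℕ} (h : l ≤ l') (hT : Tot F X l') : Tot F X l := fun π hπ => hT π (hπ.trans h)

theorem alpha_level_le {e : List Bool → List Bool}
    (F : (List Bool → Bool) → List Bool × List Bool → Bool) (X : List Bool → Bool) {m : ℕ}
    (hm : 1 ≤ m) : level e F X m ≤ tw m :=
  (lev_upper (m := m) (t := 2 ^ (win m).card) (a := nontot e F X m) hm (by positivity) rfl).1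

theorem alpha_four_exp_lt : 4 * Real.exp (-2) < 1 := by
  have h1 : (2.7 : ℝ) < Real.exp 1 := by
    have := Real.exp_one_gt_d9
    linarith
  have h2 : Real.exp (-2) = (Real.exp 1 * Real.exp 1)⁻¹ := by
    rw [Real.exp_neg, ← Real.exp_add]; norm_num
  rw [h2]
  have h3 : (4 : ℝ) < Real.exp 1 * Real.exp 1 := by nlinarith
  rw [← div_eq_mul_inv, div_lt_one (by linarith)]
  exact h3

/-- If the search problem is total then almost surely almost all levels are covered. -/
theorem alpha (S : Acc) (A : List Bool → Bool)
    {F : (List Bool → Bool) → List Bool × List Bool → Bool} {pw : Polynomial ℕ}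
    (hF : Search F pw) : ∀ᵐ R ∂randomOracle, (∀ π, ∃ w, F (S.orc A R) (π, w) = true) →
      ∃ j0, ∀ j ≥ j0, Covered R (sc (j + 1)) (level S.e F (S.orc A R) (sc j)) := by
  obtain ⟨PT, hloc⟩ := hF.exists_local
  obtain ⟨n1, hn1⟩ := growth_ql PT
  obtain ⟨n2, hn2⟩ := uncovered_window
  set J : ℕ := max n1 n2 with hJ
  have hscJ1 : ∀ j, n1 ≤ sc (j + J) := fun j =>
    (le_max_left n1 n2).trans ((Nat.le_add_left J j).trans (le_sc _))
  have hscJ2 : ∀ j, n2 ≤ sc (j + J) := fun j =>
    (le_max_right n1 n2).trans ((Nat.le_add_left J j).trans (le_sc _))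
  have hsucc : ∀ j, sc (j + 1 + J) = tw (sc (j + J)) := fun j => by
    rw [show j + 1 + J = (j + J) + 1 by ring]; rfl
  -- the level does not depend on long coordinates
  have hlev : ∀ (j : ℕ) (R R' : List Bool → Bool),
      (∀ z : List Bool, z.length < sc (j + J) → R z = R' z) →
      level S.e F (S.orc A R) (sc (j + J)) = level S.e F (S.orc A R') (sc (j + J)) := by
    intro j R R' h
    exact level_congr hloc S A (by have := (hn1 _ (hscJ1 j)).1; omega) h
  have hle' : ∀ (j : ℕ) (R : List Bool → Bool),
      level S.e F (S.orc A R) (sc (j + J)) ≤ sc (j + 1 + J) := by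
    intro j R
    rw [hsucc]
    exact alpha_level_le F _ (sc_pos _)
  set fail : ℕ → Set (List Bool → Bool) := fun j =>
    Nat.casesOn j ∅ (fun i =>
      {R | ¬ Covered R (sc (i + 1 + J)) (level S.e F (S.orc A R) (sc (i + J)))}) with hfail
  have hfs : ∀ i, fail (i + 1) =
      {R | ¬ Covered R (sc (i + 1 + J)) (level S.e F (S.orc A R) (sc (i + J)))} := fun i => rfl
  have key := borel (fun j => strs (sc (j + J))) (fun j => win (sc (j + J)))
    (fun j => disjoint_strs_win _) (fun j => by
      have := union_subset (j + J)
      rwa [show j + J + 1 = j + 1 + J by ring] at this)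
    (fun j => {R | Tot F (S.orc A R) (ql (sc (j + J)))}) fail
    (fun j => by
      refine tot_dep hloc S A ?_
      rw [hsucc]
      have h1 := (hn1 _ (hscJ1 j)).1
      have h2 := Lw_le_tw (sc (j + J))
      omega)
    (fun j => by
      intro R hR
      refine alpha_tot_mono (alpha_ql_mono (sc_strictMono.monotone ?_)) hR
      omega)
    (fun j => by
      cases j with
      | zero =>
        intro R R' _ hR
        exact absurd hR (Set.notMem_empty R)
      | succ i =>
        rw [hfs]
        intro R R' hRR'
        have h1 : level S.e F (S.orc A R) (sc (i + J)) = level S.e F (S.orc A R') (sc (i + J)) := by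
          apply hlev
          intro z hz
          apply hRR'
          rw [mem_strs]
          exact lt_of_lt_of_le hz (sc_strictMono.monotone (by omega))
        have h2 := covered_dep (n := sc (i + 1 + J))
          (k := level S.e F (S.orc A R) (sc (i + J))) (l := sc (i + 1 + 1 + J)) (hle' i R) (by
            have h3 := (hn1 _ (hscJ1 (i + 1))).2
            have h4 := Lw_le_tw (sc (i + 1 + J))
            rw [hsucc (i + 1)]
            omega)
        intro hR hcon
        refine hR ?_
        have h3 : Covered R' (sc (i + 1 + J)) (level S.e F (S.orc A R') (sc (i + J))) := hcon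
        rw [← h1] at h3
        exact h2 R' R (fun z hz => (hRR' z hz).symm) h3)
    4096 (by norm_num) (fun j => (4 * Real.exp (-2)) ^ (sc (j + 1 + J)))
    (by
      have h0 : 0 ≤ 4 * Real.exp (-2) := by positivity
      refine Summable.of_nonneg_of_le (fun j => by positivity) (fun j => ?_)
        (summable_geometric_of_lt_one h0 alpha_four_exp_lt)
      apply pow_le_pow_of_le_one h0 alpha_four_exp_lt.le
      exact le_trans (by omega) (le_sc _))
    (fun j => by positivity)
    (fun j R => by
      set m := sc (j + J) with hm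
      set k := level S.e F (S.orc A R) m with hk
      have hm1 : 1 ≤ m := sc_pos _
      have h1 := lev_upper (m := m) (t := 2 ^ (win m).card) (a := nontot S.e F (S.orc A R) m) hm1
        (by positivity) (k := k) rfl
      have h2 : frac (win (sc (j + 1 + J))) (fail (j + 1)) R ≤
          frac (win (sc (j + 1 + J))) {R' | ¬ Covered R' (sc (j + 1 + J)) k} R := by
        apply frac_mono
        intro B hB hmem
        rw [hfs] at hmem
        have h3 : level S.e F (S.orc A (overlay (win (sc (j + 1 + J))) B R)) (sc (j + J)) = k := by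
          apply hlev
          intro z hz
          unfold overlay
          rw [if_neg]
          rw [mem_win]
          rintro ⟨h4, -⟩
          have h5 : sc (j + J) < sc (j + 1 + J) := sc_strictMono (by omega)
          omega
        have h4 : ¬ Covered (overlay (win (sc (j + 1 + J))) B R) (sc (j + 1 + J))
          (level S.e F (S.orc A (overlay (win (sc (j + 1 + J))) B R)) (sc (j + J))) := hmem
        rw [h3] at h4
        exact h4
      have h5 := hn2 _ (hscJ2 (j + 1)) k (hle' j R) R
      have h6 := frac_nontot S A R F m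
      show frac (win (sc (j + 1 + J))) (fail (j + 1)) R ≤
        4096 * frac (win (sc (j + J))) {R | Tot F (S.orc A R) (ql (sc (j + J)))}ᶜ R +
          (4 * Real.exp (-2)) ^ (sc (j + 1 + J))
      rw [h6, hsucc]
      rw [hsucc] at h2 h5
      exact h2.trans (h5.trans h1.2))
  filter_upwards [key] with R hR htot
  obtain ⟨j0, hj0⟩ := hR (fun j π _ => htot π)
  refine ⟨j0 + J + 1, fun j hj => ?_⟩
  obtain ⟨i, rfl⟩ : ∃ i, j = i + J := ⟨j - J, by omega⟩
  have h1 := hj0 (i + 1) (by omega)
  rw [hfs] at h1
  have h2 : Covered R (sc (i + 1 + J)) (level S.e F (S.orc A R) (sc (i + J))) := by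
    by_contra h3
    exact h1 h3
  rwa [show i + 1 + J = i + J + 1 by ring] at h2

end Pool.Agent.TFR21
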