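import Pool.Agent.TFR21.Resample

/-!
# Module TFR21/Martin

PROOF. We may assume `0 < c` (otherwise use `frac_nonneg`). `γ j R = frac (win j) (works j) R`. It
suffices to show for every `j0` that the set of `R` with `R ∈ works j` for all `j ≥ j0` and
`γ j R < c` for infinitely many `j` is null.
For `n : ℕ` let
`f n R = ∏ j ∈ [j0, j0 + n), (if R ∈ works j then (if γ j R < c then c⁻¹ else 1) else 0)`
(values in `ℝ≥0∞`). Then `∫⁻ f n ≤ 1`, by induction on `n`: `f n` is a finite linear combination of
indicators of events depending on `past (j0 + n)` (disjoint from `win (j0 + n)`), the factor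
`(if γ < c then c⁻¹ else 1)` does not depend on the coordinates in `win (j0+n)` (`frac_congr`), so
by `measure_inter_eq` `∫⁻ f (n+1) = ∫⁻ f n R * (if γ < c then c⁻¹ else 1) * γ ≤ ∫⁻ f n`
(`γ ≤ 1`, and `c⁻¹ γ ≤ 1` if `γ < c`).
(Alternative without integrals: for `m n` let `E n m` be the event that `R ∈ works j` for all
`j ∈ [j0, j0+n)` and `γ j R < c` for at least `m` of them; show `μ (E n m) ≤ c^m` by induction:
split at the `m`-th such `j`, i.e. `E n m ⊆ ⋃ j, E j (m-1) ∩ {exactly m-1 ones before j, γ j < c} ∩
works j`, disjoint events, and use `measure_inter_eq` with `G` = the event before `j` intersected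
with `{γ j < c}`, which depends on coordinates outside `win j`.)
By Markov, `μ {R | R ∈ works j for all j ≥ j0, at least m of the j have γ j R < c} ≤ c^m` for all
`m` (continuity from below in `n`), which tends to `0`.
-/

set_option autoImplicit false

namespace Pool.Agent.TFR21

open Pool.Agent.ROr14 MeasureTheory

/-- The function `g` depends only on the coordinates in `T`. -/
def DepF {α : Type*} (T : Finset (List Bool)) (g : (List Bool → Bool) → α) : Prop :=
  ∀ R R' : List Bool → Bool, (∀ z ∈ T, R z = R' z) → g R = g R'

theorem DepF.mono {α : Type*} {S T : Finset (List Bool)} {g : (List Bool → Bool) → α}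
    (h : DepF S g) (hST : S ⊆ T) : DepF T g := fun R R' hR => h R R' fun z hz => hR z (hST hz)

/-- The cylinder of `y`. -/
def cylM (T : Finset (List Bool)) (y : T → Bool) : Set (List Bool → Bool) :=
  {R | ∀ z : T, R z = y z}

theorem dep_cylM (T : Finset (List Bool)) (y : T → Bool) : Dep T (cylM T y) := by
  intro R R' hR h z
  rw [← hR z z.2]
  exact h z

theorem iUnion_cylM (T : Finset (List Bool)) : (⋃ y : T → Bool, cylM T y) = Set.univ := by
  refine Set.eq_univ_of_forall fun R => ?_
  rw [Set.mem_iUnion]
  exact ⟨fun z => R z, fun z => rfl⟩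

theorem disjoint_cylM (T : Finset (List Bool)) :
    Pairwise (Function.onFun Disjoint (cylM T)) := by
  intro y y' hy
  rw [Function.onFun, Set.disjoint_left]
  intro R h h'
  exact hy (funext fun z => (h z).symm.trans (h' z))

theorem DepF.lintegral_mul {T : Finset (List Bool)} {g : (List Bool → Bool) → ENNReal}
    (hg : DepF T g) {h : (List Bool → Bool) → ENNReal} (mh : Measurable h) :
    ∫⁻ R, g R * h R ∂randomOracle =
      ∑' y : T → Bool, g (fun z => if hz : z ∈ T then y ⟨z, hz⟩ else false) *
        ∫⁻ R in cylM T y, h R ∂randomOracle := by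
  classical
  rw [← setLIntegral_univ, ← iUnion_cylM T, lintegral_iUnion
    (fun y => (dep_cylM T y).measurableSet) (disjoint_cylM T)]
  refine tsum_congr fun y => ?_
  rw [← lintegral_const_mul _ mh]
  refine setLIntegral_congr_fun (dep_cylM T y).measurableSet fun R hR => ?_
  have : g R = g (fun z => if hz : z ∈ T then y ⟨z, hz⟩ else false) := by
    refine hg _ _ fun z hz => ?_
    simp only [hz, dite_true]
    exact hR ⟨z, hz⟩
  simp only [this]

theorem DepF.lintegral_congr {T : Finset (List Bool)} {g : (List Bool → Bool) → ENNReal}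
    (hg : DepF T g) {h1 h2 : (List Bool → Bool) → ENNReal} (m1 : Measurable h1)
    (m2 : Measurable h2) (h : ∀ G, Dep T G → ∫⁻ R in G, h1 R ∂randomOracle =
      ∫⁻ R in G, h2 R ∂randomOracle) :
    ∫⁻ R, g R * h1 R ∂randomOracle = ∫⁻ R, g R * h2 R ∂randomOracle := by
  rw [hg.lintegral_mul m1, hg.lintegral_mul m2]
  exact tsum_congr fun y => by rw [h _ (dep_cylM T y)]

theorem DepF.measurable {T : Finset (List Bool)} {g : (List Bool → Bool) → ENNReal}
    (hg : DepF T g) : Measurable g := by
  classical
  have h1 : g = (fun y : T → Bool => g (fun z => if hz : z ∈ T then y ⟨z, hz⟩ else false)) ∘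
      fun R (z : T) => R z := by
    funext R
    refine hg _ _ fun z hz => ?_
    simp [hz]
  rw [h1]
  refine Measurable.comp (measurable_of_finite _) ?_
  exact measurable_pi_lambda _ fun z => measurable_pi_apply _

open Classical in
/-- The betting factor. -/
noncomputable def fac (win : ℕ → Finset (List Bool)) (works : ℕ → Set (List Bool → Bool)) (c : ℝ)
    (j : ℕ) (R : List Bool → Bool) : ENNReal :=
  if frac (win j) (works j) R < c then (ENNReal.ofReal c)⁻¹ else 1

open Classical in
/-- The capital after `n` bets. -/
noncomputable def cap (win : ℕ → Finset (List Bool)) (works : ℕ → Set (List Bool → Bool)) (c : ℝ)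
    (j0 : ℕ) : ℕ → (List Bool → Bool) → ENNReal
  | 0 => fun _ => 1
  | n + 1 => fun R => (cap win works c j0 n R * fac win works c (j0 + n) R) *
      (works (j0 + n)).indicator 1 R

theorem depF_frac {win past : Finset (List Bool)} {E : Set (List Bool → Bool)}
    (hE : Dep past E) : DepF (past \ win) (frac win E) := by
  classical
  intro R R' h
  unfold frac
  congr 3
  refine Finset.filter_congr fun B _ => ?_
  have h1 : ∀ z ∈ past, overlay win B R z = overlay win B R' z := by
    intro z hz
    unfold overlay
    by_cases hw : z ∈ win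
    · simp [hw]
    · simp only [hw, if_false]
      exact h z (Finset.mem_sdiff.2 ⟨hz, hw⟩)
  exact ⟨hE _ _ h1, hE _ _ fun z hz => (h1 z hz).symm⟩

section

variable {past win : ℕ → Finset (List Bool)} {works : ℕ → Set (List Bool → Bool)} {c : ℝ}

theorem depF_fac (hworks : ∀ j, Dep (past (j + 1)) (works j)) (j : ℕ) :
    DepF (past (j + 1) \ win j) (fac win works c j) := by
  intro R R' h
  unfold fac
  rw [depF_frac (hworks j) R R' h]

theorem depF_cap (hs : ∀ j, past j ∪ win j ⊆ past (j + 1))
    (hworks : ∀ j, Dep (past (j + 1)) (works j)) (j0 n : ℕ) :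
    DepF (past (j0 + n)) (cap win works c j0 n) := by
  classical
  induction n with
  | zero => intro R R' _; rfl
  | succ n ih =>
    intro R R' h
    have h1 : cap win works c j0 n R = cap win works c j0 n R' :=
      (ih.mono (Finset.union_subset_left (hs (j0 + n)))) R R' h
    have h2 : fac win works c (j0 + n) R = fac win works c (j0 + n) R' :=
      ((depF_fac hworks (j0 + n)).mono Finset.sdiff_subset) R R' h
    have h3 : (works (j0 + n)).indicator (1 : (List Bool → Bool) → ENNReal) R =
        (works (j0 + n)).indicator 1 R' := by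
      have h4 : R ∈ works (j0 + n) ↔ R' ∈ works (j0 + n) :=
        ⟨hworks (j0 + n) R R' h, hworks (j0 + n) R' R fun z hz => (h z hz).symm⟩
      by_cases h5 : R ∈ works (j0 + n)
      · rw [Set.indicator_of_mem h5, Set.indicator_of_mem (h4.1 h5)]
        rfl
      · rw [Set.indicator_of_notMem h5, Set.indicator_of_notMem (fun h6 => h5 (h4.2 h6))]
    simp only [cap, h1, h2, h3]

theorem fac_mul_le (hc0 : 0 < c) (j : ℕ) (R : List Bool → Bool) :
    fac win works c j R * ENNReal.ofReal (frac (win j) (works j) R) ≤ 1 := by
  unfold fac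
  split_ifs with h
  · have h1 : ENNReal.ofReal (frac (win j) (works j) R) ≤ ENNReal.ofReal c :=
      ENNReal.ofReal_le_ofReal h.le
    calc (ENNReal.ofReal c)⁻¹ * ENNReal.ofReal (frac (win j) (works j) R)
        ≤ (ENNReal.ofReal c)⁻¹ * ENNReal.ofReal c := by gcongr
      _ = 1 := ENNReal.inv_mul_cancel (by simpa using hc0) ENNReal.ofReal_ne_top
  · rw [one_mul]
    exact ENNReal.ofReal_le_one.2 (frac_le_one _ _ _)

theorem lintegral_cap_le (hd : ∀ j, Disjoint (past j) (win j))
    (hs : ∀ j, past j ∪ win j ⊆ past (j + 1))
    (hworks : ∀ j, Dep (past (j + 1)) (works j)) (hc0 : 0 < c) (j0 n : ℕ) :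
    ∫⁻ R, cap win works c j0 n R ∂randomOracle ≤ 1 := by
  classical
  induction n with
  | zero => simp [cap]
  | succ n ih =>
    refine le_trans ?_ ih
    have hg : DepF (past (j0 + n + 1) \ win (j0 + n))
        (fun R => cap win works c j0 n R * fac win works c (j0 + n) R) := by
      intro R R' h
      have h1 : cap win works c j0 n R = cap win works c j0 n R' := by
        refine ((depF_cap hs hworks j0 n).mono ?_) R R' h
        intro z hz
        exact Finset.mem_sdiff.2 ⟨hs _ (Finset.mem_union_left _ hz),
          Finset.disjoint_left.1 (hd _) hz⟩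
      have h2 := depF_fac (c := c) (win := win) hworks (j0 + n) R R' h
      simp only [h1, h2]
    have hm : Measurable fun R => ENNReal.ofReal (frac (win (j0 + n)) (works (j0 + n)) R) :=
      (measurable_frac (hworks (j0 + n))).ennreal_ofReal
    have hi : Measurable ((works (j0 + n)).indicator (1 : (List Bool → Bool) → ENNReal)) :=
      measurable_one.indicator (hworks (j0 + n)).measurableSet
    have h1 : ∫⁻ R, cap win works c j0 (n + 1) R ∂randomOracle =
        ∫⁻ R, (cap win works c j0 n R * fac win works c (j0 + n) R) *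
          ENNReal.ofReal (frac (win (j0 + n)) (works (j0 + n)) R) ∂randomOracle := by
      refine hg.lintegral_congr hi hm fun G hG => ?_
      have h2 := measure_inter_eq hG (hworks (j0 + n)) Finset.sdiff_disjoint
      rw [← h2, lintegral_indicator_one₀ ?_, Measure.restrict_apply (hworks (j0 + n)).measurableSet,
        Set.inter_comm]
      exact (hworks (j0 + n)).measurableSet.nullMeasurableSet
    rw [h1]
    refine lintegral_mono fun R => ?_
    rw [mul_assoc]
    exact mul_le_of_le_one_right' (fac_mul_le hc0 _ _)

open Classical in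
theorem cap_eq (j0 : ℕ) {R : List Bool → Bool} (hR : ∀ j ≥ j0, R ∈ works j) (n : ℕ) :
    cap win works c j0 n R = (ENNReal.ofReal c)⁻¹ ^
      Nat.count (fun i => frac (win (j0 + i)) (works (j0 + i)) R < c) n := by
  induction n with
  | zero => simp [cap]
  | succ n ih =>
    have h1 : (works (j0 + n)).indicator (1 : (List Bool → Bool) → ENNReal) R = 1 := by
      rw [Set.indicator_of_mem (hR _ (by omega))]
      rfl
    simp only [cap, ih, h1, mul_one, Nat.count_succ]
    unfold fac
    split_ifs with h
    · rw [pow_succ]
    · simp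

end

/-- If all events `works j`, `j ≥ j0`, happen then almost surely their conditional probabilities
are finally at least `c`, for every `c < 1`. -/
theorem works_frac (past win : ℕ → Finset (List Bool)) (hd : ∀ j, Disjoint (past j) (win j))
    (hs : ∀ j, past j ∪ win j ⊆ past (j + 1)) (works : ℕ → Set (List Bool → Bool))
    (hworks : ∀ j, Dep (past (j + 1)) (works j)) (c : ℝ) (hc : c < 1) :
    ∀ᵐ R ∂randomOracle, (∃ j0, ∀ j ≥ j0, R ∈ works j) →
      ∃ j1, ∀ j ≥ j1, c ≤ frac (win j) (works j) R := by
  classical
  rcases le_or_gt c 0 with hc0 | hc0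
  · exact Filter.Eventually.of_forall fun R _ => ⟨0, fun j _ => hc0.trans (frac_nonneg _ _ _)⟩
  have h1 : ∀ j0 : ℕ, ∀ᵐ R ∂randomOracle,
      Filter.liminf (fun n => cap win works c j0 n R) Filter.atTop < ⊤ := by
    intro j0
    have hm : ∀ n, Measurable (cap win works c j0 n) := fun n =>
      (depF_cap hs hworks j0 n).measurable
    refine ae_lt_top (Measurable.liminf hm) ?_
    refine ne_top_of_le_ne_top ENNReal.one_ne_top ((lintegral_liminf_le hm).trans ?_)
    refine (Filter.liminf_le_liminf (v := fun _ => (1 : ENNReal))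
      (Filter.Eventually.of_forall fun n => lintegral_cap_le hd hs hworks hc0 j0 n)).trans ?_
    simp
  filter_upwards [ae_all_iff.2 h1] with R hR
  rintro ⟨j0, hj0⟩
  by_contra hcon
  push Not at hcon
  have hinf : (Set.ofPred fun i => frac (win (j0 + i)) (works (j0 + i)) R < c).Infinite := by
    refine Set.infinite_of_forall_exists_gt fun a => ?_
    obtain ⟨j, hj, hlt⟩ := hcon (j0 + a + 1)
    refine ⟨j - j0, ?_, by omega⟩
    have : j0 + (j - j0) = j := by omega
    show frac (win (j0 + (j - j0))) (works (j0 + (j - j0))) R < c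
    rw [this]
    exact hlt
  have ht : Filter.Tendsto
      (Nat.count fun i => frac (win (j0 + i)) (works (j0 + i)) R < c) Filter.atTop
      Filter.atTop :=
    Filter.tendsto_atTop_atTop_of_monotone (Nat.count_monotone _)
      fun m => ⟨_, (Nat.count_nth_of_infinite hinf m).ge⟩
  have hone : 1 < (ENNReal.ofReal c)⁻¹ := by
    rw [ENNReal.one_lt_inv]
    exact ENNReal.ofReal_lt_one.2 hc
  have ht2 : Filter.Tendsto (fun n => cap win works c j0 n R) Filter.atTop (nhds ⊤) := by
    have := (ENNReal.tendsto_pow_atTop_nhds_top_iff.2 hone).comp ht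
    refine this.congr fun n => ?_
    rw [cap_eq j0 hj0 n]
    rfl
  have h2 := hR j0
  rw [ht2.liminf_eq] at h2
  exact lt_irrefl _ h2

end Pool.Agent.TFR21
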