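import Pool.Agent.TFR21.Bounds
import Pool.Agent.TFR21.LevDep
import Pool.Agent.TFR21.Martin

/-!
# Module TFR21/Beta

PROOF. As in `Alpha`, with `works_frac`, `c = 511/512`, `past j = strs (sc (j + J))`,
`win j = win (sc (j + J))`,
`works (j+1) = {R | Works S F M A R (sc (j+J+1)) (level S.e F (S.orc A R) (sc (j+J)))}`,
`works 0 = univ`; `works_dep` with `l = sc (j + J + 2) ≥ Lw (sc (j+J+1))`, `growth`, `growth_ql`,
the level is at most `tw (sc (j+J)) = sc (j+J+1)` (`lev_upper`). In `frac` the level may be replaced
by the level for the unchanged `R` (`level_congr`, overlay on the window of the next scale).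
-/

set_option autoImplicit false

namespace Pool.Agent.TFR21

open Pool.Agent.PT Pool.Agent.TMB67 Pool.Agent.POpt70 Pool.Agent.ROr14
open N68a2faeb N793a5b8e N487b59b3 MeasureTheory

/-- The events for the martingale argument. -/
def worksEv (S : Acc) (A : List Bool → Bool)
    (F : (List Bool → Bool) → List Bool × List Bool → Bool) (M : Algorithm) (J : ℕ) :
    ℕ → Set (List Bool → Bool)
  | 0 => Set.univ
  | j + 1 => {R | Works S F M A R (sc (j + J + 1)) (level S.e F (S.orc A R) (sc (j + J)))}

/-- An algorithm that finally works almost surely works with high conditional probability. -/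
theorem beta (S : Acc) (A : List Bool → Bool)
    {F : (List Bool → Bool) → List Bool × List Bool → Bool} {pw : Polynomial ℕ}
    (hF : Search F pw) (M : Algorithm) : ∀ᵐ R ∂randomOracle,
      (∃ j0, ∀ j ≥ j0, Works S F M A R (sc (j + 1)) (level S.e F (S.orc A R) (sc j))) →
      ∃ j1, ∀ j ≥ j1, 511 / 512 ≤ frac (win (sc (j + 1)))
        {R' | Works S F M A R' (sc (j + 1)) (level S.e F (S.orc A R) (sc j))} R := by
  obtain ⟨PT, hloc⟩ := hF.exists_local
  obtain ⟨n1, hn1⟩ := growth M PT
  obtain ⟨n2, hn2⟩ := growth_ql PT
  set J := n1 + n2 with hJ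
  have hscJ : ∀ j, J ≤ sc (j + J) := fun j => le_trans (Nat.le_add_left _ _) (le_sc _)
  have hlevel : ∀ (X : List Bool → Bool) (j : ℕ), level S.e F X (sc j) ≤ sc (j + 1) := by
    intro X j
    exact (lev_upper (sc_pos j) (by positivity) rfl).1
  have hmono : StrictMono sc := sc_strictMono
  have hcongr : ∀ (j : ℕ) (R R' : List Bool → Bool),
      (∀ z : List Bool, z.length < sc (j + J) → R z = R' z) →
      level S.e F (S.orc A R) (sc (j + J)) = level S.e F (S.orc A R') (sc (j + J)) := by
    intro j R R' h
    have h1 := (hn2 (sc (j + J)) (le_trans (Nat.le_add_left _ _) (hscJ j))).1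
    exact level_congr hloc S A (by omega) h
  have hdep : ∀ j, Dep (strs (sc (j + 1 + J))) (worksEv S A F M J j) := by
    intro j
    cases j with
    | zero => exact fun _ _ _ _ => trivial
    | succ j =>
      intro R R' hRR hR
      have e1 : sc (j + 1 + 1 + J) = tw (sc (j + J + 1)) := by
        have : j + 1 + 1 + J = (j + J + 1) + 1 := by ring
        rw [this]
        rfl
      have hlt1 : sc (j + J) < sc (j + 1 + 1 + J) := hmono (by omega)
      have hL := hcongr j R R' (fun z hz => hRR z (by rw [mem_strs]; omega))
      have hn : J ≤ sc (j + J + 1) := le_trans (hscJ j) (hmono.monotone (by omega))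
      have hdw : Dep (strs (sc (j + 1 + 1 + J)))
          {R | Works S F M A R (sc (j + J + 1)) (level S.e F (S.orc A R') (sc (j + J)))} := by
        have hk := hlevel (S.orc A R') (j + J)
        have hLw : Lw (sc (j + J + 1)) ≤ sc (j + 1 + 1 + J) := by
          rw [e1]
          exact Lw_le_tw _
        refine works_dep hloc M S A hk ?_ ?_
        · have := (hn2 (sc (j + J + 1)) (by omega)).2
          omega
        · intro i hi
          have := (hn1 (sc (j + J + 1)) (by omega) i (by omega)).2.2
          omega
      have hR2 : R ∈ {R | Works S F M A R (sc (j + J + 1))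
          (level S.e F (S.orc A R') (sc (j + J)))} := by
        have h3 : Works S F M A R (sc (j + J + 1)) (level S.e F (S.orc A R) (sc (j + J))) := hR
        rw [hL] at h3
        exact h3
      exact hdw R R' hRR hR2
  have key := works_frac (fun j => strs (sc (j + J))) (fun j => win (sc (j + J)))
    (fun j => disjoint_strs_win _) (fun j => ?_) (worksEv S A F M J) hdep (511 / 512)
    (by norm_num)
  · filter_upwards [key] with R hR
    rintro ⟨j0, hj0⟩
    obtain ⟨j1, hj1⟩ := hR ⟨j0 + 1, fun j hj => by
      obtain ⟨j, rfl⟩ : ∃ i, j = i + 1 := ⟨j - 1, by omega⟩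
      exact hj0 (j + J) (by omega)⟩
    refine ⟨j1 + J, fun j hj => ?_⟩
    obtain ⟨i, rfl⟩ : ∃ i, j = i + J := ⟨j - J, by omega⟩
    have h2 := hj1 (i + 1) (by omega)
    have e2 : i + 1 + J = i + J + 1 := by ring
    simp only [e2] at h2
    refine le_trans h2 (frac_mono fun B hB hw => ?_)
    have hw' : Works S F M A (overlay (win (sc (i + J + 1))) B R) (sc (i + J + 1))
        (level S.e F (S.orc A (overlay (win (sc (i + J + 1))) B R)) (sc (i + J))) := hw
    have hL := hcongr i (overlay (win (sc (i + J + 1))) B R) R (fun z hz => by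
      unfold overlay
      rw [if_neg]
      rw [mem_win]
      have := hmono (Nat.lt_succ_self (i + J))
      rw [Nat.succ_eq_add_one] at this
      omega)
    rw [hL] at hw'
    exact hw'
  · have := union_subset (j + J)
    have e3 : j + 1 + J = j + J + 1 := by ring
    simp only [e3]
    exact this

end Pool.Agent.TFR21
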