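import Pool.Agent.TFR21.Params

/-!
# Module TFR21/Bounds

PROOFS. `x = 2^(-n*n)`. `del_le`: `1 - x ≤ exp (-x)`. `le_del`: `(1-x)^(1/x - 1) ≥ exp(-1)`, e.g.
from `1 - x = 1/(1 + x/(1-x)) ≥ exp (-x/(1-x))`, so `(1-x)^(k/x) ≥ exp(-k/(1-x)) ≥ exp(-k-1)` as
`k x/(1-x) ≤ 1` for `k ≤ n` (`2^(n*n) ≥ n + 1` for `n ≥ 1`; for `n = 0` also `k = 0`).
`lev_upper`: let `k = lev m t a`. If `LevOK m t a k`, `k ≤ m`: with `D = m + 1`,
`4^k ((D-1)/D)^(2kD) ≤ 512 a/t`, and `((D-1)/D)^D ≥ exp(-D/(D-1)) = exp(-1) exp(-1/m)`, so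
`((D-1)/D)^(2kD) ≥ exp(-2k) exp(-2)`; then
`4^k del^2 ≤ 4^k exp(-2k) ≤ exp 2 * 512 a/t ≤ 4096 a/t`. Otherwise `k = tw m` and
`4^k del^2 ≤ (4 exp(-2))^k`.
`lev_lower`: `((D-1)/D)^D ≤ exp(-1)`, so
`4^(k-1) ((D-1)/D)^(2(k-1)D) ≤ 4^(k-1) exp(-2(k-1)) = (exp 2/4) 4^k exp(-2k) ≤
(exp 4/4) 4^k del^2 ≤ 8 exp 4 * a/t ≤ 512 a/t`, which is `LevOK m t a (k-1)`; `Nat.find_min'`.
-/

set_option autoImplicit false

namespace Pool.Agent.TFR21

/-- The probability that a half-block of level `k` at scale `n` is empty. -/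
noncomputable def del (n k : ℕ) : ℝ := (1 - 1 / 2 ^ (n * n)) ^ (k * 2 ^ (n * n))

theorem del_base_pos (n : ℕ) : 0 ≤ (1 - 1 / 2 ^ (n * n) : ℝ) := by
  have h : (1 : ℝ) ≤ 2 ^ (n * n) := one_le_pow₀ (by norm_num)
  have h2 : (1 : ℝ) / 2 ^ (n * n) ≤ 1 := by
    rw [div_le_one (by positivity)]
    exact h
  linarith

theorem del_nonneg (n k : ℕ) : 0 ≤ del n k := pow_nonneg (del_base_pos n) _

theorem del_le (n k : ℕ) : del n k ≤ Real.exp (-(k : ℝ)) := by
  unfold del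
  have h1 : (1 - 1 / 2 ^ (n * n) : ℝ) ≤ Real.exp (-(1 / 2 ^ (n * n))) := by
    have := Real.add_one_le_exp (-(1 / 2 ^ (n * n) : ℝ))
    linarith
  calc (1 - 1 / 2 ^ (n * n) : ℝ) ^ (k * 2 ^ (n * n))
      ≤ Real.exp (-(1 / 2 ^ (n * n))) ^ (k * 2 ^ (n * n)) :=
        pow_le_pow_left₀ (del_base_pos n) h1 _
    _ = Real.exp (-(k : ℝ)) := by
        rw [← Real.exp_nat_mul]
        congr 1
        push_cast
        field_simp

theorem le_del {n k : ℕ} (hk : k ≤ n) : Real.exp (-(k : ℝ) - 1) ≤ del n k := by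
  rcases Nat.eq_zero_or_pos n with rfl | hn
  · obtain rfl : k = 0 := by omega
    unfold del
    simp
  · unfold del
    have hN : n + 1 ≤ 2 ^ (n * n) := by
      calc n + 1 ≤ 2 ^ n := Nat.lt_two_pow_self
        _ ≤ 2 ^ (n * n) := Nat.pow_le_pow_right (by norm_num) (Nat.le_mul_of_pos_left n hn)
    have hN' : (n : ℝ) + 1 ≤ 2 ^ (n * n) := by exact_mod_cast hN
    set N : ℝ := 2 ^ (n * n) with hNdef
    have hn1 : (1 : ℝ) ≤ n := by exact_mod_cast hn
    have hkn : (k : ℝ) ≤ n := by exact_mod_cast hk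
    have hN1 : 0 < N - 1 := by linarith
    have hNpos : 0 < N := by linarith
    have h1 : Real.exp (-(1 / (N - 1))) ≤ 1 - 1 / N := by
      have h2 := Real.add_one_le_exp (1 / (N - 1))
      have h3 : 1 / (N - 1) + 1 = N / (N - 1) := by
        field_simp
        ring
      rw [h3] at h2
      have h4 : 1 - 1 / N = (N / (N - 1))⁻¹ := by
        field_simp
      rw [h4, Real.exp_neg]
      exact inv_anti₀ (by positivity) h2
    calc Real.exp (-(k : ℝ) - 1)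
        ≤ Real.exp (((k * 2 ^ (n * n) : ℕ) : ℝ) * (-(1 / (N - 1)))) := by
          apply Real.exp_le_exp.2
          push_cast
          rw [← hNdef]
          have h5 : (k : ℝ) * N * (-(1 / (N - 1))) = -k - k / (N - 1) := by
            field_simp
            ring
          rw [h5]
          have h6 : (k : ℝ) / (N - 1) ≤ 1 := by
            rw [div_le_one hN1]
            linarith
          linarith
      _ = Real.exp (-(1 / (N - 1))) ^ (k * 2 ^ (n * n)) := by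
          rw [← Real.exp_nat_mul]
      _ ≤ (1 - 1 / N) ^ (k * 2 ^ (n * n)) :=
          pow_le_pow_left₀ (Real.exp_pos _).le h1 _

theorem four_exp_le : 4 * Real.exp (-2) ≤ 1 := by
  have h1 := Real.exp_one_gt_d9
  have h2 : Real.exp (-2) = (Real.exp 1 ^ 2)⁻¹ := by
    rw [← Real.exp_nat_mul, ← Real.exp_neg]
    norm_num
  rw [h2, ← div_eq_mul_inv, div_le_one (by positivity)]
  nlinarith

/-- The numerical hypotheses of the key inequality. -/
theorem del_bounds {n k : ℕ} (h1 : 1 ≤ k) (hk : k ≤ n) :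
    del n k ≤ 3 / 8 ∧ 1 ≤ 2 * (4 : ℝ) ^ k * del n k ∧ (4 : ℝ) ^ k * del n k ^ 2 ≤ 1 := by
  have he1 := Real.exp_one_gt_d9
  have he2 := Real.exp_one_lt_d9
  have hk1 : (1 : ℝ) ≤ k := by exact_mod_cast h1
  refine ⟨?_, ?_, ?_⟩
  · calc del n k ≤ Real.exp (-(k : ℝ)) := del_le n k
      _ ≤ Real.exp (-1) := Real.exp_le_exp.2 (by linarith)
      _ ≤ 3 / 8 := by
        rw [Real.exp_neg]
        rw [inv_le_comm₀ (by positivity) (by norm_num)]
        linarith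
  · have h2 := le_del hk
    have h3 : Real.exp (-(k : ℝ) - 1) = (Real.exp 1)⁻¹ * ((Real.exp 1)⁻¹) ^ k := by
      rw [← Real.exp_neg, ← Real.exp_nat_mul, ← Real.exp_add]
      congr 1
      ring
    have h4 : (1 : ℝ) ≤ 2 * (4 : ℝ) ^ k * ((Real.exp 1)⁻¹ * ((Real.exp 1)⁻¹) ^ k) := by
      have h5 : 2 * (4 : ℝ) ^ k * ((Real.exp 1)⁻¹ * ((Real.exp 1)⁻¹) ^ k) =
          2 * (Real.exp 1)⁻¹ * (4 * (Real.exp 1)⁻¹) ^ k := by
        rw [mul_pow]
        ring
      rw [h5]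
      have h6 : (1 : ℝ) ≤ 4 * (Real.exp 1)⁻¹ := by
        rw [← div_eq_mul_inv, one_le_div (by positivity)]
        linarith
      have h7 : 4 * (Real.exp 1)⁻¹ ≤ (4 * (Real.exp 1)⁻¹) ^ k :=
        le_self_pow₀ h6 (by omega)
      have h8 : (1 : ℝ) ≤ 2 * (Real.exp 1)⁻¹ * (4 * (Real.exp 1)⁻¹) := by
        have h9 : 2 * (Real.exp 1)⁻¹ * (4 * (Real.exp 1)⁻¹) = 8 / (Real.exp 1) ^ 2 := by
          field_simp
          norm_num
        rw [h9, one_le_div (by positivity)]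
        nlinarith
      calc (1 : ℝ) ≤ 2 * (Real.exp 1)⁻¹ * (4 * (Real.exp 1)⁻¹) := h8
        _ ≤ 2 * (Real.exp 1)⁻¹ * (4 * (Real.exp 1)⁻¹) ^ k := by gcongr
    calc (1 : ℝ) ≤ 2 * (4 : ℝ) ^ k * ((Real.exp 1)⁻¹ * ((Real.exp 1)⁻¹) ^ k) := h4
      _ ≤ 2 * (4 : ℝ) ^ k * del n k := by
        rw [← h3]
        gcongr
  · calc (4 : ℝ) ^ k * del n k ^ 2 ≤ (4 : ℝ) ^ k * Real.exp (-(k : ℝ)) ^ 2 := by
          have := del_le n k
          have h0 := del_nonneg n k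
          gcongr
      _ = (4 * Real.exp (-2)) ^ k := by
          rw [mul_pow, ← Real.exp_nat_mul, ← Real.exp_nat_mul]
          congr 2
          push_cast
          ring
      _ ≤ 1 := pow_le_one₀ (by positivity) four_exp_le

theorem le_tw (m : ℕ) : m ≤ tw m := by
  unfold tw
  have h : ∀ a : ℕ, a ≤ 2 ^ a := fun a => (Nat.lt_two_pow_self).le
  calc m ≤ 2 ^ m := h _
    _ ≤ 2 ^ 2 ^ m := h _
    _ ≤ 2 ^ 2 ^ 2 ^ m := h _
    _ ≤ 2 ^ 2 ^ 2 ^ 2 ^ m := h _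
    _ ≤ 2 ^ 2 ^ 2 ^ 2 ^ 2 ^ m := h _

theorem four_del_le (n k : ℕ) : (4 : ℝ) ^ k * del n k ^ 2 ≤ (4 * Real.exp (-2)) ^ k := by
  calc (4 : ℝ) ^ k * del n k ^ 2 ≤ (4 : ℝ) ^ k * Real.exp (-(k : ℝ)) ^ 2 := by
          have := del_le n k
          have h0 := del_nonneg n k
          gcongr
      _ = (4 * Real.exp (-2)) ^ k := by
          rw [mul_pow, ← Real.exp_nat_mul, ← Real.exp_nat_mul]
          congr 2
          push_cast
          ring

theorem exp_two_lt : Real.exp 2 < 8 := by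
  have he2 := Real.exp_one_lt_d9
  have he0 := Real.exp_pos 1
  have h : Real.exp 2 = Real.exp 1 ^ 2 := by
    rw [← Real.exp_nat_mul]
    norm_num
  rw [h]
  nlinarith

theorem exp_four_lt : Real.exp 4 < 64 := by
  have h : Real.exp 4 = Real.exp 2 ^ 2 := by
    rw [← Real.exp_nat_mul]
    norm_num
  have h2 := exp_two_lt
  have h3 := Real.exp_pos 2
  rw [h]
  nlinarith

theorem levOK_iff {m t a k : ℕ} (ht : 0 < t) : LevOK m t a k ↔
    (4 : ℝ) ^ k * ((m : ℝ) / (m + 1)) ^ (2 * k * (m + 1)) ≤ 512 * ((a : ℝ) / t) := by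
  unfold LevOK
  have ht' : (0 : ℝ) < t := by exact_mod_cast ht
  have hm : (0 : ℝ) < (m : ℝ) + 1 := by positivity
  rw [div_pow, ← mul_div_assoc, ← mul_div_assoc, div_le_div_iff₀ (by positivity) ht']
  have h : (4 ^ k * m ^ (2 * k * (m + 1)) * t ≤ 512 * a * (m + 1) ^ (2 * k * (m + 1))) ↔
      (((4 ^ k * m ^ (2 * k * (m + 1)) * t : ℕ) : ℝ) ≤
        ((512 * a * (m + 1) ^ (2 * k * (m + 1)) : ℕ) : ℝ)) := Nat.cast_le.symm
  rw [h]
  push_cast
  rfl

theorem lev_upper {m t a : ℕ} (hm : 1 ≤ m) (ht : 0 < t) {k : ℕ} (hk : k = lev m t a) :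
    k ≤ tw m ∧ 4 ^ k * del (tw m) k ^ 2 ≤ 4096 * ((a : ℝ) / t) + (4 * Real.exp (-2)) ^ tw m := by
  unfold lev at hk
  have hm1 : (1 : ℝ) ≤ m := by exact_mod_cast hm
  have hnn : (0 : ℝ) ≤ (a : ℝ) / t := by positivity
  split_ifs at hk with h
  · obtain ⟨hkm, hOK⟩ := Nat.find_spec h
    rw [← hk] at hkm hOK
    refine ⟨hkm.trans (le_tw m), ?_⟩
    rw [levOK_iff ht] at hOK
    have hkm' : (k : ℝ) ≤ m := by exact_mod_cast hkm
    have h1 : Real.exp (-(1 / (m : ℝ))) ≤ (m : ℝ) / (m + 1) := by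
      have h2 := Real.add_one_le_exp (1 / (m : ℝ))
      have h3 : 1 / (m : ℝ) + 1 = (m + 1) / m := by
        field_simp
        ring
      rw [h3] at h2
      have h4 : (m : ℝ) / (m + 1) = (((m : ℝ) + 1) / m)⁻¹ := by
        rw [inv_div]
      rw [h4, Real.exp_neg]
      exact inv_anti₀ (by positivity) h2
    have h5 : Real.exp (-2 * k - 2) ≤ ((m : ℝ) / (m + 1)) ^ (2 * k * (m + 1)) := by
      calc Real.exp (-2 * k - 2)
          ≤ Real.exp (((2 * k * (m + 1) : ℕ) : ℝ) * (-(1 / (m : ℝ)))) := by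
            apply Real.exp_le_exp.2
            push_cast
            have h6 : (2 * (k : ℝ) * (m + 1)) * (-(1 / (m : ℝ))) = -2 * k - 2 * (k / m) := by
              field_simp
              ring
            rw [h6]
            have h7 : (k : ℝ) / m ≤ 1 := by
              rw [div_le_one (by linarith)]
              exact hkm'
            linarith
        _ = Real.exp (-(1 / (m : ℝ))) ^ (2 * k * (m + 1)) := by
            rw [← Real.exp_nat_mul]
        _ ≤ _ := pow_le_pow_left₀ (Real.exp_pos _).le h1 _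
    have h8 : (4 : ℝ) ^ k * Real.exp (-2 * k - 2) ≤ 512 * ((a : ℝ) / t) := by
      refine le_trans ?_ hOK
      gcongr
    have h9 : (4 : ℝ) ^ k * Real.exp (-2 * k - 2) = (4 * Real.exp (-2)) ^ k / Real.exp 2 := by
      rw [mul_pow, ← Real.exp_nat_mul, mul_div_assoc, ← Real.exp_sub]
      congr 2
      ring
    rw [h9, div_le_iff₀ (Real.exp_pos 2)] at h8
    have h10 := four_del_le (tw m) k
    have h11 : 512 * ((a : ℝ) / t) * Real.exp 2 ≤ 4096 * ((a : ℝ) / t) := by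
      have := exp_two_lt
      nlinarith
    have h12 : (0 : ℝ) ≤ (4 * Real.exp (-2)) ^ tw m := by positivity
    linarith
  · refine ⟨hk.le, ?_⟩
    have h10 := four_del_le (tw m) k
    rw [hk] at h10 ⊢
    linarith

theorem lev_lower {m t a k : ℕ} (hm : 1 ≤ m) (ht : 0 < t) (h1 : 1 ≤ k) (hk : k ≤ m)
    (h : 4 ^ k * del m k ^ 2 / 32 ≤ (a : ℝ) / t) : lev m t a ≤ k - 1 := by
  have hOK : LevOK m t a (k - 1) := by
    rw [levOK_iff ht]
    obtain ⟨j, rfl⟩ : ∃ j, k = j + 1 := ⟨k - 1, by omega⟩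
    rw [Nat.add_sub_cancel]
    have hm1 : (1 : ℝ) ≤ m := by exact_mod_cast hm
    have h2 : (m : ℝ) / (m + 1) ≤ Real.exp (-(1 / ((m : ℝ) + 1))) := by
      have h3 := Real.add_one_le_exp (-(1 / ((m : ℝ) + 1)))
      have h4 : (m : ℝ) / (m + 1) = -(1 / ((m : ℝ) + 1)) + 1 := by
        field_simp
        ring
      rw [h4]
      exact h3
    have h5 : ((m : ℝ) / (m + 1)) ^ (2 * j * (m + 1)) ≤ Real.exp (-2) ^ j := by
      calc ((m : ℝ) / (m + 1)) ^ (2 * j * (m + 1))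
          ≤ Real.exp (-(1 / ((m : ℝ) + 1))) ^ (2 * j * (m + 1)) :=
            pow_le_pow_left₀ (by positivity) h2 _
        _ = Real.exp (-2) ^ j := by
            rw [← Real.exp_nat_mul, ← Real.exp_nat_mul]
            congr 1
            push_cast
            field_simp
    have h6 := le_del hk
    have h7 : Real.exp (-2) ^ j ≤ Real.exp 4 * del m (j + 1) ^ 2 := by
      have h8 : Real.exp (-((j + 1 : ℕ) : ℝ) - 1) ^ 2 ≤ del m (j + 1) ^ 2 := by
        gcongr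
      have h9 : Real.exp (-2) ^ j = Real.exp 4 * Real.exp (-((j + 1 : ℕ) : ℝ) - 1) ^ 2 := by
        rw [← Real.exp_nat_mul, ← Real.exp_nat_mul, ← Real.exp_add]
        congr 1
        push_cast
        ring
      rw [h9]
      gcongr
    have h10 := exp_four_lt
    have h0 := del_nonneg m (j + 1)
    calc (4 : ℝ) ^ j * ((m : ℝ) / (m + 1)) ^ (2 * j * (m + 1))
        ≤ (4 : ℝ) ^ j * (Real.exp 4 * del m (j + 1) ^ 2) := by
          gcongr
          exact h5.trans h7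
      _ = 8 * Real.exp 4 * ((4 : ℝ) ^ (j + 1) * del m (j + 1) ^ 2 / 32) := by
          rw [pow_succ]
          ring
      _ ≤ 8 * 64 * ((4 : ℝ) ^ (j + 1) * del m (j + 1) ^ 2 / 32) := by
          gcongr
      _ ≤ 8 * 64 * ((a : ℝ) / t) := by gcongr
      _ = 512 * ((a : ℝ) / t) := by ring
  have hex : ∃ k, k ≤ m ∧ LevOK m t a k := ⟨k - 1, by omega, hOK⟩
  unfold lev
  rw [dif_pos hex]
  exact Nat.find_min' hex ⟨by omega, hOK⟩

end Pool.Agent.TFR21
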