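import Pool.Agent.TFR21.Params

/-!
# Module TFR21/Loc

PROOF of `Search.exists_local`. Take `p, q, g` from `hF.ut : UT F` and `F X (π,w) = g ((π,w), answers X q
(π,w) (p.eval (sz (π,w))))`. If `F X (π, w) = true` then `w.length ≤ pw.eval π.length`, so
`sz (π, w)` is at most a polynomial in `π.length` (`sz_prod`, `sz_listBool`). Let `T` be the set of
the questions `q ((π,w), answers X q (π,w) j)`, `j < p.eval (sz (π,w))`. Its cardinality is at most
`p.eval (sz (π,w))`, the lengths are polynomially bounded (`hq.pbdd`, `sz_answers_le`, and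
`x.length ≤ sz x`), and an oracle `X'` that agrees with `X` on `T` gives the same answers (induction
on `j`). Dominate the finitely many bounds by one polynomial (sum).
-/

set_option autoImplicit false

namespace Pool.Agent.TFR21

open Pool.Agent.PT Pool.Agent.TMB67 Pool.Agent.POpt70 Pool.Agent.ROr14
open N68a2faeb N793a5b8e N487b59b3 MeasureTheory

/-- Solutions have small certificates in the oracle. -/
def Local (F : (List Bool → Bool) → List Bool × List Bool → Bool) (PT : Polynomial ℕ) : Prop :=
  ∀ (X : List Bool → Bool) (π w : List Bool), F X (π, w) = true →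
    ∃ T : Finset (List Bool), T.card ≤ PT.eval π.length ∧ (∀ y ∈ T, y.length ≤ PT.eval π.length) ∧
      ∀ X' : List Bool → Bool, (∀ y ∈ T, X' y = X y) → F X' (π, w) = true

theorem Search.exists_local {F : (List Bool → Bool) → List Bool × List Bool → Bool} {pw : Polynomial ℕ}
    (hF : Search F pw) : ∃ PT : Polynomial ℕ, Local F PT := by
  obtain ⟨p, q, g, hq, _, hF'⟩ := hF.ut
  obtain ⟨r, hr⟩ := hq.pbdd
  set S : Polynomial ℕ := 4 * Polynomial.X + 4 * pw + 3 with hS
  refine ⟨p.comp S + r.comp (S + 4 * p.comp S + 2), fun X π w hw => ?_⟩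
  have hlen := hF.short X π w hw
  have hsz : sz (π, w) ≤ S.eval π.length := by
    have h1 := sz_listBool π
    have h2 := sz_listBool w
    rw [sz_prod, hS]
    simp only [Polynomial.eval_add, Polynomial.eval_X, Polynomial.eval_mul, Polynomial.eval_ofNat]
    omega
  set m : ℕ := p.eval (sz (π, w)) with hm
  have hmS : m ≤ (p.comp S).eval π.length := by
    rw [Polynomial.eval_comp]
    exact eval_mono p hsz
  refine ⟨(Finset.range m).image (fun j => q ((π, w), answers X q (π, w) j)), ?_, ?_, ?_⟩
  · refine Finset.card_image_le.trans ?_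
    rw [Finset.card_range, Polynomial.eval_add]
    omega
  · intro y hy
    obtain ⟨j, hj, rfl⟩ := Finset.mem_image.1 hy
    rw [Finset.mem_range] at hj
    have h1 := (length_le_sz _).trans (hr ((π, w), answers X q (π, w) j))
    have h2 : sz ((π, w), answers X q (π, w) j) ≤ (S + 4 * p.comp S + 2).eval π.length := by
      have h3 := sz_answers_le X q (π, w) j
      rw [sz_prod]
      simp only [Polynomial.eval_add, Polynomial.eval_mul, Polynomial.eval_ofNat]
      have h4 : (4 : ℕ) * j ≤ 4 * (p.comp S).eval π.length := by omega
      show sz (π, w) + sz (answers X q (π, w) j) + 1 ≤ _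
      omega
    have h3 := eval_mono r h2
    rw [Polynomial.eval_add, Polynomial.eval_comp (p := r)]
    omega
  · intro X' hX'
    have hans : ∀ j ≤ m, answers X' q (π, w) j = answers X q (π, w) j := by
      intro j
      induction j with
      | zero => intro _; rfl
      | succ j ih =>
        intro hj
        rw [answers, answers, ih (by omega)]
        congr 2
        exact hX' _ (Finset.mem_image.2 ⟨j, Finset.mem_range.2 (by omega), rfl⟩)
    rw [hF' X' (π, w) m le_rfl, hans m le_rfl, ← hF' X (π, w) m le_rfl]
    exact hw

end Pool.Agent.TFR21
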