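import Pool.Agent.TFR21.Params

/-!
# Module TFR21/Table

PROOF of `UT.table`. Take `p, q, g` with `F X x = g (x, answers X q x m)` for `m ≥ p.eval (sz x)`.
The function `(T, x) ↦ answers (look T) q x (p.eval (sz x))` is the iterate of
`(T, x, a) ↦ (T, x, a ++ [decide (q (x, a) ∈ T)])`, `p.eval (sz x)` times, started at `(T, x, [])`;
use `PolyTime.iterate` (or `PolyTime.iterate'`), `PolyTime.decide_mem`, `polyEval_polyTime`; the
sizes are bounded since the third component has length `≤ p.eval (sz x)`.
-/

set_option autoImplicit false

namespace Pool.Agent.TFR21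

open Pool.Agent.PT Pool.Agent.TMB67 Pool.Agent.POpt70 Pool.Agent.ROr14
open N68a2faeb N793a5b8e N487b59b3 MeasureTheory

/-- The oracle given by a table. -/
def look (T : List (List Bool)) : List Bool → Bool := fun z => decide (z ∈ T)

theorem answers_iterate (X : List Bool → Bool) {α : Type} (q : α × List Bool → List Bool) (x : α)
    (m : ℕ) : (fun a => a ++ [X (q (x, a))])^[m] [] = answers X q x m := by
  induction m with
  | zero => rfl
  | succ m ih => rw [Function.iterate_succ_apply', ih, answers]

/-- Uniform polynomial-time functions with the oracle given by a table. -/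
theorem UT.table {α β : Type} [Enc α] [Enc β] {F : (List Bool → Bool) → α → β} (hF : UT F) :
    PolyTime (fun z : List (List Bool) × α => F (look z.1) z.2) := by
  obtain ⟨p, q, g, hq, hg, hF⟩ := hF
  have hn : PolyTime (fun z : List (List Bool) × α => p.eval (sz z.2)) :=
    polyEval_polyTime (PolyTime.size PolyTime.snd') p
  have hstep : PolyTime (fun w : (List (List Bool) × α) × List Bool =>
      w.2 ++ [look w.1.1 (q (w.1.2, w.2))]) := by
    refine PolyTime.append PolyTime.snd' (PolyTime.cons ?_ (PolyTime.const []))
    refine (PolyTime.decide_mem (hq.comp (PolyTime.pair (PolyTime.snd PolyTime.fst')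
      PolyTime.snd')) (PolyTime.fst PolyTime.fst')).congr fun w => ?_
    unfold look
    exact decide_eq_decide.mpr Iff.rfl
  have hans : PolyTime (fun z : List (List Bool) × α =>
      answers (look z.1) q z.2 (p.eval (sz z.2))) := by
    refine (PolyTime.iterate'
      (f := fun (z : List (List Bool) × α) (a : List Bool) => a ++ [look z.1 (q (z.2, a))])
      (n := fun z => p.eval (sz z.2)) (g := fun _ => [])
      (s := fun z => 4 * p.eval (sz z.2) + 1) hstep hn (PolyTime.const []) ?_ ?_).congr ?_
    · exact ((PBdd.const 4).mul
        ((PolyTime.snd' (α := List (List Bool)) (β := α)).pbdd.eval p)).add (PBdd.const 1)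
    · intro z i hi
      rw [answers_iterate]
      have := sz_answers_le (look z.1) q z.2 i
      omega
    · intro z
      exact (answers_iterate _ _ _ _).symm
  refine (hg.comp (PolyTime.pair PolyTime.snd' hans)).congr fun z => ?_
  exact hF _ _ _ le_rfl

end Pool.Agent.TFR21
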