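import Pool.Agent.TFR21.Lists
import Pool.Agent.TFR21.Table
import Pool.Agent.TFR21.Loc
import Pool.Agent.TFR21.Growth

/-!
# Module TFR21/Count

PROOF. Input `z = (N, m, T)`. `a = ql m`, `b = pw.eval a + 1`, capped so that everything is
polynomial in `N`: use `cp` (`POpt70/Tools`: `cp N k = 2 ^ k` if `2 ^ k ≤ N`).
`winL` = `(strsC N (Lw m)).filter (m ≤ ·.length)`; for `B` in `subsC N winL` test whether
`(strsC N (a + 1)).all fun π => (strsC N b).any fun w => F (look (T ++ B.map e)) (π, w)`;
`G z` = the number of the `B` that fail. Polynomial time: `UT.table`, `PolyTime.all`,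
`PolyTime.any`, `PolyTime.filter`, `PolyTime.map`, `PolyTime.length`.
Correctness for `N = tw m`, `m` large: no cap is reached (`2 ^ Lw m`, `2 ^ 2 ^ Lw m`,
`2 ^ (pw.eval (ql m) + 1)` are `≤ tw m`); `look (T ++ B.map e)` agrees with
`ovX e (win m) B X` on all strings of length `< Lw m`: for `y ∉ (win m).image e` by the hypothesis
on `T`, for `y = e z`, `z ∈ win m`: `y ∉ T` by hypothesis if `y.length < Lw m`, and `y ∈ B.map e ↔
z ∈ B`. By `Search.exists_local` (`PT (ql m) < Lw m` by `growth_ql`) `Tot` for the two oracles is the same,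
and `F X (π, w) = true` implies `w.length ≤ pw.eval π.length ≤ pw.eval (ql m)`.
`count_sublists` for the number.
-/

set_option autoImplicit false

namespace Pool.Agent.TFR21

open Pool.Agent.PT Pool.Agent.TMB67 Pool.Agent.POpt70 Pool.Agent.ROr14
open N68a2faeb N793a5b8e N487b59b3 MeasureTheory

theorem card_strs_le (l : ℕ) : (strs l).card ≤ 2 ^ l := by
  unfold strs
  refine Finset.card_biUnion_le.trans ?_
  have h1 : ∀ i ∈ Finset.range l, ((Finset.univ : Finset (List.Vector Bool i)).image
      (·.1)).card ≤ 2 ^ i := by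
    intro i _
    refine Finset.card_image_le.trans ?_
    rw [Finset.card_univ, card_vector, Fintype.card_bool]
  refine (Finset.sum_le_sum h1).trans ?_
  have h2 : ∑ i ∈ Finset.range l, 2 ^ i + 1 = 2 ^ l := by
    induction l with
    | zero => simp
    | succ l ih =>
      have := ih (fun i hi => h1 i (by simp only [Finset.mem_range] at hi ⊢; omega))
      rw [Finset.sum_range_succ, pow_succ]
      omega
  omega

/-- The window as a list. -/
def winL (N m : ℕ) : List (List Bool) :=
  (strsC N (cp2 N m)).filter fun z => decide (m ≤ z.length)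

/-- The test for totality. -/
def testB (e : List Bool → List Bool) (F : (List Bool → Bool) → List Bool × List Bool → Bool)
    (pw : Polynomial ℕ) (N m : ℕ) (T B : List (List Bool)) : Bool :=
  (strsC N (cp N (m * m) + 1)).all fun π =>
    (strsC N (pw.eval (cp N (m * m)) + 1)).any fun w => F (look (T ++ B.map e)) (π, w)

/-- The count. -/
def cnt (e : List Bool → List Bool) (F : (List Bool → Bool) → List Bool × List Bool → Bool)
    (pw : Polynomial ℕ) (z : ℕ × ℕ × List (List Bool)) : ℕ :=
  ((subsC z.1 (winL z.1 z.2.1)).filter fun B => !testB e F pw z.1 z.2.1 z.2.2 B).length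

theorem winL_polyTime {α : Type} [Enc α] {f g : α → ℕ} (hf : PolyTime f) (hg : PolyTime g) :
    PolyTime (fun x => winL (f x) (g x)) := by
  unfold winL
  refine PolyTime.filter (l := fun x => strsC (f x) (cp2 (f x) (g x)))
    (g := fun x z => decide (g x ≤ z.length)) ?_ ?_
  · exact strsC_polyTime.comp (f := fun x => (f x, cp2 (f x) (g x)))
      (hf.pair (cp2_polyTime hf hg))
  · exact PolyTime.decide_le (hg.comp PolyTime.fst') (PolyTime.length PolyTime.snd')

theorem testB_polyTime {e : List Bool → List Bool} (he : PolyTime e)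
    {F : (List Bool → Bool) → List Bool × List Bool → Bool} (hF : UT F) (pw : Polynomial ℕ) :
    PolyTime (fun z : (ℕ × ℕ × List (List Bool)) × List (List Bool) =>
      testB e F pw z.1.1 z.1.2.1 z.1.2.2 z.2) := by
  unfold testB
  have hN : PolyTime (fun z : (ℕ × ℕ × List (List Bool)) × List (List Bool) => z.1.1) := by
    fun_prop
  have hm : PolyTime (fun z : (ℕ × ℕ × List (List Bool)) × List (List Bool) => z.1.2.1) := by
    fun_prop
  have hq : PolyTime (fun z : (ℕ × ℕ × List (List Bool)) × List (List Bool) =>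
      cp z.1.1 (z.1.2.1 * z.1.2.1)) := cp_polyTime hN (hm.natMul hm)
  have hl1 : PolyTime (fun z : (ℕ × ℕ × List (List Bool)) × List (List Bool) =>
      strsC z.1.1 (cp z.1.1 (z.1.2.1 * z.1.2.1) + 1)) :=
    strsC_polyTime.comp (f := fun z : (ℕ × ℕ × List (List Bool)) × List (List Bool) =>
      (z.1.1, cp z.1.1 (z.1.2.1 * z.1.2.1) + 1)) (hN.pair hq.succ)
  have hl2 : PolyTime (fun z : (ℕ × ℕ × List (List Bool)) × List (List Bool) =>
      strsC z.1.1 (pw.eval (cp z.1.1 (z.1.2.1 * z.1.2.1)) + 1)) :=
    strsC_polyTime.comp (f := fun z : (ℕ × ℕ × List (List Bool)) × List (List Bool) =>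
      (z.1.1, pw.eval (cp z.1.1 (z.1.2.1 * z.1.2.1)) + 1))
      (hN.pair (polyEval_polyTime hq pw).succ)
  refine PolyTime.all (g := fun z π => (strsC z.1.1 (pw.eval (cp z.1.1 (z.1.2.1 * z.1.2.1)) +
    1)).any fun w => F (look (z.1.2.2 ++ z.2.map e)) (π, w)) hl1 ?_
  refine PolyTime.any (l := fun y : ((ℕ × ℕ × List (List Bool)) × List (List Bool)) × List Bool =>
    strsC y.1.1.1 (pw.eval (cp y.1.1.1 (y.1.1.2.1 * y.1.1.2.1)) + 1))
    (g := fun y w => F (look (y.1.1.2.2 ++ y.1.2.map e)) (y.2, w)) (hl2.comp PolyTime.fst') ?_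
  have hmap : PolyTime (fun y : (((ℕ × ℕ × List (List Bool)) × List (List Bool)) × List Bool) ×
      List Bool => y.1.1.2.map e) :=
    PolyTime.map (l := fun y : (((ℕ × ℕ × List (List Bool)) × List (List Bool)) × List Bool) ×
      List Bool => y.1.1.2) (g := fun _ z => e z) (by fun_prop) (he.comp PolyTime.snd')
  refine (UT.table hF).comp (f := fun y : (((ℕ × ℕ × List (List Bool)) × List (List Bool)) ×
    List Bool) × List Bool => (y.1.1.1.2.2 ++ y.1.1.2.map e, (y.1.2, y.2))) ?_
  exact PolyTime.pair (PolyTime.append (by fun_prop) hmap) (by fun_prop)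

theorem cnt_polyTime {e : List Bool → List Bool} (he : PolyTime e)
    {F : (List Bool → Bool) → List Bool × List Bool → Bool} (hF : UT F) (pw : Polynomial ℕ) :
    PolyTime (cnt e F pw) := by
  unfold cnt
  refine PolyTime.length (PolyTime.filter (l := fun z : ℕ × ℕ × List (List Bool) =>
    subsC z.1 (winL z.1 z.2.1)) (g := fun z B => !testB e F pw z.1 z.2.1 z.2.2 B) ?_ ?_)
  · exact subsC_polyTime.comp (f := fun z : ℕ × ℕ × List (List Bool) => (z.1, winL z.1 z.2.1))
      (PolyTime.fst'.pair (winL_polyTime PolyTime.fst' (PolyTime.fst PolyTime.snd')))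
  · exact (testB_polyTime he hF pw).not

theorem pow_Lw_le_tw (m : ℕ) : 2 ^ 2 ^ Lw m ≤ tw m := by
  unfold tw Lw
  exact Nat.pow_le_pow_right (by norm_num) (Nat.pow_le_pow_right (by norm_num)
    (Nat.pow_le_pow_right (by norm_num) (Nat.lt_two_pow_self.le)))

theorem two_pow_Lw_le_tw (m : ℕ) : 2 ^ Lw m ≤ tw m :=
  le_trans (Nat.pow_le_pow_right (by norm_num) (Nat.lt_two_pow_self.le)) (pow_Lw_le_tw m)

theorem cp2_tw (m : ℕ) : cp2 (tw m) m = Lw m := by
  unfold Lw
  refine cp2_eq ?_
  have := Lw_le_tw m
  unfold Lw at this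
  exact this

theorem winL_nodup (m : ℕ) : (winL (tw m) m).Nodup := by
  unfold winL
  rw [cp2_tw]
  exact (strsC_nodup (two_pow_Lw_le_tw m)).filter _

theorem mem_winL {m : ℕ} {z : List Bool} : z ∈ winL (tw m) m ↔ z ∈ win m := by
  unfold winL
  rw [cp2_tw, List.mem_filter, mem_strsC (two_pow_Lw_le_tw m), mem_win, decide_eq_true_iff]
  exact and_comm

theorem winL_toFinset (m : ℕ) : (winL (tw m) m).toFinset = win m := by
  ext z
  rw [List.mem_toFinset, mem_winL]

theorem winL_length (m : ℕ) : (winL (tw m) m).length = (win m).card := by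
  rw [← winL_toFinset, List.toFinset_card_of_nodup (winL_nodup m)]

theorem win_card_le (m : ℕ) : (win m).card ≤ 2 ^ Lw m := by
  refine le_trans (Finset.card_le_card ?_) (card_strs_le (Lw m))
  unfold win
  exact Finset.sdiff_subset

theorem two_pow_winL_le (m : ℕ) : 2 ^ (winL (tw m) m).length ≤ tw m := by
  rw [winL_length]
  exact le_trans (Nat.pow_le_pow_right (by norm_num) (win_card_le m)) (pow_Lw_le_tw m)

/-- The number of non-total changes of the window, computed from a table. -/
theorem exists_count {e : List Bool → List Bool} (he : PolyTime e) (hinj : Function.Injective e)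
    {F : (List Bool → Bool) → List Bool × List Bool → Bool} {pw : Polynomial ℕ}
    (hF : Search F pw) : ∃ (G : ℕ × ℕ × List (List Bool) → ℕ) (m0 : ℕ), PolyTime G ∧
      ∀ m ≥ m0, ∀ (X : List Bool → Bool) (T : List (List Bool)),
        (∀ y : List Bool, y.length < Lw m → (y ∈ T ↔ X y = true ∧ y ∉ (win m).image e)) →
        G (tw m, m, T) = nontot e F X m := by
  classical
  obtain ⟨PT, hloc⟩ := hF.exists_local
  obtain ⟨n1, hn1⟩ := growth_ql PT
  obtain ⟨n2, hn2⟩ := growth_ql pw
  refine ⟨cnt e F pw, n1 + n2, cnt_polyTime he hF.ut pw, fun m hm X T hT => ?_⟩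
  have hPT := (hn1 m (by omega)).1
  have hpw := (hn2 m (by omega)).1
  have hq1 : 1 ≤ ql m := Nat.one_le_two_pow
  have hlw : 2 ^ Lw m ≤ tw m := two_pow_Lw_le_tw m
  have hcp : cp (tw m) (m * m) = ql m := by
    unfold ql
    refine cp_eq ?_
    have h1 : ql m ≤ Lw m := by omega
    exact h1.trans (Lw_le_tw m)
  have key : ∀ B : List (List Bool), B ⊆ winL (tw m) m →
      (testB e F pw (tw m) m T B = true ↔
        Tot F (ovX e (win m) B.toFinset X) (ql m)) := by
    intro B hB
    have hagree : ∀ y : List Bool, y.length ≤ PT.eval (ql m) →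
        look (T ++ B.map e) y = ovX e (win m) B.toFinset X y := by
      intro y hy
      have hy' : y.length < Lw m := by omega
      unfold look ovX
      by_cases h : y ∈ (win m).image e
      · rw [if_pos h]
        have h1 : y ∉ T := fun hyT => ((hT y hy').1 hyT).2 h
        rw [decide_eq_decide, List.mem_append, List.mem_map, Finset.mem_image]
        constructor
        · rintro (h2 | ⟨z, hz, rfl⟩)
          · exact absurd h2 h1
          · exact ⟨z, List.mem_toFinset.2 hz, rfl⟩
        · rintro ⟨z, hz, rfl⟩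
          exact Or.inr ⟨z, List.mem_toFinset.1 hz, rfl⟩
      · rw [if_neg h]
        have h1 : y ∉ B.map e := by
          intro hyB
          obtain ⟨z, hz, rfl⟩ := List.mem_map.1 hyB
          exact h (Finset.mem_image.2 ⟨z, mem_winL.1 (hB hz), rfl⟩)
        cases hX : X y with
        | true =>
          rw [decide_eq_true_iff]
          exact List.mem_append_left _ ((hT y hy').2 ⟨hX, h⟩)
        | false =>
          rw [decide_eq_false_iff_not, List.mem_append]
          rintro (h2 | h2)
          · have := ((hT y hy').1 h2).1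
            rw [hX] at this
            exact absurd this (by simp)
          · exact h1 h2
    have htr : ∀ (Y Y' : List Bool → Bool), (∀ y : List Bool, y.length ≤ PT.eval (ql m) →
        Y y = Y' y) → ∀ π w, π.length ≤ ql m → F Y (π, w) = true → F Y' (π, w) = true := by
      intro Y Y' hYY π w hπ h
      obtain ⟨T0, _, hT0, hT1⟩ := hloc Y π w h
      refine hT1 Y' fun y hy => (hYY y ?_).symm
      exact (hT0 y hy).trans (eval_mono PT hπ)
    unfold testB
    rw [hcp, List.all_eq_true]
    constructor
    · intro h π hπ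
      have h1 := h π ((mem_strsC (le_trans (Nat.pow_le_pow_right (by norm_num) (by omega)) hlw)).2
        (by omega))
      rw [List.any_eq_true] at h1
      obtain ⟨w, _, hw⟩ := h1
      exact ⟨w, htr _ _ hagree π w hπ hw⟩
    · intro h π hπ
      have hπ' : π.length ≤ ql m := by
        have := (mem_strsC (le_trans (Nat.pow_le_pow_right (by norm_num) (by omega)) hlw)).1 hπ
        omega
      obtain ⟨w, hw⟩ := h π hπ'
      have hw1 := htr _ _ (fun y hy => (hagree y hy).symm) π w hπ' hw
      rw [List.any_eq_true]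
      refine ⟨w, (mem_strsC (le_trans (Nat.pow_le_pow_right (by norm_num) (by omega)) hlw)).2 ?_,
        hw1⟩
      have h2 := hF.short _ _ _ hw
      have h3 := eval_mono pw hπ'
      omega
  unfold cnt nontot
  simp only
  rw [subsC_eq (two_pow_winL_le m)]
  have h1 := count_sublists (winL_nodup m)
    (fun B => decide (¬ Tot F (ovX e (win m) B X) (ql m)))
  rw [winL_toFinset] at h1
  simp only [decide_eq_true_eq] at h1
  rw [← h1]
  congr 1
  refine List.filter_congr fun B hB => ?_
  have hB' : B ⊆ winL (tw m) m := (List.mem_sublists'.1 hB).subset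
  have h2 := key B hB'
  by_cases h3 : Tot F (ovX e (win m) B.toFinset X) (ql m)
  · simp [h3, h2.2 h3]
  · have h4 : testB e F pw (tw m) m T B = false := by
      cases h5 : testB e F pw (tw m) m T B with
      | true => exact absurd (h2.1 h5) h3
      | false => rfl
    simp [h3, h4]

end Pool.Agent.TFR21
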