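import Pool.Agent.TFR21.KeyWin
import Pool.Agent.TFR21.LevDep

/-!
# Module TFR21/Descent

PROOF. Let `k j = level S.e F (S.orc A R) (sc j)` (the level at scale `sc (j+1) = tw (sc j)`).
For large `j`: `k j ≥ 1`, since `Covered R n 0` is false (`i = []`, no `t < 0`); `k j ≤ sc (j+1)`
(`lev_upper`, `sc_pos`). By `key_window` at `n = sc (j+1)`, `k = k j`, and `frac_nontot`,
`4^k del^2 / 32 ≤ nontot / 2^card`, so `lev_lower` gives `k (j+1) ≤ k j - 1`. Infinite descent.
-/

set_option autoImplicit false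

namespace Pool.Agent.TFR21

open Pool.Agent.PT Pool.Agent.TMB67 Pool.Agent.POpt70 Pool.Agent.ROr14
open N68a2faeb N793a5b8e N487b59b3 MeasureTheory

/-- Infinite descent of the levels. -/
theorem descent (S : Acc) (A R : List Bool → Bool)
    {F : (List Bool → Bool) → List Bool × List Bool → Bool} {pw : Polynomial ℕ}
    (hF : Search F pw) (M : Algorithm)
    (h1 : ∃ j0, ∀ j ≥ j0, Covered R (sc (j + 1)) (level S.e F (S.orc A R) (sc j)))
    (h2 : ∃ j1, ∀ j ≥ j1, 511 / 512 ≤ frac (win (sc (j + 1)))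
      {R' | Works S F M A R' (sc (j + 1)) (level S.e F (S.orc A R) (sc j))} R) : False := by
  obtain ⟨PT, hloc⟩ := hF.exists_local
  obtain ⟨n1, hn1⟩ := key_window S A hloc M
  obtain ⟨j0, hj0⟩ := h1
  obtain ⟨j1, hj1⟩ := h2
  set k : ℕ → ℕ := fun j => level S.e F (S.orc A R) (sc j) with hk
  have hpos : ∀ j ≥ j0, 1 ≤ k j := by
    intro j hj
    by_contra hcon
    have h0 : k j = 0 := by omega
    have hc := hj0 j hj
    have h0' : level S.e F (S.orc A R) (sc j) = 0 := h0
    rw [h0'] at hc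
    rcases hc [] rfl with h | h
    · obtain ⟨t, ht, _⟩ := h
      exact absurd ht (Nat.not_lt_zero t)
    · obtain ⟨t, ht, _⟩ := h
      exact absurd ht (Nat.not_lt_zero t)
  have hle : ∀ j, k j ≤ sc (j + 1) := fun j =>
    (lev_upper (sc_pos j) (pow_pos (by norm_num : 0 < 2) _) (k := k j) rfl).1
  have hstep : ∀ j ≥ max j0 (max j1 n1), k (j + 1) ≤ k j - 1 := by
    intro j hj
    have ha : j0 ≤ j := le_trans (le_max_left _ _) hj
    have hb : j1 ≤ j := le_trans (le_trans (le_max_left _ _) (le_max_right _ _)) hj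
    have hc : n1 ≤ j := le_trans (le_trans (le_max_right _ _) (le_max_right _ _)) hj
    have hn : n1 ≤ sc (j + 1) := hc.trans ((Nat.le_succ j).trans (le_sc (j + 1)))
    have h3 := hn1 (sc (j + 1)) hn (k j) (hpos j ha) (hle j) R (hj1 j hb)
    rw [frac_nontot] at h3
    exact lev_lower (sc_pos (j + 1)) (pow_pos (by norm_num : 0 < 2) _) (hpos j ha) (hle j) h3
  have hdesc : ∀ i, k (max j0 (max j1 n1) + i) + i ≤ k (max j0 (max j1 n1)) := by
    intro i
    induction i with
    | zero => simp
    | succ i ih =>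
      have h := hstep (max j0 (max j1 n1) + i) (Nat.le_add_right _ _)
      have hp := hpos (max j0 (max j1 n1) + i)
        (le_trans (le_max_left _ _) (Nat.le_add_right _ _))
      have e : max j0 (max j1 n1) + (i + 1) = max j0 (max j1 n1) + i + 1 := rfl
      rw [e]
      omega
  have h := hdesc (k (max j0 (max j1 n1)) + 1)
  omega

end Pool.Agent.TFR21
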