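import Pool.Agent.TFR21.Worlds

/-!
# Module TFR21/Expand

PROOF. Write `c = 1/(w-1)`, `w = card Wd`. For `S : Finset K` let `Empt_S ω` mean
`∀ κ ∈ S, ω.2 (i, s, κ) ≠ o`. By induction on `S` show
`∑ ω, g ω = ∑ ω, if Empt_S ω then ∑ U ∈ S.powerset, c ^ U.card * g (plant o ω i s U) else 0`;
`S = univ` is the claim. Step `insert κ₀ S` (`κ₀ ∉ S`): for a function `f` of the world,
(*) `∑ ω, f ω = ∑ ω, if ω.2 (i,s,κ₀) ≠ o then f ω + c * f (plant o ω i s {κ₀}) else 0`,
because `ω ↦ plant o ω i s {κ₀}` maps the worlds with `ω.2 (i,s,κ₀) ≠ o` onto the worlds with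
`ω.2 (i,s,κ₀) = o`, each being hit exactly `w - 1` times (the fibre of `ω'` is
`{Function.update ω'.2 (i,s,κ₀) v | v ≠ o}`). Apply (*) to the function in the induction
hypothesis; `Empt_S` is not affected by planting at `κ₀ ∉ S`, and
`plant (plant ω {κ₀}) U = plant ω (insert κ₀ U)`; split the subsets of `insert κ₀ S` by whether
they contain `κ₀` (`Finset.sum_powerset_insert`).
-/

set_option autoImplicit false

namespace Pool.Agent.TFR21

open Classical in
/-- One coordinate. -/
theorem expand_coord {Wd : Type} [Fintype Wd] (o : Wd) (hw : 2 ≤ Fintype.card Wd) (φ : Wd → ℝ) :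
    ∑ v, φ v = ∑ v, if v ≠ o then φ v + 1 / ((Fintype.card Wd : ℝ) - 1) * φ o else 0 := by
  have hw' : (0 : ℝ) < (Fintype.card Wd : ℝ) - 1 := by
    have : (2 : ℝ) ≤ (Fintype.card Wd : ℝ) := by exact_mod_cast hw
    linarith
  have h1 : ∀ v : Wd, (if v ≠ o then φ v + 1 / ((Fintype.card Wd : ℝ) - 1) * φ o else 0) =
      φ v + 1 / ((Fintype.card Wd : ℝ) - 1) * φ o -
        (if v = o then φ o + 1 / ((Fintype.card Wd : ℝ) - 1) * φ o else 0) := by
    intro v
    by_cases h : v = o
    · subst h; simp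
    · simp [h]
  rw [Finset.sum_congr rfl fun v _ => h1 v, Finset.sum_sub_distrib, Finset.sum_add_distrib,
    Finset.sum_ite_eq', if_pos (Finset.mem_univ o), Finset.sum_const, Finset.card_univ,
    nsmul_eq_mul]
  field_simp
  ring

open Classical in
/-- One candidate. -/
theorem expand_one {I K Wd Rest : Type} [Fintype I] [Fintype K] [Fintype Wd] [Fintype Rest]
    (o : Wd) (hw : 2 ≤ Fintype.card Wd) (i : I) (s : Bool) (κ : K)
    (f : World I K Wd Rest → ℝ) :
    ∑ ω, f ω = ∑ ω : World I K Wd Rest, if ω.2 (i, s, κ) ≠ o then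
      f ω + 1 / ((Fintype.card Wd : ℝ) - 1) * f (plant o ω i s {κ}) else 0 := by
  rw [Fintype.sum_prod_type, Fintype.sum_prod_type]
  refine Finset.sum_congr rfl fun r _ => ?_
  rw [← Equiv.sum_comp (Equiv.funSplitAt (i, s, κ) Wd).symm,
    ← Equiv.sum_comp (Equiv.funSplitAt (i, s, κ) Wd).symm, Fintype.sum_prod_type_right,
    Fintype.sum_prod_type_right]
  refine Finset.sum_congr rfl fun h _ => ?_
  rw [expand_coord o hw]
  refine Finset.sum_congr rfl fun v _ => ?_
  have h1 : (Equiv.funSplitAt (i, s, κ) Wd).symm (v, h) (i, s, κ) = v := by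
    simp [Equiv.funSplitAt, Equiv.piSplitAt]
  have h2 : plant o (r, (Equiv.funSplitAt (i, s, κ) Wd).symm (v, h)) i s {κ} =
      (r, (Equiv.funSplitAt (i, s, κ) Wd).symm (o, h)) := by
    refine Prod.ext rfl (funext fun c => ?_)
    obtain ⟨a, b, d⟩ := c
    by_cases hc : a = i ∧ b = s ∧ d = κ
    · obtain ⟨rfl, rfl, rfl⟩ := hc
      simp [plant, Equiv.funSplitAt, Equiv.piSplitAt]
    · have hne : ((a, b, d) : I × Bool × K) ≠ (i, s, κ) := by
        intro he
        apply hc
        simpa using he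
      have hc' : ¬ (a = i ∧ b = s ∧ d ∈ ({κ} : Finset K)) := by
        simpa using hc
      show (if a = i ∧ b = s ∧ d ∈ ({κ} : Finset K) then o
        else (Equiv.funSplitAt (i, s, κ) Wd).symm (v, h) (a, b, d)) = _
      rw [if_neg hc']
      simp [Equiv.funSplitAt, Equiv.piSplitAt, hne]
  simp only [h1, h2]

open Classical in
theorem expand_plant_empty {I K Wd Rest : Type} (o : Wd) (i : I) (s : Bool) (ω : World I K Wd Rest) :
    plant o ω i s ∅ = ω := by
  refine Prod.ext rfl (funext fun c => ?_)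
  simp [plant]

open Classical in
theorem expand_plant_plant {I K Wd Rest : Type} (o : Wd) (i : I) (s : Bool) (ω : World I K Wd Rest)
    (κ : K) (U : Finset K) :
    plant o (plant o ω i s {κ}) i s U = plant o ω i s (insert κ U) := by
  refine Prod.ext rfl (funext fun c => ?_)
  obtain ⟨a, b, d⟩ := c
  show (if a = i ∧ b = s ∧ d ∈ U then o else
    (if a = i ∧ b = s ∧ d ∈ ({κ} : Finset K) then o else ω.2 (a, b, d))) =
    if a = i ∧ b = s ∧ d ∈ insert κ U then o else ω.2 (a, b, d)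
  simp only [Finset.mem_singleton, Finset.mem_insert]
  by_cases h1 : a = i ∧ b = s ∧ d ∈ U
  · rw [if_pos h1, if_pos ⟨h1.1, h1.2.1, Or.inr h1.2.2⟩]
  · rw [if_neg h1]
    by_cases h2 : a = i ∧ b = s ∧ d = κ
    · rw [if_pos h2, if_pos ⟨h2.1, h2.2.1, Or.inl h2.2.2⟩]
    · rw [if_neg h2, if_neg]
      rintro ⟨ha, hb, hd⟩
      rcases hd with hd | hd
      · exact h2 ⟨ha, hb, hd⟩
      · exact h1 ⟨ha, hb, hd⟩

open Classical in
theorem expand_finset {I K Wd Rest : Type} [Fintype I] [Fintype K] [Fintype Wd] [Fintype Rest]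
    (o : Wd) (hw : 2 ≤ Fintype.card Wd) (i : I) (s : Bool) (g : World I K Wd Rest → ℝ)
    (S : Finset K) :
    ∑ ω, g ω = ∑ ω : World I K Wd Rest, if ∀ κ ∈ S, ω.2 (i, s, κ) ≠ o then
      ∑ U ∈ S.powerset, (1 / ((Fintype.card Wd : ℝ) - 1)) ^ U.card * g (plant o ω i s U)
      else 0 := by
  induction S using Finset.induction_on with
  | empty => simp [expand_plant_empty]
  | insert κ₀ S hκ ih =>
    rw [ih, expand_one o hw i s κ₀]
    refine Finset.sum_congr rfl fun ω _ => ?_
    rw [Finset.sum_powerset_insert hκ]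
    by_cases h0 : ω.2 (i, s, κ₀) = o
    · have h1 : ¬ ∀ κ ∈ insert κ₀ S, ω.2 (i, s, κ) ≠ o := fun h =>
        h κ₀ (Finset.mem_insert_self _ _) h0
      rw [if_neg (not_not.2 h0), if_neg h1]
    · rw [if_pos h0]
      have h2 : (∀ κ ∈ S, (plant o ω i s {κ₀}).2 (i, s, κ) ≠ o) ↔
          ∀ κ ∈ S, ω.2 (i, s, κ) ≠ o := by
        refine forall₂_congr fun κ hκS => ?_
        have hne : κ ≠ κ₀ := fun h => hκ (h ▸ hκS)
        have : (plant o ω i s {κ₀}).2 (i, s, κ) = ω.2 (i, s, κ) := by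
          show (if i = i ∧ s = s ∧ κ ∈ ({κ₀} : Finset K) then o else ω.2 (i, s, κ)) = _
          rw [if_neg]
          rintro ⟨_, _, h⟩
          exact hne (Finset.mem_singleton.1 h)
        rw [this]
      by_cases h3 : ∀ κ ∈ S, ω.2 (i, s, κ) ≠ o
      · have h4 : ∀ κ ∈ insert κ₀ S, ω.2 (i, s, κ) ≠ o := by
          intro κ hκ'
          rcases Finset.mem_insert.1 hκ' with rfl | h
          · exact h0
          · exact h3 κ h
        rw [if_pos h3, if_pos (h2.2 h3), if_pos h4, Finset.mul_sum]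
        congr 1
        refine Finset.sum_congr rfl fun U hU => ?_
        have hκU : κ₀ ∉ U := fun h => hκ (Finset.mem_powerset.1 hU h)
        rw [expand_plant_plant, Finset.card_insert_of_notMem hκU, pow_succ]
        ring
      · have h4 : ¬ ∀ κ ∈ insert κ₀ S, ω.2 (i, s, κ) ≠ o := fun h =>
          h3 fun κ hκ' => h κ (Finset.mem_insert_of_mem hκ')
        rw [if_neg h3, if_neg (fun h => h3 (h2.1 h)), if_neg h4, mul_zero, add_zero]

open Classical in
/-- Sampling a half-block = sampling an empty one and planting successes. -/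
theorem plant_expand {I K Wd Rest : Type} [Fintype I] [Fintype K] [Fintype Wd] [Fintype Rest]
    (o : Wd) (hw : 2 ≤ Fintype.card Wd) (i : I) (s : Bool) (g : World I K Wd Rest → ℝ) :
    ∑ ω, g ω = ∑ ω, if Empt o ω i s then
      ∑ U : Finset K, (1 / ((Fintype.card Wd : ℝ) - 1)) ^ U.card * g (plant o ω i s U)
      else 0 := by
  rw [expand_finset o hw i s g Finset.univ]
  refine Finset.sum_congr rfl fun ω _ => ?_
  have h : (∀ κ ∈ (Finset.univ : Finset K), ω.2 (i, s, κ) ≠ o) ↔ Empt o ω i s := by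
    simp [Empt]
  by_cases h1 : Empt o ω i s
  · rw [if_pos h1, if_pos (h.2 h1), Finset.powerset_univ]
  · rw [if_neg h1, if_neg (fun h' => h1 (h.1 h'))]

end Pool.Agent.TFR21
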