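import Mathlib

/-!
# Worlds: finite product spaces of words

`World I K Wd Rest`: a word `ω.2 (i, s, κ)` for each instance `i`, side `s` and candidate `κ`, and
further information `ω.1`. The candidate is successful when its word is the special word `o`.
-/

set_option autoImplicit false

namespace Pool.Agent.TFR21

/-- Worlds. -/
abbrev World (I K Wd Rest : Type) := Rest × (I × Bool × K → Wd)

section

variable {I K Wd Rest : Type}

/-- The half `s` of instance `i` has no successful candidate. -/
def Empt (o : Wd) (ω : World I K Wd Rest) (i : I) (s : Bool) : Prop :=
  ∀ κ : K, ω.2 (i, s, κ) ≠ o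

open Classical in
/-- The candidates in `U` of the half `s` of the instance `i` are made successful. -/
noncomputable def plant (o : Wd) (ω : World I K Wd Rest) (i : I) (s : Bool) (U : Finset K) :
    World I K Wd Rest :=
  (ω.1, fun c => if c.1 = i ∧ c.2.1 = s ∧ c.2.2 ∈ U then o else ω.2 c)

open Classical in
/-- The proportion of the worlds with property `E`. -/
noncomputable def prob [Fintype I] [Fintype K] [Fintype Wd] [Fintype Rest]
    (E : World I K Wd Rest → Prop) : ℝ :=
  ((Finset.univ.filter E).card : ℝ) / (Fintype.card (World I K Wd Rest) : ℝ)

end

/-- The value of an indicator does not depend on the decision instance. -/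
theorem ite_inst {p : Prop} (i1 i2 : Decidable p) :
    @ite ℝ p i1 1 0 = @ite ℝ p i2 1 0 := by
  cases i1 <;> cases i2 <;> first | rfl | contradiction

/-- The number of the elements with a property does not depend on the decision instances. -/
theorem card_filter_inst {α : Type} (s : Finset α) (p : α → Prop) (i1 i2 : DecidablePred p) :
    (@Finset.filter α p i1 s).card = (@Finset.filter α p i2 s).card := by
  have h : i1 = i2 := Subsingleton.elim _ _
  subst h
  rfl

/-- A proportion does not depend on the instances. -/
theorem ratio_inst {α : Type} (F1 F2 : Fintype α) (p : α → Prop) (i1 i2 : DecidablePred p) :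
    ((@Finset.filter α p i1 (@Finset.univ α F1)).card : ℝ) / (@Fintype.card α F1 : ℝ) =
      ((@Finset.filter α p i2 (@Finset.univ α F2)).card : ℝ) / (@Fintype.card α F2 : ℝ) := by
  have h : i1 = i2 := Subsingleton.elim _ _
  have h' : F1 = F2 := Subsingleton.elim _ _
  subst h
  subst h'
  rfl

end Pool.Agent.TFR21
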