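import Pool.Agent.TFR21.Run
import Pool.Agent.TFR21.Worlds

/-!
# Module TFR21/Glue

The assignments of the coordinates in the window of scale `n` form a space of worlds.

PROOF. `pos : (I × Bool × K) × Fin (n*n) → List Bool`,
`pos ((i, s, t, u), b) = cpos n (ccode k i s t u) b`, is injective (`bitEncode_injective`,
lengths of `ones`) with values in `win n` (`cpos_length`, `hn`). Take
`Rest k n = {z : List Bool // z ∈ win n ∧ z ∉ Set.range pos} → Bool`, nonempty, finite. For a world
`ω` let `glue R ω z = ω.2 c b` if `z = pos (c, b)`, `= ω.1 ⟨z, _⟩` if `z ∈ win n` is not in the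
range, `= R z` otherwise. The map `ω ↦ {z ∈ win n | glue R ω z = true}` is a bijection from the
worlds onto `(win n).powerset`, and `overlay (win n) B R = glue R ω` for the corresponding `B`;
hence the equality of `frac` and `prob` (`Finset.card_bij` for the numerator, and
`card World = 2 ^ (win n).card` for the denominator, e.g. from the same bijection).
-/

set_option autoImplicit false

namespace Pool.Agent.TFR21

open Pool.Agent.PT Pool.Agent.TMB67 Pool.Agent.POpt70 Pool.Agent.ROr14
open N68a2faeb N793a5b8e N487b59b3 MeasureTheory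

/-- Instances of level `k`. -/
abbrev Ins (k : ℕ) : Type := List.Vector Bool (2 * k)

/-- Candidates of a half-block. -/
abbrev Can (k n : ℕ) : Type := Fin k × List.Vector Bool (n * n)

/-- Private words. -/
abbrev Wrd (n : ℕ) : Type := Fin (n * n) → Bool

/-- The coordinate `b` of a candidate. -/
def posn (k n : ℕ) (c : Ins k × Bool × Can k n) (b : Fin (n * n)) : List Bool :=
  cpos n (ccode k c.1.1 c.2.1 c.2.2.1 c.2.2.2.1) b

theorem posn_inj {k n : ℕ} {c c' : Ins k × Bool × Can k n} {b b' : Fin (n * n)}
    (h : posn k n c b = posn k n c' b') : c = c' ∧ b = b' := by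
  obtain ⟨i, s, t, u⟩ := c
  obtain ⟨i', s', t', u'⟩ := c'
  have h1 := bitEncode_injective h
  simp only [Prod.mk.injEq] at h1
  obtain ⟨-, h2, h3⟩ := h1
  have h4 := bitEncode_injective h3
  simp only [Prod.mk.injEq, List.cons.injEq] at h4
  obtain ⟨⟨-, h5⟩, ⟨h6, h7⟩, h8⟩ := h4
  have e2 := congrArg List.length h2
  have e7 := congrArg List.length h7
  simp only [List.length_replicate] at e2 e7
  have hi : i = i' := Subtype.ext h5
  have ht : t = t' := Fin.ext e7
  have hu : u = u' := Subtype.ext h8
  exact ⟨by rw [hi, h6, ht, hu], Fin.ext e2⟩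

theorem posn_mem {k n : ℕ} (hk : k ≤ n) (hn : 200 * (n * n + n + 1) < Lw n)
    (c : Ins k × Bool × Can k n) (b : Fin (n * n)) : posn k n c b ∈ win n := by
  have h := cpos_length (n := n) (k := k) (t := c.2.2.1) (b := b) (i := c.1.1)
    (u := c.2.2.2.1) (s := c.2.1) hk c.1.2 c.2.2.1.2 c.2.2.2.2 b.2
  rw [mem_win]
  exact ⟨h.1, h.2.trans_lt hn⟩

/-- The other coordinates of the window. -/
def RestC (k n : ℕ) : Type :=
  {z : List Bool // z ∈ win n ∧ ∀ c b, z ≠ posn k n c b}

theorem finite_restC (k n : ℕ) : Finite (RestC k n) :=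
  Set.Finite.to_subtype ((win n).finite_toSet.subset fun _ hz => hz.1)

open Classical in
/-- The oracle given by a world. -/
noncomputable def glueF (k n : ℕ) (R : List Bool → Bool)
    (ω : World (Ins k) (Can k n) (Wrd n) (RestC k n → Bool)) (z : List Bool) : Bool :=
  if h : ∃ p : (Ins k × Bool × Can k n) × Fin (n * n), z = posn k n p.1 p.2 then
    ω.2 h.choose.1 h.choose.2
  else if h' : z ∈ win n ∧ ∀ c b, z ≠ posn k n c b then ω.1 ⟨z, h'⟩ else R z

theorem glueF_pos (k n : ℕ) (R : List Bool → Bool)
    (ω : World (Ins k) (Can k n) (Wrd n) (RestC k n → Bool)) (c : Ins k × Bool × Can k n)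
    (b : Fin (n * n)) : glueF k n R ω (posn k n c b) = ω.2 c b := by
  have h : ∃ p : (Ins k × Bool × Can k n) × Fin (n * n), posn k n c b = posn k n p.1 p.2 :=
    ⟨(c, b), rfl⟩
  unfold glueF
  rw [dif_pos h]
  have h2 := posn_inj h.choose_spec
  rw [← h2.1, ← h2.2]

theorem glueF_rest (k n : ℕ) (R : List Bool → Bool)
    (ω : World (Ins k) (Can k n) (Wrd n) (RestC k n → Bool)) (z : RestC k n) :
    glueF k n R ω z.1 = ω.1 z := by
  have h : ¬ ∃ p : (Ins k × Bool × Can k n) × Fin (n * n), z.1 = posn k n p.1 p.2 := by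
    rintro ⟨p, hp⟩
    exact z.2.2 _ _ hp
  unfold glueF
  rw [dif_neg h, dif_pos z.2]
  rfl

theorem glueF_out {k n : ℕ} (hk : k ≤ n) (hn : 200 * (n * n + n + 1) < Lw n)
    (R : List Bool → Bool) (ω : World (Ins k) (Can k n) (Wrd n) (RestC k n → Bool))
    {z : List Bool} (hz : z ∉ win n) : glueF k n R ω z = R z := by
  have h : ¬ ∃ p : (Ins k × Bool × Can k n) × Fin (n * n), z = posn k n p.1 p.2 := by
    rintro ⟨p, hp⟩
    exact hz (hp ▸ posn_mem hk hn _ _)
  unfold glueF
  rw [dif_neg h, dif_neg fun h' => hz h'.1]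

open Classical in
/-- The set of ones of a world. -/
noncomputable def onesF (k n : ℕ)
    (ω : World (Ins k) (Can k n) (Wrd n) (RestC k n → Bool)) : Finset (List Bool) :=
  (win n).filter fun z => glueF k n (fun _ => false) ω z = true

theorem glueF_indep {k n : ℕ} (R R' : List Bool → Bool)
    (ω : World (Ins k) (Can k n) (Wrd n) (RestC k n → Bool)) {z : List Bool} (hz : z ∈ win n) :
    glueF k n R ω z = glueF k n R' ω z := by
  by_cases h : ∃ p : (Ins k × Bool × Can k n) × Fin (n * n), z = posn k n p.1 p.2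
  · obtain ⟨p, rfl⟩ := h
    rw [glueF_pos, glueF_pos]
  · have h' : ∀ c b, z ≠ posn k n c b := fun c b hh => h ⟨(c, b), hh⟩
    have := glueF_rest k n R ω ⟨z, hz, h'⟩
    have h2 := glueF_rest k n R' ω ⟨z, hz, h'⟩
    simpa using this.trans h2.symm

theorem overlay_onesF {k n : ℕ} (hk : k ≤ n) (hn : 200 * (n * n + n + 1) < Lw n)
    (R : List Bool → Bool) (ω : World (Ins k) (Can k n) (Wrd n) (RestC k n → Bool)) :
    overlay (win n) (onesF k n ω) R = glueF k n R ω := by
  funext z
  unfold overlay
  split_ifs with hz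
  · rw [glueF_indep R (fun _ => false) ω hz]
    unfold onesF
    simp [hz]
  · exact (glueF_out hk hn R ω hz).symm

theorem onesF_inj {k n : ℕ} (hk : k ≤ n) (hn : 200 * (n * n + n + 1) < Lw n) :
    Function.Injective (onesF k n) := by
  intro ω ω' h
  have h1 : glueF k n (fun _ => false) ω = glueF k n (fun _ => false) ω' := by
    rw [← overlay_onesF hk hn, h, overlay_onesF hk hn]
  apply Prod.ext
  · funext z
    rw [← glueF_rest k n (fun _ => false) ω z, h1, glueF_rest]
  · funext c b
    rw [← glueF_pos k n (fun _ => false) ω c b, h1, glueF_pos]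

theorem onesF_surj {k n : ℕ}
    {B : Finset (List Bool)} (hB : B ⊆ win n) : ∃ ω, onesF k n ω = B := by
  classical
  refine ⟨(fun z => decide (z.1 ∈ B), fun c b => decide (posn k n c b ∈ B)), ?_⟩
  ext z
  unfold onesF
  rw [Finset.mem_filter]
  by_cases hz : z ∈ win n
  · by_cases h : ∃ p : (Ins k × Bool × Can k n) × Fin (n * n), z = posn k n p.1 p.2
    · obtain ⟨p, rfl⟩ := h
      rw [glueF_pos]
      simp [hz]
    · have h' : ∀ c b, z ≠ posn k n c b := fun c b hh => h ⟨(c, b), hh⟩
      have := glueF_rest k n (fun _ => false)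
        ((fun z => decide (z.1 ∈ B), fun c b => decide (posn k n c b ∈ B)) :
          World (Ins k) (Can k n) (Wrd n) (RestC k n → Bool)) ⟨z, hz, h'⟩
      simp only at this
      rw [this]
      simp [hz]
  · constructor
    · intro h
      exact absurd h.1 hz
    · intro h
      exact absurd (hB h) hz

/-- The window as a space of worlds. -/
theorem exists_glue {k n : ℕ} (hk : k ≤ n) (hn : 200 * (n * n + n + 1) < Lw n) :
    ∃ (Rest : Type) (_ : Fintype Rest) (_ : Nonempty Rest)
      (glue : (List Bool → Bool) → World (Ins k) (Can k n) (Wrd n) Rest → List Bool → Bool),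
      (∀ R ω, ∀ z ∉ win n, glue R ω z = R z) ∧
      (∀ R ω c b, glue R ω (posn k n c b) = ω.2 c b) ∧
      (∀ R ω ω', ω.1 = ω'.1 → ∀ z, (∀ c b, z ≠ posn k n c b) → glue R ω z = glue R ω' z) ∧
      ∀ R (E : Set (List Bool → Bool)), frac (win n) E R = prob (fun ω => glue R ω ∈ E) := by
  classical
  have hfin : Finite (RestC k n) := finite_restC k n
  let hfr : Fintype (RestC k n) := Fintype.ofFinite _
  let hfr2 : Fintype (RestC k n → Bool) := Pi.instFintype
  refine ⟨RestC k n → Bool, hfr2, ⟨fun _ => false⟩, glueF k n, ?_, ?_, ?_, ?_⟩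
  · intro R ω z hz
    exact glueF_out hk hn R ω hz
  · intro R ω c b
    exact glueF_pos k n R ω c b
  · intro R ω ω' h z hz
    by_cases hw : z ∈ win n
    · have h1 := glueF_rest k n R ω ⟨z, hw, hz⟩
      have h2 := glueF_rest k n R ω' ⟨z, hw, hz⟩
      rw [h] at h1
      exact h1.trans h2.symm
    · rw [glueF_out hk hn R ω hw, glueF_out hk hn R ω' hw]
  · intro R E
    unfold frac prob
    have hcard : ∀ (E : Set (List Bool → Bool)),
        ((win n).powerset.filter fun B => overlay (win n) B R ∈ E).card =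
          (Finset.univ.filter fun ω : World (Ins k) (Can k n) (Wrd n) (RestC k n → Bool) =>
            glueF k n R ω ∈ E).card := by
      intro E
      symm
      refine Finset.card_bij (fun ω _ => onesF k n ω) ?_ ?_ ?_
      · intro ω hω
        rw [Finset.mem_filter] at hω ⊢
        refine ⟨Finset.mem_powerset.2 (Finset.filter_subset _ _), ?_⟩
        rw [overlay_onesF hk hn]
        exact hω.2
      · intro ω _ ω' _ h
        exact onesF_inj hk hn h
      · intro B hB
        rw [Finset.mem_filter, Finset.mem_powerset] at hB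
        obtain ⟨ω, hω⟩ := onesF_surj hB.1
        refine ⟨ω, ?_, hω⟩
        rw [Finset.mem_filter]
        refine ⟨Finset.mem_univ _, ?_⟩
        rw [← overlay_onesF hk hn, hω]
        exact hB.2
    have htot := hcard Set.univ
    simp only [Set.mem_univ, Finset.filter_true, Finset.card_powerset, Finset.card_univ] at htot
    have h1 : (((win n).powerset.filter fun B => overlay (win n) B R ∈ E).card : ℝ) =
        ((Finset.univ.filter fun ω : World (Ins k) (Can k n) (Wrd n) (RestC k n → Bool) =>
            glueF k n R ω ∈ E).card : ℝ) := by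
      exact_mod_cast hcard E
    have h2 : (2 : ℝ) ^ (win n).card =
        (Fintype.card (World (Ins k) (Can k n) (Wrd n) (RestC k n → Bool)) : ℝ) := by
      exact_mod_cast htot
    rw [h1, h2]
    exact ratio_inst _ _ _ _ _

theorem card_ins (k : ℕ) : Fintype.card (Ins k) = 4 ^ k := by
  rw [card_vector, Fintype.card_bool, pow_mul]
  norm_num

theorem card_can (k n : ℕ) : Fintype.card (Can k n) = k * 2 ^ (n * n) := by
  rw [Fintype.card_prod, Fintype.card_fin, card_vector, Fintype.card_bool]

theorem card_wrd (n : ℕ) : Fintype.card (Wrd n) = 2 ^ (n * n) := by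
  simp [Wrd]

end Pool.Agent.TFR21
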