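import Pool.Agent.TFR21.Worlds

/-!
# Module TFR21/Indep

PROOF. The worlds in question are `Rest` times the functions `h : I × Bool × K → Wd` with
`h c ≠ o` for all `c` with `(c.1, c.2.1) ∈ J`; their number is
`card Rest * ∏ c, (if (c.1, c.2.1) ∈ J then w - 1 else w)` (`Fintype.card_piFinset` or
`Fintype.card_pi`), and the proportion is `((w-1)/w) ^ (number of such c)`, this number being
`J.card * card K`.
-/

set_option autoImplicit false

namespace Pool.Agent.TFR21

/-- Emptiness of different half-blocks: exact probability. -/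
theorem prob_empt {I K Wd Rest : Type} [Fintype I] [Fintype K] [Fintype Wd] [Fintype Rest]
    [Nonempty Rest] (o : Wd) (J : Finset (I × Bool)) :
    prob (fun ω : World I K Wd Rest => ∀ p ∈ J, Empt o ω p.1 p.2) =
      ((1 - 1 / (Fintype.card Wd : ℝ)) ^ Fintype.card K) ^ J.card := by
  classical
  have hw : (0 : ℝ) < (Fintype.card Wd : ℝ) := by
    exact_mod_cast Fintype.card_pos_iff.mpr ⟨o⟩
  have hR : (0 : ℝ) < (Fintype.card Rest : ℝ) := by
    exact_mod_cast Fintype.card_pos
  have hset : (Finset.univ.filter fun ω : World I K Wd Rest => ∀ p ∈ J, Empt o ω p.1 p.2) =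
      (Finset.univ : Finset Rest) ×ˢ Fintype.piFinset (fun c : I × Bool × K =>
        if (c.1, c.2.1) ∈ J then Finset.univ.erase o else Finset.univ) := by
    ext ⟨r, h⟩
    simp only [Finset.mem_filter, Finset.mem_univ, true_and, Finset.mem_product,
      Fintype.mem_piFinset, Empt]
    constructor
    · intro H c
      split_ifs with hc
      · simp only [Finset.mem_erase, Finset.mem_univ, and_true]
        exact H _ hc c.2.2
      · exact Finset.mem_univ _
    · intro H p hp κ
      have := H (p.1, p.2, κ)
      rw [if_pos hp] at this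
      exact (Finset.mem_erase.mp this).1
  have h0 : prob (fun ω : World I K Wd Rest => ∀ p ∈ J, Empt o ω p.1 p.2) =
      ((Finset.univ.filter fun ω : World I K Wd Rest => ∀ p ∈ J, Empt o ω p.1 p.2).card : ℝ) /
        (Fintype.card (World I K Wd Rest) : ℝ) := by
    unfold prob
    exact congrArg (fun m : ℕ => (m : ℝ) / _) (card_filter_inst _ _ _ _)
  rw [h0]
  have h1 : ((Finset.univ.filter fun ω : World I K Wd Rest => ∀ p ∈ J, Empt o ω p.1 p.2).card
      : ℝ) = (Fintype.card Rest : ℝ) * ∏ c : I × Bool × K,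
        (if (c.1, c.2.1) ∈ J then (Fintype.card Wd : ℝ) - 1 else (Fintype.card Wd : ℝ)) := by
    rw [hset, Finset.card_product, Fintype.card_piFinset, Finset.card_univ, Nat.cast_mul,
      Nat.cast_prod]
    congr 1
    refine Finset.prod_congr rfl fun c _ => ?_
    split_ifs
    · rw [Finset.card_erase_of_mem (Finset.mem_univ _), Finset.card_univ,
        Nat.cast_sub (Fintype.card_pos_iff.mpr ⟨o⟩), Nat.cast_one]
    · rw [Finset.card_univ]
  have h2 : (Fintype.card (World I K Wd Rest) : ℝ) = (Fintype.card Rest : ℝ) *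
      ∏ _c : I × Bool × K, (Fintype.card Wd : ℝ) := by
    rw [Fintype.card_prod, Fintype.card_fun, Nat.cast_mul, Nat.cast_pow, Finset.prod_const,
      Finset.card_univ]
  rw [h1, h2, mul_div_mul_left _ _ hR.ne', ← Finset.prod_div_distrib]
  have h3 : ∀ c : I × Bool × K, (if (c.1, c.2.1) ∈ J then (Fintype.card Wd : ℝ) - 1 else
      (Fintype.card Wd : ℝ)) / (Fintype.card Wd : ℝ) =
      (fun p : I × Bool => if p ∈ J then 1 - 1 / (Fintype.card Wd : ℝ) else 1) (c.1, c.2.1) := by
    intro c
    by_cases hc : (c.1, c.2.1) ∈ J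
    · simp only [hc, if_true]
      field_simp
    · simp only [hc, if_false]
      field_simp
  rw [Finset.prod_congr rfl fun c _ => h3 c, ← Equiv.prod_comp (Equiv.prodAssoc I Bool K),
    Fintype.prod_prod_type]
  simp only [Equiv.prodAssoc_apply, Prod.mk.eta, Finset.prod_const, Finset.card_univ]
  have h4 : ∀ p : I × Bool, (if p ∈ J then 1 - 1 / (Fintype.card Wd : ℝ) else 1) ^ Fintype.card K =
      if p ∈ J then (1 - 1 / (Fintype.card Wd : ℝ)) ^ Fintype.card K else 1 := by
    intro p
    split_ifs <;> simp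
  rw [Finset.prod_congr rfl fun p _ => h4 p, Finset.prod_ite, Finset.prod_const,
    Finset.prod_const_one, mul_one]
  congr 2
  simp

end Pool.Agent.TFR21
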