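import Pool.Agent.TFR21.Expand
import Pool.Agent.TFR21.Indep

/-!
# Module TFR21/Key

PROOF. `w = card Wd`, `c = 1/(w-1)`, `N = card I`, `δ` the probability that a half-block is empty,
`P[..] = prob`. From `prob_empt`: `P[Empt i s] = δ`, `P[both halves of i empty] = δ^2`, and for
`i ≠ i'` both halves of `i` and of `i'` empty: `δ^4`; two different half-blocks empty: `δ^2`.
`∑_U c^|U| = (1+c)^|K| = 1/δ` (`Finset.sum_pow_mul_eq_add_pow` or `Fintype.sum_pow_mul_eq_add_pow`),
since `1 + c = w/(w-1)`. For `κ : K`: `∑_{U ∋ κ} c^|U| = c (1+c)^(|K|-1) = 1/(w δ)`.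

STEP 1 (fix `i`). By `plant_expand` applied to the indicator of
`Wk ∧ half s nonempty ∧ the other half empty` (for `U = ∅` the planted world has half `s` empty, so
the term vanishes; planting in half `s` does not change the other half):
`P[Wk, half s of i nonempty, other half empty] = (1/#worlds) ∑_{ω, both halves of i empty}
 ∑_{U ≠ ∅} c^|U| [Wk (plant ω i s U)]`. Sum over the two sides `s`. For `ω` with both halves empty
and `T ω`, `H` gives a side `s₀` and `τ`: for `s₀` only the `U` meeting `τ` count, at most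
`Q/(w δ)`; for the other side at most `1/δ - 1`. If not `T ω`: at most `2 (1/δ - 1)`. Hence
`P[Wk, exactly one half of i empty] ≤ δ^2 ((1-δ)/δ + Q/(w δ)) + ((1-δ)/δ) P[¬T, both halves of i
empty]`.

STEP 2 (sum over `i`). Let `Y = ∑_{i,s} [Empt i s]`, `B = ∑_i [both halves of i empty]`,
`Z = ∑_i [exactly one half of i empty] ≤ Y`, `E[Z] = 2 N δ (1-δ)`, `y = E[Y] = 2 N δ ≥ 1`,
`E[Y^2] ≤ y^2 + y ≤ 2 y^2`, `b = E[B] = N δ^2 ≤ 1`, `E[B^2] ≤ b^2 + b ≤ 2 b`.
`E[Z; ¬Wk] ≤ E[Y; ¬Wk] ≤ (E[Y^2]/(16 y) + 16 y P[¬Wk])/2 ≤ y (1/16 + 1/64) = (5/32) N δ`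
(`Y u ≤ (Y^2 / (16 y) + 16 y u)/2` for `u ∈ {0,1}`). So
`2 N δ (1-δ) - (5/32) N δ ≤ E[Z; Wk] ≤ N δ (1-δ) + N δ Q/w + ((1-δ)/δ) E[B; ¬T]`, and with
`1-δ ≥ 5/8`, `Q/w ≤ 1/8`: `((1-δ)/δ) E[B; ¬T] ≥ N δ (5/8 - 5/32 - 1/8) ≥ N δ / 4`, so
`E[B; ¬T] ≥ N δ^2 / 4 = b/4`.

STEP 3. `E[B; ¬T] ≤ (E[B^2]/8 + 8 P[¬T])/2 ≤ b/8 + 4 P[¬T]`, hence `P[¬T] ≥ b/32`.
-/

set_option autoImplicit false
set_option linter.unusedSectionVars false

namespace Pool.Agent.TFR21

section Sums

/-- Sum over all subsets. -/
theorem sum_pow_card {K : Type} [Fintype K] (c : ℝ) :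
    ∑ U : Finset K, c ^ U.card = (1 + c) ^ Fintype.card K := by
  have := Fintype.sum_pow_mul_eq_add_pow K c 1
  simp only [one_pow, mul_one] at this
  rw [this, add_comm]

open Classical in
/-- Sum over the subsets containing a point. -/
theorem sum_pow_card_mem {K : Type} [Fintype K] (c : ℝ) (hc : 0 < c) (κ : K) :
    ∑ U : Finset K, (if κ ∈ U then c ^ U.card else 0) = c / (1 + c) * (1 + c) ^ Fintype.card K := by
  have h1 : (Finset.univ : Finset (Finset K)) = (insert κ (Finset.univ.erase κ)).powerset := by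
    rw [Finset.insert_erase (Finset.mem_univ κ), Finset.powerset_univ]
  rw [h1, Finset.sum_powerset_insert (Finset.notMem_erase _ _)]
  have h2 : ∑ t ∈ (Finset.univ.erase κ).powerset, (if κ ∈ t then c ^ t.card else 0) = 0 := by
    refine Finset.sum_eq_zero fun t ht => if_neg fun h => ?_
    have := Finset.mem_powerset.mp ht h
    simp at this
  have h3 : ∑ t ∈ (Finset.univ.erase κ).powerset,
      (if κ ∈ insert κ t then c ^ (insert κ t).card else 0) =
      c * (1 + c) ^ (Fintype.card K - 1) := by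
    have := Finset.sum_pow_mul_eq_add_pow c 1 (Finset.univ.erase κ)
    simp only [one_pow, mul_one] at this
    rw [Finset.card_erase_of_mem (Finset.mem_univ _), Finset.card_univ] at this
    rw [add_comm 1 c, ← this, Finset.mul_sum]
    refine Finset.sum_congr rfl fun t ht => ?_
    have hκ : κ ∉ t := fun h => by
      have := Finset.mem_powerset.mp ht h
      simp at this
    rw [if_pos (Finset.mem_insert_self _ _), Finset.card_insert_of_notMem hκ, pow_succ, mul_comm]
  rw [h2, h3, zero_add]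
  have hK : 0 < Fintype.card K := Fintype.card_pos_iff.mpr ⟨κ⟩
  have : (1 + c) ^ Fintype.card K = (1 + c) ^ (Fintype.card K - 1) * (1 + c) := by
    rw [← pow_succ, Nat.sub_add_cancel hK]
  rw [this]
  have : (1 + c) ≠ 0 := by positivity
  field_simp

end Sums

section

variable {I K Wd Rest : Type} [Fintype I] [Fintype K] [Fintype Wd] [Fintype Rest]
  [Nonempty Rest]

open Classical in
/-- The mean over all worlds. -/
noncomputable def ex (f : World I K Wd Rest → ℝ) : ℝ :=
  (∑ ω, f ω) / (Fintype.card (World I K Wd Rest) : ℝ)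

open Classical in
theorem prob_eq_ex (E : World I K Wd Rest → Prop) :
    prob E = ex (fun ω => if E ω then 1 else 0) := by
  unfold prob ex
  rw [Finset.sum_boole]

theorem ex_mono {f g : World I K Wd Rest → ℝ} (h : ∀ ω, f ω ≤ g ω) : ex f ≤ ex g := by
  unfold ex
  gcongr
  exact h _

theorem ex_add (f g : World I K Wd Rest → ℝ) : ex (fun ω => f ω + g ω) = ex f + ex g := by
  unfold ex
  rw [Finset.sum_add_distrib, add_div]

theorem ex_mul (a : ℝ) (f : World I K Wd Rest → ℝ) : ex (fun ω => a * f ω) = a * ex f := by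
  unfold ex
  rw [← Finset.mul_sum, mul_div_assoc]

theorem ex_sum {J : Type} (s : Finset J) (f : J → World I K Wd Rest → ℝ) :
    ex (fun ω => ∑ j ∈ s, f j ω) = ∑ j ∈ s, ex (f j) := by
  unfold ex
  rw [Finset.sum_comm, Finset.sum_div]

omit [Fintype I] [Fintype K] [Fintype Wd] [Fintype Rest] [Nonempty Rest] in
/-- Planting in one half does not change the other. -/
theorem empt_plant_other (o : Wd) (ω : World I K Wd Rest) (i : I) (s : Bool) (U : Finset K) :
    Empt o (plant o ω i s U) i (!s) ↔ Empt o ω i (!s) := by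
  unfold Empt
  refine forall_congr' fun κ => ?_
  have h : ¬ (i = i ∧ (!s) = s ∧ κ ∈ U) := by cases s <;> simp
  have h2 : (plant o ω i s U).2 (i, !s, κ) = ω.2 (i, !s, κ) := if_neg h
  rw [h2]

omit [Fintype I] [Fintype K] [Fintype Wd] [Fintype Rest] [Nonempty Rest] in
/-- Planting something makes a half nonempty, planting nothing does not. -/
theorem empt_plant_same (o : Wd) (ω : World I K Wd Rest) (i : I) (s : Bool) (U : Finset K)
    (h : Empt o ω i s) : Empt o (plant o ω i s U) i s ↔ U = ∅ := by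
  constructor
  · intro h'
    refine Finset.eq_empty_of_forall_notMem fun κ hκ => h' κ ?_
    simp [plant, hκ]
  · rintro rfl κ
    simpa [plant] using h κ

open Classical in
/-- Both halves of `i` empty. -/
theorem prob_both (o : Wd) (i : I) :
    prob (fun ω : World I K Wd Rest => Empt o ω i false ∧ Empt o ω i true) =
      ((1 - 1 / (Fintype.card Wd : ℝ)) ^ Fintype.card K) ^ 2 := by
  have h := prob_empt (K := K) (Wd := Wd) (Rest := Rest) o ({(i, false), (i, true)} : Finset (I × Bool))
  have hc : ({(i, false), (i, true)} : Finset (I × Bool)).card = 2 := by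
    rw [Finset.card_pair]; simp
  rw [hc] at h
  rw [← h]
  congr 1
  funext ω
  simp

open Classical in
theorem prob_one (o : Wd) (p : I × Bool) :
    prob (fun ω : World I K Wd Rest => Empt o ω p.1 p.2) =
      (1 - 1 / (Fintype.card Wd : ℝ)) ^ Fintype.card K := by
  have h := prob_empt (K := K) (Wd := Wd) (Rest := Rest) o ({p} : Finset (I × Bool))
  rw [Finset.card_singleton, pow_one] at h
  rw [← h]
  congr 1
  funext ω
  simp

open Classical in
theorem prob_two (o : Wd) (p q : I × Bool) (hpq : p ≠ q) :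
    prob (fun ω : World I K Wd Rest => Empt o ω p.1 p.2 ∧ Empt o ω q.1 q.2) =
      ((1 - 1 / (Fintype.card Wd : ℝ)) ^ Fintype.card K) ^ 2 := by
  have h := prob_empt (K := K) (Wd := Wd) (Rest := Rest) o ({p, q} : Finset (I × Bool))
  rw [Finset.card_pair hpq] at h
  rw [← h]
  congr 1
  funext ω
  simp

open Classical in
theorem prob_four (o : Wd) (i j : I) (hij : i ≠ j) :
    prob (fun ω : World I K Wd Rest => (Empt o ω i false ∧ Empt o ω i true) ∧
      (Empt o ω j false ∧ Empt o ω j true)) =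
      ((1 - 1 / (Fintype.card Wd : ℝ)) ^ Fintype.card K) ^ 4 := by
  have h := prob_empt (K := K) (Wd := Wd) (Rest := Rest) o
    ({(i, false), (i, true), (j, false), (j, true)} : Finset (I × Bool))
  have hc : ({(i, false), (i, true), (j, false), (j, true)} : Finset (I × Bool)).card = 4 := by
    rw [Finset.card_insert_of_notMem, Finset.card_insert_of_notMem, Finset.card_pair]
    · simp
    · simp [hij]
    · simp [hij]
  rw [hc] at h
  rw [← h]
  congr 1
  funext ω
  simp [and_assoc]

open Classical in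
/-- STEP 1. -/
theorem step_one (o : Wd) (T Wk : World I K Wd Rest → Prop) (Q : ℕ)
    (H : ∀ ω, T ω → ∀ i, Empt o ω i false → Empt o ω i true →
      ∃ (s : Bool) (τ : Finset K), τ.card ≤ Q ∧
        ∀ U : Finset K, U.Nonempty → Disjoint U τ → ¬ Wk (plant o ω i s U))
    (hw : 2 ≤ Fintype.card Wd) (δ : ℝ)
    (hδ : δ = (1 - 1 / (Fintype.card Wd : ℝ)) ^ Fintype.card K) (i : I) :
    ∑ s : Bool, ex (fun ω : World I K Wd Rest =>
      if Wk ω ∧ ¬ Empt o ω i s ∧ Empt o ω i (!s) then 1 else 0) ≤
      δ ^ 2 * ((1 - δ) / δ + Q / (Fintype.card Wd * δ)) +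
        (1 - δ) / δ * ex (fun ω : World I K Wd Rest =>
          if ¬ T ω ∧ (Empt o ω i false ∧ Empt o ω i true) then 1 else 0) := by
  set w : ℝ := (Fintype.card Wd : ℝ) with hwdef
  have hw2 : (2 : ℝ) ≤ w := by rw [hwdef]; exact_mod_cast hw
  have hw1 : 0 < w - 1 := by linarith
  set c : ℝ := 1 / (w - 1) with hc
  have hcpos : 0 < c := by positivity
  have h1c : 1 + c = w / (w - 1) := by rw [hc]; field_simp; ring
  have hδpos : 0 < δ := by
    rw [hδ]
    have : 0 < 1 - 1 / w := by
      rw [sub_pos, div_lt_one (by linarith)]; linarith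
    positivity
  have hS : (1 + c) ^ Fintype.card K = 1 / δ := by
    rw [hδ, h1c, one_div, ← inv_pow]
    congr 1
    have : w ≠ 0 := by linarith
    field_simp
  have hS2 : ∀ κ : K, ∑ U : Finset K, (if κ ∈ U then c ^ U.card else 0) = 1 / (w * δ) := by
    intro κ
    rw [sum_pow_card_mem c hcpos κ, hS, h1c, hc]
    have : w ≠ 0 := by linarith
    field_simp
  -- one side
  have hside : ∀ s : Bool, ex (fun ω : World I K Wd Rest =>
      if Wk ω ∧ ¬ Empt o ω i s ∧ Empt o ω i (!s) then 1 else 0) =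
      ex (fun ω : World I K Wd Rest => if Empt o ω i false ∧ Empt o ω i true then
        ∑ U : Finset K, (if U ≠ ∅ ∧ Wk (plant o ω i s U) then c ^ U.card else 0) else 0) := by
    intro s
    unfold ex
    rw [plant_expand o hw i s]
    congr 1
    refine Finset.sum_congr rfl fun ω _ => ?_
    beta_reduce
    by_cases hs : Empt o ω i s
    · rw [if_pos hs]
      by_cases hs' : Empt o ω i (!s)
      · have hb : Empt o ω i false ∧ Empt o ω i true := by
          cases s
          · exact ⟨hs, hs'⟩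
          · exact ⟨hs', hs⟩
        rw [if_pos hb]
        refine Finset.sum_congr rfl fun U _ => ?_
        rw [empt_plant_other, empt_plant_same o ω i s U hs]
        by_cases h1 : U ≠ ∅ ∧ Wk (plant o ω i s U)
        · rw [if_pos h1, if_pos ⟨h1.2, h1.1, hs'⟩, mul_one]
        · rw [if_neg h1, if_neg (fun h => h1 ⟨h.2.1, h.1⟩), mul_zero]
      · have hb : ¬ (Empt o ω i false ∧ Empt o ω i true) := by
          intro hb
          apply hs'
          cases s
          · exact hb.2
          · exact hb.1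
        rw [if_neg hb]
        refine Finset.sum_eq_zero fun U _ => ?_
        rw [empt_plant_other, if_neg (fun h => hs' h.2.2), mul_zero]
    · have hb : ¬ (Empt o ω i false ∧ Empt o ω i true) := by
        intro hb
        apply hs
        cases s
        · exact hb.1
        · exact hb.2
      rw [if_neg hs, if_neg hb]
  -- bounds for the inner sum
  have hall : ∀ (s : Bool) (ω : World I K Wd Rest),
      ∑ U : Finset K, (if U ≠ ∅ ∧ Wk (plant o ω i s U) then c ^ U.card else 0) ≤ (1 - δ) / δ := by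
    intro s ω
    calc ∑ U : Finset K, (if U ≠ ∅ ∧ Wk (plant o ω i s U) then c ^ U.card else 0)
        ≤ ∑ U : Finset K, (c ^ U.card - if U = ∅ then 1 else 0) := by
          refine Finset.sum_le_sum fun U _ => ?_
          by_cases hU : U = ∅
          · simp [hU]
          · by_cases hk : Wk (plant o ω i s U)
            · simp [hU, hk]
            · simp only [hU, hk, and_false, if_false, sub_zero]
              positivity
      _ = (1 - δ) / δ := by
          rw [Finset.sum_sub_distrib, sum_pow_card, hS, Finset.sum_ite_eq' Finset.univ ∅]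
          simp only [Finset.mem_univ, if_true]
          field_simp
  have hgood : ∀ (s : Bool) (ω : World I K Wd Rest) (τ : Finset K), τ.card ≤ Q →
      (∀ U : Finset K, U.Nonempty → Disjoint U τ → ¬ Wk (plant o ω i s U)) →
      ∑ U : Finset K, (if U ≠ ∅ ∧ Wk (plant o ω i s U) then c ^ U.card else 0) ≤
        Q / (w * δ) := by
    intro s ω τ hτ hU
    calc ∑ U : Finset K, (if U ≠ ∅ ∧ Wk (plant o ω i s U) then c ^ U.card else 0)
        ≤ ∑ U : Finset K, ∑ κ ∈ τ, (if κ ∈ U then c ^ U.card else 0) := by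
          refine Finset.sum_le_sum fun U _ => ?_
          by_cases hk : U ≠ ∅ ∧ Wk (plant o ω i s U)
          · rw [if_pos hk]
            have hnd : ¬ Disjoint U τ := fun hd =>
              hU U (Finset.nonempty_iff_ne_empty.mpr hk.1) hd hk.2
            obtain ⟨κ, hκU, hκτ⟩ := Finset.not_disjoint_iff.mp hnd
            calc c ^ U.card = (if κ ∈ U then c ^ U.card else 0) := (if_pos hκU).symm
              _ ≤ _ := Finset.single_le_sum (f := fun κ => if κ ∈ U then c ^ U.card else 0)
                  (fun κ _ => by split_ifs <;> positivity) hκτ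
          · rw [if_neg hk]
            exact Finset.sum_nonneg fun κ _ => by split_ifs <;> positivity
      _ = ∑ κ ∈ τ, ∑ U : Finset K, (if κ ∈ U then c ^ U.card else 0) := Finset.sum_comm
      _ = τ.card * (1 / (w * δ)) := by
          rw [Finset.sum_congr rfl fun κ _ => hS2 κ, Finset.sum_const, nsmul_eq_mul]
      _ ≤ Q * (1 / (w * δ)) := by
          have : (τ.card : ℝ) ≤ Q := by exact_mod_cast hτ
          gcongr
      _ = Q / (w * δ) := by ring
  have hδ1 : δ ≤ 1 := by
    have h := one_le_pow₀ (n := Fintype.card K) (show 1 ≤ 1 + c by linarith)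
    rw [hS, le_div_iff₀ hδpos] at h
    linarith
  have hpt : ∀ ω : World I K Wd Rest, (if Empt o ω i false ∧ Empt o ω i true then
        ∑ U : Finset K, (if U ≠ ∅ ∧ Wk (plant o ω i false U) then c ^ U.card else 0) else 0) +
      (if Empt o ω i false ∧ Empt o ω i true then
        ∑ U : Finset K, (if U ≠ ∅ ∧ Wk (plant o ω i true U) then c ^ U.card else 0) else 0) ≤
      ((1 - δ) / δ + Q / (w * δ)) * (if Empt o ω i false ∧ Empt o ω i true then 1 else 0) +
      (1 - δ) / δ * (if ¬ T ω ∧ (Empt o ω i false ∧ Empt o ω i true) then 1 else 0) := by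
    intro ω
    have hq : 0 ≤ (Q : ℝ) / (w * δ) := by positivity
    by_cases hb : Empt o ω i false ∧ Empt o ω i true
    · simp only [if_pos hb]
      by_cases hT : T ω
      · obtain ⟨s₀, τ, hτ, hU⟩ := H ω hT i hb.1 hb.2
        have h1 := hgood s₀ ω τ hτ hU
        have h2 := hall (!s₀) ω
        rw [if_neg (fun h => h.1 hT)]
        cases s₀
        · simp only [Bool.not_false] at h2
          linarith
        · simp only [Bool.not_true] at h2
          linarith
      · have h1 := hall false ω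
        have h2 := hall true ω
        rw [if_pos ⟨hT, hb⟩]
        linarith
    · rw [if_neg hb, if_neg hb, if_neg hb, if_neg (fun h => hb h.2)]
      simp
  rw [Fintype.sum_bool, hside, hside, add_comm, ← ex_add]
  refine (ex_mono hpt).trans ?_
  have hp : ex (fun ω : World I K Wd Rest => if Empt o ω i false ∧ Empt o ω i true then
      (1 : ℝ) else 0) = δ ^ 2 := by
    rw [hδ, ← prob_both (I := I) (Rest := Rest) o i, prob_eq_ex]
    exact congrArg ex (funext fun ω => ite_inst _ _)
  rw [ex_add, ex_mul, ex_mul, hp]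
  linarith

open Classical in
/-- The number of empty half-blocks. -/
noncomputable def cntY (o : Wd) (ω : World I K Wd Rest) : ℝ :=
  ∑ p : I × Bool, if Empt o ω p.1 p.2 then (1 : ℝ) else 0

open Classical in
/-- The number of instances with both halves empty. -/
noncomputable def cntB (o : Wd) (ω : World I K Wd Rest) : ℝ :=
  ∑ i : I, if Empt o ω i false ∧ Empt o ω i true then (1 : ℝ) else 0

open Classical in
theorem ex_cntY_sq (o : Wd) (δ : ℝ)
    (hδ : δ = (1 - 1 / (Fintype.card Wd : ℝ)) ^ Fintype.card K) :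
    ex (fun ω : World I K Wd Rest => cntY o ω ^ 2) ≤
      2 * (Fintype.card I : ℝ) * δ + (2 * (Fintype.card I : ℝ) * δ) ^ 2 := by
  have h1 : ∀ ω : World I K Wd Rest, cntY o ω ^ 2 = ∑ p : I × Bool, ∑ q : I × Bool,
      if Empt o ω p.1 p.2 ∧ Empt o ω q.1 q.2 then (1 : ℝ) else 0 := by
    intro ω
    rw [sq, cntY, Finset.sum_mul_sum]
    refine Finset.sum_congr rfl fun p _ => Finset.sum_congr rfl fun q _ => ?_
    by_cases hp : Empt o ω p.1 p.2 <;> by_cases hq : Empt o ω q.1 q.2 <;> simp [hp, hq]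
  have h2 : ex (fun ω : World I K Wd Rest => cntY o ω ^ 2) = ∑ p : I × Bool, ∑ q : I × Bool,
      prob (fun ω : World I K Wd Rest => Empt o ω p.1 p.2 ∧ Empt o ω q.1 q.2) := by
    simp only [h1]
    rw [ex_sum]
    refine Finset.sum_congr rfl fun p _ => ?_
    rw [ex_sum]
    refine Finset.sum_congr rfl fun q _ => ?_
    rw [prob_eq_ex]
    exact congrArg ex (funext fun ω => ite_inst _ _)
  rw [h2]
  have h3 : ∀ p q : I × Bool,
      prob (fun ω : World I K Wd Rest => Empt o ω p.1 p.2 ∧ Empt o ω q.1 q.2) ≤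
        δ ^ 2 + if p = q then δ else 0 := by
    intro p q
    have hδ0 : 0 ≤ δ := by
      rw [hδ, ← prob_one (I := I) (K := K) (Wd := Wd) (Rest := Rest) o p]
      unfold prob
      positivity
    by_cases h : p = q
    · subst h
      simp only [and_self, if_true]
      rw [prob_one, ← hδ]
      nlinarith
    · rw [prob_two o p q h, ← hδ, if_neg h, add_zero]
  calc ∑ p : I × Bool, ∑ q : I × Bool,
      prob (fun ω : World I K Wd Rest => Empt o ω p.1 p.2 ∧ Empt o ω q.1 q.2)
      ≤ ∑ p : I × Bool, ∑ q : I × Bool, (δ ^ 2 + if p = q then δ else 0) :=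
        Finset.sum_le_sum fun p _ => Finset.sum_le_sum fun q _ => h3 p q
    _ = _ := by
        simp only [Finset.sum_add_distrib, Finset.sum_const, Finset.card_univ,
          Fintype.card_prod, Fintype.card_bool, nsmul_eq_mul, Nat.cast_mul, Nat.cast_ofNat,
          Finset.sum_ite_eq, Finset.mem_univ, if_true]
        ring

open Classical in
theorem ex_cntB_sq (o : Wd) (δ : ℝ)
    (hδ : δ = (1 - 1 / (Fintype.card Wd : ℝ)) ^ Fintype.card K) :
    ex (fun ω : World I K Wd Rest => cntB o ω ^ 2) ≤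
      (Fintype.card I : ℝ) * δ ^ 2 + ((Fintype.card I : ℝ) * δ ^ 2) ^ 2 := by
  have h1 : ∀ ω : World I K Wd Rest, cntB o ω ^ 2 = ∑ i : I, ∑ j : I,
      if (Empt o ω i false ∧ Empt o ω i true) ∧ (Empt o ω j false ∧ Empt o ω j true)
        then (1 : ℝ) else 0 := by
    intro ω
    rw [sq, cntB, Finset.sum_mul_sum]
    refine Finset.sum_congr rfl fun p _ => Finset.sum_congr rfl fun q _ => ?_
    by_cases hp : Empt o ω p false ∧ Empt o ω p true <;>
      by_cases hq : Empt o ω q false ∧ Empt o ω q true <;> simp [hp, hq]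
  have h2 : ex (fun ω : World I K Wd Rest => cntB o ω ^ 2) = ∑ i : I, ∑ j : I,
      prob (fun ω : World I K Wd Rest =>
        (Empt o ω i false ∧ Empt o ω i true) ∧ (Empt o ω j false ∧ Empt o ω j true)) := by
    simp only [h1]
    rw [ex_sum]
    refine Finset.sum_congr rfl fun p _ => ?_
    rw [ex_sum]
    refine Finset.sum_congr rfl fun q _ => ?_
    rw [prob_eq_ex]
    exact congrArg ex (funext fun ω => ite_inst _ _)
  rw [h2]
  have h3 : ∀ i j : I,
      prob (fun ω : World I K Wd Rest =>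
        (Empt o ω i false ∧ Empt o ω i true) ∧ (Empt o ω j false ∧ Empt o ω j true)) ≤
        δ ^ 4 + if i = j then δ ^ 2 else 0 := by
    intro i j
    by_cases h : i = j
    · subst h
      simp only [and_self, if_true]
      rw [prob_both, ← hδ]
      have : 0 ≤ δ ^ 4 := by positivity
      linarith
    · rw [prob_four o i j h, ← hδ, if_neg h, add_zero]
  calc ∑ i : I, ∑ j : I, prob (fun ω : World I K Wd Rest =>
        (Empt o ω i false ∧ Empt o ω i true) ∧ (Empt o ω j false ∧ Empt o ω j true))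
      ≤ ∑ i : I, ∑ j : I, (δ ^ 4 + if i = j then δ ^ 2 else 0) :=
        Finset.sum_le_sum fun p _ => Finset.sum_le_sum fun q _ => h3 p q
    _ = _ := by
        simp only [Finset.sum_add_distrib, Finset.sum_const, Finset.card_univ,
          nsmul_eq_mul, Finset.sum_ite_eq, Finset.mem_univ, if_true]
        ring

theorem ex_one [Nonempty Wd] : ex (fun _ : World I K Wd Rest => (1 : ℝ)) = 1 := by
  classical
  unfold ex
  rw [Finset.sum_const, Finset.card_univ, nsmul_eq_mul, mul_one]
  exact div_self (by exact_mod_cast Fintype.card_ne_zero)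

open Classical in
theorem prob_not [Nonempty Wd] (E : World I K Wd Rest → Prop) :
    prob (fun ω => ¬ E ω) = 1 - prob E := by
  have h := ex_one (I := I) (K := K) (Wd := Wd) (Rest := Rest)
  have h2 : ex (fun _ : World I K Wd Rest => (1 : ℝ)) =
      ex (fun ω => (if E ω then (1 : ℝ) else 0) + if ¬ E ω then (1 : ℝ) else 0) := by
    congr 1
    funext ω
    by_cases hE : E ω <;> simp [hE]
  rw [ex_add] at h2
  have e1 : prob (fun ω => ¬ E ω) = ex (fun ω => if ¬ E ω then (1 : ℝ) else 0) := by
    rw [prob_eq_ex]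
    exact congrArg ex (funext fun ω => ite_inst _ _)
  rw [e1, prob_eq_ex]
  linarith

/-- The key inequality. -/
theorem key (o : Wd) (T Wk : World I K Wd Rest → Prop) (Q : ℕ)
    (H : ∀ ω, T ω → ∀ i, Empt o ω i false → Empt o ω i true →
      ∃ (s : Bool) (τ : Finset K), τ.card ≤ Q ∧
        ∀ U : Finset K, U.Nonempty → Disjoint U τ → ¬ Wk (plant o ω i s U))
    (hw : 2 ≤ Fintype.card Wd) (δ : ℝ)
    (hδ : δ = (1 - 1 / (Fintype.card Wd : ℝ)) ^ Fintype.card K)
    (h1 : δ ≤ 3 / 8) (h2 : 1 ≤ 2 * (Fintype.card I : ℝ) * δ)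
    (h3 : (Fintype.card I : ℝ) * δ ^ 2 ≤ 1) (h4 : 8 * Q ≤ Fintype.card Wd)
    (h5 : 511 / 512 ≤ prob Wk) :
    (Fintype.card I : ℝ) * δ ^ 2 / 32 ≤ prob (fun ω => ¬ T ω) := by
  classical
  have : Nonempty Wd := ⟨o⟩
  set N : ℝ := (Fintype.card I : ℝ) with hN
  have hN0 : 0 ≤ N := by rw [hN]; positivity
  have hw2 : (2 : ℝ) ≤ (Fintype.card Wd : ℝ) := by exact_mod_cast hw
  have hδpos : 0 < δ := by
    rw [hδ]
    have : 0 < 1 - 1 / (Fintype.card Wd : ℝ) := by
      rw [sub_pos, div_lt_one (by linarith)]; linarith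
    positivity
  have hNδ : 1 / 2 ≤ N * δ := by linarith
  have hQw : (Q : ℝ) / (Fintype.card Wd : ℝ) ≤ 1 / 8 := by
    rw [div_le_iff₀ (by linarith)]
    have : (8 * Q : ℝ) ≤ (Fintype.card Wd : ℝ) := by exact_mod_cast h4
    linarith
  set D : ℝ := ex (fun ω : World I K Wd Rest => cntB o ω * if ¬ T ω then (1 : ℝ) else 0) with hD
  have hD0 : 0 ≤ D := by
    rw [hD]
    unfold ex cntB
    positivity
  -- E[B; not T]
  have hDsum : ∑ i : I, ex (fun ω : World I K Wd Rest =>
      if ¬ T ω ∧ (Empt o ω i false ∧ Empt o ω i true) then (1 : ℝ) else 0) = D := by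
    rw [hD, ← ex_sum]
    congr 1
    funext ω
    rw [cntB, Finset.sum_mul]
    refine Finset.sum_congr rfl fun i _ => ?_
    by_cases hT : T ω <;> by_cases hb : Empt o ω i false ∧ Empt o ω i true <;> simp [hT, hb]
  -- the part outside Wk
  have hu : ex (fun ω : World I K Wd Rest => if ¬ Wk ω then (1 : ℝ) else 0) ≤ 1 / 512 := by
    have e1 : prob (fun ω => ¬ Wk ω) = ex (fun ω => if ¬ Wk ω then (1 : ℝ) else 0) := by
      rw [prob_eq_ex]
      exact congrArg ex (funext fun ω => ite_inst _ _)
    rw [← e1, prob_not]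
    linarith
  set y : ℝ := 2 * N * δ with hy
  have hy1 : 1 ≤ y := h2
  have hYW : ex (fun ω : World I K Wd Rest => cntY o ω * if ¬ Wk ω then (1 : ℝ) else 0) ≤
      5 / 32 * (N * δ) := by
    have e1 : ∀ ω : World I K Wd Rest, cntY o ω * (if ¬ Wk ω then (1 : ℝ) else 0) ≤
        1 / (32 * y) * cntY o ω ^ 2 + 8 * y * (if ¬ Wk ω then (1 : ℝ) else 0) := by
      intro ω
      have hypos : 0 < y := by linarith
      by_cases hk : Wk ω
      · simp only [hk, not_true, if_false, mul_zero, add_zero]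
        positivity
      · simp only [hk, not_false_iff, if_true, mul_one]
        have : 0 ≤ 1 / (32 * y) * (cntY o ω - 16 * y) ^ 2 := by positivity
        have e : 1 / (32 * y) * (cntY o ω - 16 * y) ^ 2 =
            1 / (32 * y) * cntY o ω ^ 2 - cntY o ω + 8 * y := by
          field_simp
          ring
        linarith
    refine (ex_mono e1).trans ?_
    rw [ex_add, ex_mul, ex_mul]
    have e2 := ex_cntY_sq (I := I) (K := K) (Wd := Wd) (Rest := Rest) o δ hδ
    have e3 : ex (fun ω : World I K Wd Rest => cntY o ω ^ 2) ≤ 2 * y ^ 2 := by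
      refine e2.trans ?_
      nlinarith
    have e4 : 1 / (32 * y) * ex (fun ω : World I K Wd Rest => cntY o ω ^ 2) ≤ y / 16 := by
      rw [one_div, inv_mul_le_iff₀ (by linarith)]
      nlinarith
    have e5 : 8 * y * ex (fun ω : World I K Wd Rest => if ¬ Wk ω then (1 : ℝ) else 0) ≤ y / 64 := by
      nlinarith
    have : y / 16 + y / 64 = 5 / 32 * (N * δ) := by rw [hy]; ring
    linarith
  -- the mean of Z
  have hZ : ∀ (i : I) (s : Bool), ex (fun ω : World I K Wd Rest =>
      if ¬ Empt o ω i s ∧ Empt o ω i (!s) then (1 : ℝ) else 0) = δ - δ ^ 2 := by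
    intro i s
    have e1 := prob_one (I := I) (K := K) (Wd := Wd) (Rest := Rest) o (i, !s)
    have e2 := prob_both (I := I) (K := K) (Wd := Wd) (Rest := Rest) o i
    rw [← hδ] at e1 e2
    rw [prob_eq_ex] at e1 e2
    have e3 : (fun ω : World I K Wd Rest => if Empt o ω (i, !s).1 (i, !s).2 then (1 : ℝ) else 0) =
        fun ω => (if ¬ Empt o ω i s ∧ Empt o ω i (!s) then (1 : ℝ) else 0) +
          (if Empt o ω i false ∧ Empt o ω i true then (1 : ℝ) else 0) := by
      funext ω
      cases s <;> by_cases ha : Empt o ω i false <;> by_cases hb : Empt o ω i true <;>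
        simp [ha, hb]
    rw [e3, ex_add] at e1
    have e4 : ex (fun ω : World I K Wd Rest =>
        if Empt o ω i false ∧ Empt o ω i true then (1 : ℝ) else 0) = δ ^ 2 := by
      rw [← e2]
      exact congrArg ex (funext fun ω => ite_inst _ _)
    linarith
  have hsplit : ∑ i : I, ∑ s : Bool, ex (fun ω : World I K Wd Rest =>
      if ¬ Empt o ω i s ∧ Empt o ω i (!s) then (1 : ℝ) else 0) ≤
      ∑ i : I, ∑ s : Bool, ex (fun ω : World I K Wd Rest =>
        if Wk ω ∧ ¬ Empt o ω i s ∧ Empt o ω i (!s) then (1 : ℝ) else 0) +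
      ex (fun ω : World I K Wd Rest => cntY o ω * if ¬ Wk ω then (1 : ℝ) else 0) := by
    have e1 : ∑ i : I, ∑ s : Bool, ex (fun ω : World I K Wd Rest =>
        if ¬ Wk ω ∧ ¬ Empt o ω i s ∧ Empt o ω i (!s) then (1 : ℝ) else 0) ≤
        ex (fun ω : World I K Wd Rest => cntY o ω * if ¬ Wk ω then (1 : ℝ) else 0) := by
      have e0 : ∑ i : I, ∑ s : Bool, ex (fun ω : World I K Wd Rest =>
          if ¬ Wk ω ∧ ¬ Empt o ω i s ∧ Empt o ω i (!s) then (1 : ℝ) else 0) =
          ex (fun ω : World I K Wd Rest => ∑ i : I, ∑ s : Bool,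
            if ¬ Wk ω ∧ ¬ Empt o ω i s ∧ Empt o ω i (!s) then (1 : ℝ) else 0) := by
        rw [ex_sum]
        refine Finset.sum_congr rfl fun i _ => ?_
        rw [ex_sum]
      rw [e0]
      refine ex_mono fun ω => ?_
      rw [cntY, Fintype.sum_prod_type, Finset.sum_mul]
      refine Finset.sum_le_sum fun i _ => ?_
      rw [Fintype.sum_bool, Fintype.sum_bool]
      by_cases hk : Wk ω <;> by_cases ha : Empt o ω i false <;> by_cases hb : Empt o ω i true <;>
        simp [ha, hb, hk]
    have e2 : ∀ (i : I) (s : Bool), ex (fun ω : World I K Wd Rest =>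
        if ¬ Empt o ω i s ∧ Empt o ω i (!s) then (1 : ℝ) else 0) =
        ex (fun ω : World I K Wd Rest =>
          if Wk ω ∧ ¬ Empt o ω i s ∧ Empt o ω i (!s) then (1 : ℝ) else 0) +
        ex (fun ω : World I K Wd Rest =>
          if ¬ Wk ω ∧ ¬ Empt o ω i s ∧ Empt o ω i (!s) then (1 : ℝ) else 0) := by
      intro i s
      rw [← ex_add]
      congr 1
      funext ω
      by_cases hk : Wk ω <;> simp [hk]
    simp only [e2, Finset.sum_add_distrib] at e1 ⊢
    linarith
  have hstep : ∑ i : I, ∑ s : Bool, ex (fun ω : World I K Wd Rest =>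
        if Wk ω ∧ ¬ Empt o ω i s ∧ Empt o ω i (!s) then (1 : ℝ) else 0) ≤
      N * (δ ^ 2 * ((1 - δ) / δ + Q / (Fintype.card Wd * δ))) + (1 - δ) / δ * D := by
    calc _ ≤ ∑ i : I, (δ ^ 2 * ((1 - δ) / δ + Q / (Fintype.card Wd * δ)) +
        (1 - δ) / δ * ex (fun ω : World I K Wd Rest =>
          if ¬ T ω ∧ (Empt o ω i false ∧ Empt o ω i true) then 1 else 0)) :=
          Finset.sum_le_sum fun i _ => step_one o T Wk Q H hw δ hδ i
      _ = _ := by
          rw [Finset.sum_add_distrib, ← hDsum, Finset.mul_sum, Finset.sum_const, Finset.card_univ,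
            nsmul_eq_mul]
  have hmean : ∑ i : I, ∑ s : Bool, ex (fun ω : World I K Wd Rest =>
      if ¬ Empt o ω i s ∧ Empt o ω i (!s) then (1 : ℝ) else 0) = 2 * N * (δ - δ ^ 2) := by
    simp only [hZ, Finset.sum_const, Finset.card_univ, Fintype.card_bool, nsmul_eq_mul]
    push_cast
    ring
  have hmain : N * δ / 4 ≤ (1 - δ) / δ * D := by
    have e1 : N * (δ ^ 2 * ((1 - δ) / δ + Q / (Fintype.card Wd * δ))) =
        N * δ * (1 - δ) + N * δ * (Q / Fintype.card Wd) := by
      have : (Fintype.card Wd : ℝ) ≠ 0 := by linarith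
      field_simp
    have e2 : N * δ * (Q / Fintype.card Wd) ≤ N * δ * (1 / 8) := by gcongr
    have e3 : N * δ * (5 / 8) ≤ N * δ * (1 - δ) := by
      have : (5 : ℝ) / 8 ≤ 1 - δ := by linarith
      gcongr
    rw [hmean] at hsplit
    have e4 : 2 * N * (δ - δ ^ 2) = 2 * (N * δ * (1 - δ)) := by ring
    nlinarith
  have hDlow : N * δ ^ 2 / 4 ≤ D := by
    have e1 : (1 - δ) / δ * D ≤ 1 / δ * D := by
      have : (1 - δ) / δ ≤ 1 / δ := by gcongr; linarith
      gcongr
    have e2 : N * δ / 4 ≤ 1 / δ * D := hmain.trans e1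
    rw [one_div, inv_mul_eq_div, le_div_iff₀ hδpos] at e2
    nlinarith
  -- STEP 3
  have hDup : D ≤ N * δ ^ 2 / 8 + 4 * prob (fun ω => ¬ T ω) := by
    have e1 : ∀ ω : World I K Wd Rest, cntB o ω * (if ¬ T ω then (1 : ℝ) else 0) ≤
        1 / 16 * cntB o ω ^ 2 + 4 * (if ¬ T ω then (1 : ℝ) else 0) := by
      intro ω
      by_cases hk : T ω
      · simp only [hk, not_true, if_false, mul_zero, add_zero]
        positivity
      · simp only [hk, not_false_iff, if_true, mul_one]
        nlinarith [sq_nonneg (cntB o ω - 8)]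
    rw [hD]
    refine (ex_mono e1).trans ?_
    rw [ex_add, ex_mul, ex_mul]
    have e2 := ex_cntB_sq (I := I) (K := K) (Wd := Wd) (Rest := Rest) o δ hδ
    have e3 : prob (fun ω : World I K Wd Rest => ¬ T ω) =
        ex (fun ω => if ¬ T ω then (1 : ℝ) else 0) := by
      rw [prob_eq_ex]
      exact congrArg ex (funext fun ω => ite_inst _ _)
    rw [← e3]
    have e4 : 0 ≤ N * δ ^ 2 := by positivity
    nlinarith
  linarith

/-- Some instance has both halves empty: union bound. -/
theorem prob_uncovered_le (o : Wd) :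
    prob (fun ω : World I K Wd Rest => ∃ i, Empt o ω i false ∧ Empt o ω i true) ≤
      (Fintype.card I : ℝ) * ((1 - 1 / (Fintype.card Wd : ℝ)) ^ Fintype.card K) ^ 2 := by
  classical
  have h1 : ∀ ω : World I K Wd Rest,
      (if ∃ i, Empt o ω i false ∧ Empt o ω i true then (1 : ℝ) else 0) ≤
        ∑ i : I, (if Empt o ω i false ∧ Empt o ω i true then (1 : ℝ) else 0) := by
    intro ω
    by_cases h : ∃ i, Empt o ω i false ∧ Empt o ω i true
    · obtain ⟨i, hi⟩ := h
      rw [if_pos ⟨i, hi⟩]
      calc (1 : ℝ) = (if Empt o ω i false ∧ Empt o ω i true then (1 : ℝ) else 0) := (if_pos hi).symm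
        _ ≤ _ := Finset.single_le_sum (f := fun i =>
            if Empt o ω i false ∧ Empt o ω i true then (1 : ℝ) else 0)
            (fun κ _ => by split_ifs <;> norm_num) (Finset.mem_univ i)
    · rw [if_neg h]
      exact Finset.sum_nonneg fun i _ => by split_ifs <;> norm_num
  rw [prob_eq_ex]
  have h2 := ex_mono h1
  rw [ex_sum] at h2
  have h3 : ∀ i : I, ex (fun ω : World I K Wd Rest =>
      if Empt o ω i false ∧ Empt o ω i true then (1 : ℝ) else 0) =
      ((1 - 1 / (Fintype.card Wd : ℝ)) ^ Fintype.card K) ^ 2 := by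
    intro i
    rw [← prob_both (I := I) (Rest := Rest) o i, prob_eq_ex]
    exact congrArg ex (funext fun ω => ite_inst _ _)
  simp only [h3, Finset.sum_const, Finset.card_univ, nsmul_eq_mul] at h2
  convert h2 using 4

end

end Pool.Agent.TFR21
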