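import Pool.Agent.TFR21.Glue
import Pool.Agent.TFR21.Growth
import Pool.Agent.TFR21.Key
import Pool.Agent.TFR21.Bounds

/-!
# Module TFR21/KeyWin

PROOF of `key_window`. Let `n` be large (`growth`, `growth_ql`), `1 ≤ k ≤ n`, `R` given; take `glue`
from `exists_glue`, `o = fun _ => true`. Then `Succ (glue R ω) n k i s ↔ ¬ Empt o ω i s`. Apply
`key` with `T ω = Tot F (S.orc A (glue R ω)) (ql n)`,
`Wk ω = Works S F M A (glue R ω) n k`, `Q = M.bound x * (PT.eval (M.bound x) + 1)`; the number
`M.bound (inst n i)` is the same for all instances `i` of length `2 k` (it depends only on the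
length of the input), so `Q` is well defined.
`H`: let `T ω` hold and both halves of `i` be empty. Let `X = S.orc A (glue R ω)`, `x = inst n i`.
Choose `W π` with `F X (π, W π) = true` for `π.length ≤ ql n`; as questions have length
`≤ M.bound x ≤ ql n`, `Valid F M X W x`. Let `a = M.run X W x`, `T₀` from `run_transfer`, `s = !a`,
`τ` = the set of the candidates `κ` such that some `posn k n (i, s, κ) b` is the coordinate
(`S.c y = some ..`) of some `y ∈ T₀`; `τ.card ≤ T₀.card` since each `y` gives at most one `κ`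
(`posn_inj`). For `U ≠ ∅` disjoint from `τ` let `ω' = plant o ω i s U`, `X' = S.orc A (glue R ω')`:
`glue R ω'` differs from `glue R ω` only at the coordinates `posn k n (i, s, κ) b` with `κ ∈ U`, so
`X'` agrees with `X` on `T₀`; so `Valid F M X' W x` and the output is `a`, but the half `a` of `i`
is empty in `ω'`. Hence not `Wk ω'`.
The numerical hypotheses are `del_le` and `le_del`, see `Bounds`.
`uncovered_window`: `prob_uncovered_le`.
-/

set_option autoImplicit false

namespace Pool.Agent.TFR21

open Pool.Agent.PT Pool.Agent.TMB67 Pool.Agent.POpt70 Pool.Agent.ROr14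
open N68a2faeb N793a5b8e N487b59b3 MeasureTheory

theorem succ_iff_not_empt {k n : ℕ} {Rest : Type}
    {glue : (List Bool → Bool) → World (Ins k) (Can k n) (Wrd n) Rest → List Bool → Bool}
    (h2 : ∀ R ω c b, glue R ω (posn k n c b) = ω.2 c b) (R : List Bool → Bool)
    (ω : World (Ins k) (Can k n) (Wrd n) Rest) (i : Ins k) (s : Bool) :
    Succ (glue R ω) n k i.1 s ↔ ¬ Empt (fun _ => true) ω i s := by
  unfold Succ Empt
  constructor
  · rintro ⟨t, ht, u, hu, hb⟩ hE
    apply hE (⟨t, ht⟩, ⟨u, hu⟩)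
    funext b
    have h := h2 R ω (i, s, (⟨t, ht⟩, ⟨u, hu⟩)) b
    rw [← h]
    exact hb b.1 b.2
  · intro h
    push Not at h
    obtain ⟨κ, hκ⟩ := h
    refine ⟨κ.1.1, κ.1.2, κ.2.1, κ.2.2, ?_⟩
    intro b hb
    have h := h2 R ω (i, s, κ) ⟨b, hb⟩
    rw [hκ] at h
    exact h

theorem plant_snd_of_ne {I K Wd Rest : Type} (o : Wd) (ω : World I K Wd Rest) (i : I) (s : Bool)
    (U : Finset K) (c : I × Bool × K) (h : ¬ (c.1 = i ∧ c.2.1 = s ∧ c.2.2 ∈ U)) :
    (plant o ω i s U).2 c = ω.2 c := by
  unfold plant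
  simp only
  rw [if_neg h]

theorem prob_congr {I K Wd Rest : Type} [Fintype I] [Fintype K] [Fintype Wd] [Fintype Rest]
    {E E' : World I K Wd Rest → Prop} (h : ∀ ω, E ω ↔ E' ω) : prob E = prob E' := by
  have : E = E' := funext fun ω => propext (h ω)
  rw [this]

/-- An algorithm that works with conditional probability near `1` at level `k` forces the search
problem to be non-total with conditional probability about `(4/e^2)^k`. -/
theorem key_window (S : Acc) (A : List Bool → Bool)
    {F : (List Bool → Bool) → List Bool × List Bool → Bool} {PT : Polynomial ℕ}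
    (hloc : Local F PT) (M : Algorithm) : ∃ n1, ∀ n ≥ n1, ∀ k, 1 ≤ k → k ≤ n →
      ∀ R : List Bool → Bool, 511 / 512 ≤ frac (win n) {R' | Works S F M A R' n k} R →
        4 ^ k * del n k ^ 2 / 32 ≤ frac (win n) {R' | Tot F (S.orc A R') (ql n)}ᶜ R := by
  classical
  obtain ⟨na, hna⟩ := growth M PT
  obtain ⟨nb, hnb⟩ := growth_ql PT
  refine ⟨max na nb, ?_⟩
  intro n hn k hk1 hkn R hW
  have hn1 : na ≤ n := le_trans (le_max_left _ _) hn
  have hn2 : nb ≤ n := le_trans (le_max_right _ _) hn
  obtain ⟨Rest, _, _, glue, g1, g2, g3, g4⟩ := exists_glue hkn (hnb n hn2).2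
  obtain ⟨o, ho⟩ : ∃ o : Wrd n, o = fun _ => true := ⟨_, rfl⟩
  have hsucc : ∀ (ω : World (Ins k) (Can k n) (Wrd n) Rest) (i : Ins k) (s : Bool),
      Succ (glue R ω) n k i.1 s ↔ ¬ Empt o ω i s := by
    intro ω i s
    rw [ho]
    exact succ_iff_not_empt g2 R ω i s
  have hcI : Fintype.card (Ins k) = 4 ^ k := card_ins k
  have hcK : Fintype.card (Can k n) = k * 2 ^ (n * n) := card_can k n
  have hcW : Fintype.card (Wrd n) = 2 ^ (n * n) := card_wrd n
  have hδ : del n k = (1 - 1 / (Fintype.card (Wrd n) : ℝ)) ^ Fintype.card (Can k n) := by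
    rw [hcK, hcW]
    unfold del
    push_cast
    rfl
  obtain ⟨b1, b2, b3⟩ := del_bounds hk1 hkn
  have hnn : 1 ≤ n * n := by
    have : 1 ≤ n := hk1.trans hkn
    exact Nat.mul_pos this this
  have hmain := key (Rest := Rest) o
    (fun ω : World (Ins k) (Can k n) (Wrd n) Rest => Tot F (S.orc A (glue R ω)) (ql n))
    (fun ω => Works S F M A (glue R ω) n k) (2 ^ (n * n) / 8) ?_ ?_ (del n k) hδ b1 ?_ ?_ ?_ ?_
  · rw [g4, hcI] at *
    push_cast at hmain
    exact hmain
  · -- the hypothesis `H`
    intro ω hT i he0 he1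
    have hilen : i.1.length = 2 * k := i.2
    obtain ⟨c1, c2, c3⟩ := hna n hn1 i.1 (by omega)
    set X : List Bool → Bool := S.orc A (glue R ω) with hX
    set x : List Bool := inst n i.1 with hx
    have hTX : Tot F X (ql n) := hT
    obtain ⟨W, hWp⟩ : ∃ W : List Bool → List Bool, ∀ π, π.length ≤ ql n → F X (π, W π) = true := by
      refine ⟨fun π => if h : π.length ≤ ql n then (hTX π h).choose else [], ?_⟩
      intro π hπ
      simp only [hπ, dif_pos]
      exact (hTX π hπ).choose_spec
    have hv : Valid F M X W x := by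
      intro m hm π hπ
      apply hWp
      have hl := congrArg List.length hπ
      rw [List.length_take, List.length_cons] at hl
      have : M.bound x ≤ ql n := c1
      omega
    obtain ⟨T0, hT1, hT2, hT3⟩ := run_transfer hloc M hv
    set a : Bool := M.run X W x with ha
    refine ⟨!a, Finset.univ.filter (fun κ => ∃ b, ∃ y ∈ T0, S.c y = some (posn k n (i, !a, κ) b)),
      ?_, ?_⟩
    · have h1 : (Finset.univ.filter
          (fun κ => ∃ b, ∃ y ∈ T0, S.c y = some (posn k n (i, !a, κ) b))).card ≤ T0.card := by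
        refine Finset.card_le_card_of_forall_subsingleton
          (fun κ y => ∃ b, S.c y = some (posn k n (i, !a, κ) b)) ?_ ?_
        · intro κ hκ
          rw [Finset.mem_filter] at hκ
          obtain ⟨_, b, y, hy, hyb⟩ := hκ
          exact ⟨y, hy, b, hyb⟩
        · intro y _ κ hκ κ' hκ'
          obtain ⟨_, b, hb⟩ := hκ
          obtain ⟨_, b', hb'⟩ := hκ'
          rw [hb, Option.some_inj] at hb'
          have := (posn_inj hb').1
          simpa using this
      refine h1.trans ?_
      rw [Nat.le_div_iff_mul_le (by norm_num)]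
      calc T0.card * 8 ≤ M.bound x * (PT.eval (M.bound x) + 1) * 8 :=
            Nat.mul_le_mul_right 8 hT1
        _ = 8 * (M.bound x * (PT.eval (M.bound x) + 1)) := by ring
        _ ≤ 2 ^ (n * n) := c2
    · intro U _ hdis hWk
      obtain ⟨ω', hω'⟩ : ∃ ω', ω' = plant o ω i (!a) U := ⟨_, rfl⟩
      rw [← hω'] at hWk
      have hagree : ∀ y ∈ T0, S.orc A (glue R ω') y = X y := by
        intro y hy
        rw [hX]
        apply mix_congr
        intro z hz
        by_cases hzc : ∃ c b, z = posn k n c b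
        · obtain ⟨c, b, rfl⟩ := hzc
          rw [g2, g2, hω', plant_snd_of_ne]
          rintro ⟨e1, e2, e3⟩
          refine Finset.disjoint_left.mp hdis e3 ?_
          rw [Finset.mem_filter]
          refine ⟨Finset.mem_univ _, b, y, hy, ?_⟩
          rw [hz, ← e1, ← e2]
        · push Not at hzc
          exact g3 R ω' ω (by rw [hω']; rfl) z hzc
      obtain ⟨hv', hr'⟩ := hT3 _ hagree
      have h3 := hWk i.1 hilen W hv'
      rw [hr'] at h3
      have h4 := (hsucc ω' i a).mp h3
      apply h4
      intro κ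
      have h5 : ω'.2 (i, a, κ) = ω.2 (i, a, κ) := by
        rw [hω', plant_snd_of_ne]
        rintro ⟨_, e2, _⟩
        simp at e2
      rw [h5]
      cases a
      · exact he0 κ
      · exact he1 κ
  · rw [hcW]
    calc 2 = 2 ^ 1 := by norm_num
      _ ≤ 2 ^ (n * n) := Nat.pow_le_pow_right (by norm_num) hnn
  · rw [hcI]; push_cast; exact b2
  · rw [hcI]; push_cast; exact b3
  · rw [hcW]
    exact Nat.mul_div_le _ _
  · have := g4 R {R' | Works S F M A R' n k}
    rw [this] at hW
    exact hW

/-- The conditional probability that level `k` is not covered. -/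
theorem uncovered_window : ∃ n1, ∀ n ≥ n1, ∀ k ≤ n, ∀ R : List Bool → Bool,
    frac (win n) {R' | ¬ Covered R' n k} R ≤ 4 ^ k * del n k ^ 2 := by
  obtain ⟨nb, hnb⟩ := growth_ql 0
  refine ⟨nb, ?_⟩
  intro n hn k hkn R
  obtain ⟨Rest, _, _, glue, g1, g2, g3, g4⟩ := exists_glue hkn (hnb n hn).2
  obtain ⟨o, ho⟩ : ∃ o : Wrd n, o = fun _ => true := ⟨_, rfl⟩
  have hsucc : ∀ (ω : World (Ins k) (Can k n) (Wrd n) Rest) (i : Ins k) (s : Bool),
      Succ (glue R ω) n k i.1 s ↔ ¬ Empt o ω i s := by
    intro ω i s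
    rw [ho]
    exact succ_iff_not_empt g2 R ω i s
  have h := prob_uncovered_le (I := Ins k) (K := Can k n) (Wd := Wrd n) (Rest := Rest) o
  rw [card_ins, card_can, card_wrd] at h
  rw [g4]
  have e : prob (fun ω => glue R ω ∈ {R' | ¬ Covered R' n k}) =
      prob (fun ω : World (Ins k) (Can k n) (Wrd n) Rest =>
        ∃ i, Empt o ω i false ∧ Empt o ω i true) := by
    apply prob_congr
    intro ω
    rw [Set.mem_ofPred_eq]
    unfold Covered
    constructor
    · intro hc
      push Not at hc
      obtain ⟨i, hi, hc1, hc2⟩ := hc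
      refine ⟨⟨i, hi⟩, ?_, ?_⟩
      · by_contra h0
        exact hc1 ((hsucc ω ⟨i, hi⟩ false).mpr h0)
      · by_contra h0
        exact hc2 ((hsucc ω ⟨i, hi⟩ true).mpr h0)
    · rintro ⟨i, h1, h2⟩ hc
      rcases hc i.1 i.2 with h0 | h0
      · exact (hsucc ω i false).mp h0 h1
      · exact (hsucc ω i true).mp h0 h2
  rw [e]
  refine h.trans (le_of_eq ?_)
  unfold del
  push_cast
  rfl

end Pool.Agent.TFR21
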