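import Pool.Agent.TFR21.Count

/-!
# Module TFR21/Level

PROOF of `exists_level`. From `N` compute `m = Nat.log 2` iterated five times (`natLog_polyTime`;
`log 2 (2^k) = k`), the table `T = (strsC N (Lw m)).filter (fun y => X y && y ∉ (wnL5).map e)` where
`wnL5 = (strsC N (Lw m)).filter (m ≤ ·.length)` (`UT.map` with `UT.query` paired with the string,
then `PolyTime.filterMap`), `a = G (N, m, T)` from `exists_count`, `t = 2 ^ (number of strings in
wnL5)` (capped by `cp`), and then `lev m t a`, computed by searching `k` in `List.range (m + 1)`.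
PROOF of `exists_isScale`. On input `n`: iterate `n` times from `b = sc 0 = 1` the step
`b ↦ if tw b ≤ n then tw b else b` (with `tw` capped); the result is the largest scale `≤ n`.
-/

set_option autoImplicit false

namespace Pool.Agent.TFR21

open Pool.Agent.PT Pool.Agent.TMB67 Pool.Agent.POpt70 Pool.Agent.ROr14
open N68a2faeb N793a5b8e N487b59b3 MeasureTheory

/-! ### The level -/

/-- The logarithm iterated five times. -/
def lg5 (N : ℕ) : ℕ := Nat.log 2 (Nat.log 2 (Nat.log 2 (Nat.log 2 (Nat.log 2 N))))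

@[fun_prop]
theorem lg5_polyTime {α : Type} [Enc α] {f : α → ℕ} (hf : PolyTime f) :
    PolyTime (fun x => lg5 (f x)) := by
  unfold lg5
  fun_prop

theorem lg5_tw (m : ℕ) : lg5 (tw m) = m := by
  unfold lg5 tw
  simp only [Nat.log_pow (by norm_num : 1 < 2)]

theorem tw_lg5_le {N : ℕ} (h : lg5 N ≠ 0) : tw (lg5 N) ≤ N := by
  have step : ∀ a : ℕ, Nat.log 2 a ≠ 0 → a ≠ 0 ∧ 2 ^ Nat.log 2 a ≤ a := by
    intro a ha
    have h1 : a ≠ 0 := by
      rintro rfl
      simp at ha
    exact ⟨h1, Nat.pow_log_le_self 2 h1⟩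
  unfold lg5 at h
  obtain ⟨h4, g4⟩ := step _ h
  obtain ⟨h3, g3⟩ := step _ h4
  obtain ⟨h2, g2⟩ := step _ h3
  obtain ⟨h1, g1⟩ := step _ h2
  obtain ⟨h0, g0⟩ := step _ h1
  unfold tw lg5
  refine le_trans (Nat.pow_le_pow_right (by norm_num) ?_) g0
  refine le_trans (Nat.pow_le_pow_right (by norm_num) ?_) g1
  refine le_trans (Nat.pow_le_pow_right (by norm_num) ?_) g2
  exact le_trans (Nat.pow_le_pow_right (by norm_num) g4) g3

theorem pow_le_tw (m : ℕ) : (m + 1) ^ (2 * m * (m + 1)) ≤ tw m := by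
  have h1 : m + 1 ≤ 2 ^ m := Nat.lt_two_pow_self
  have h2 : 2 ^ (m + 2) ≤ 2 ^ 2 ^ (m + 1) := by
    refine Nat.pow_le_pow_right (by norm_num) ?_
    have : m + 1 < 2 ^ (m + 1) := Nat.lt_two_pow_self
    omega
  have h3 : 2 ^ 2 ^ (m + 1) ≤ 2 ^ 2 ^ 2 ^ m :=
    Nat.pow_le_pow_right (by norm_num) (Nat.pow_le_pow_right (by norm_num) h1)
  have h4 : 2 ^ (m + 2) = 4 * 2 ^ m := by ring
  have h5 : 2 * m * (m + 1) * m ≤ 2 ^ 2 ^ 2 ^ 2 ^ m := by
    calc 2 * m * (m + 1) * m ≤ 2 * 2 ^ m * 2 ^ m * 2 ^ m := by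
          refine Nat.mul_le_mul (Nat.mul_le_mul (Nat.mul_le_mul le_rfl ?_) h1) ?_ <;> omega
      _ = 2 ^ (3 * m + 1) := by ring
      _ ≤ 2 ^ 2 ^ 2 ^ 2 ^ m := Nat.pow_le_pow_right (by norm_num) (by omega)
  calc (m + 1) ^ (2 * m * (m + 1)) ≤ (2 ^ m) ^ (2 * m * (m + 1)) := Nat.pow_le_pow_left h1 _
    _ = 2 ^ (2 * m * (m + 1) * m) := by rw [← pow_mul, Nat.mul_comm]
    _ ≤ tw m := Nat.pow_le_pow_right (by norm_num) h5

theorem pow_lg5_le (N : ℕ) : (lg5 N + 1) ^ (2 * lg5 N * (lg5 N + 1)) ≤ N + 1 := by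
  by_cases h : lg5 N = 0
  · rw [h]
    simp
  · exact (pow_le_tw _).trans ((tw_lg5_le h).trans (Nat.le_succ N))

/-- The bounded power used in the search for the level. -/
theorem pow_polyTime {α : Type} [Enc α] {N k b : α → ℕ} (hN : PolyTime N) (hk : PolyTime k)
    (hb : PolyTime b) (hbN : ∀ x, b x ≤ lg5 (N x) + 1) :
    PolyTime (fun x => b x ^ (2 * (min (k x) (lg5 (N x))) * (lg5 (N x) + 1))) := by
  have h1 := hN.pbdd
  refine PolyTime.natPow (s := fun x => sz (N x) + 1) hb (by fun_prop) (by fun_prop)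
    fun x i hi => ?_
  have h2 : i ≤ 2 * lg5 (N x) * (lg5 (N x) + 1) :=
    hi.trans (Nat.mul_le_mul (Nat.mul_le_mul le_rfl (min_le_right _ _)) le_rfl)
  calc b x ^ i ≤ (lg5 (N x) + 1) ^ i := Nat.pow_le_pow_left (hbN x) _
    _ ≤ (lg5 (N x) + 1) ^ (2 * lg5 (N x) * (lg5 (N x) + 1)) :=
        Nat.pow_le_pow_right (by omega) h2
    _ ≤ N x + 1 := pow_lg5_le _
    _ ≤ sz (N x) + 1 := by rw [sz_nat]; omega

/-- The test for the level. -/
def okB (N t a k : ℕ) : Bool :=
  decide (4 ^ (min k (lg5 N)) * lg5 N ^ (2 * (min k (lg5 N)) * (lg5 N + 1)) * t ≤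
    512 * a * (lg5 N + 1) ^ (2 * (min k (lg5 N)) * (lg5 N + 1)))

theorem four_pow_polyTime {α : Type} [Enc α] {N k : α → ℕ} (hN : PolyTime N)
    (hk : PolyTime k) : PolyTime (fun x => 4 ^ (min (k x) (lg5 (N x)))) := by
  have h1 := hN.pbdd
  refine PolyTime.natPow (s := fun x => sz (N x) * sz (N x) + 4) (PolyTime.const 4) (by fun_prop)
    (by fun_prop) fun x i hi => ?_
  have h2 : i ≤ lg5 (N x) := hi.trans (min_le_right _ _)
  have h3 : N x + 1 ≤ sz (N x) := by rw [sz_nat]; omega
  by_cases h : lg5 (N x) = 0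
  · have : i = 0 := by omega
    rw [this]
    simp
  · have h4 : 2 ^ i ≤ N x := by
      calc 2 ^ i ≤ 2 ^ lg5 (N x) := Nat.pow_le_pow_right (by norm_num) h2
        _ ≤ tw (lg5 (N x)) := by
            unfold tw
            refine Nat.pow_le_pow_right (by norm_num) ?_
            have e1 : ∀ a : ℕ, a ≤ 2 ^ a := fun a => Nat.lt_two_pow_self.le
            exact (e1 _).trans ((e1 _).trans ((e1 _).trans (e1 _)))
        _ ≤ N x := tw_lg5_le h
    have h5 : (4 : ℕ) ^ i = 2 ^ i * 2 ^ i := by rw [← Nat.mul_pow]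
    rw [h5]
    have h6 : 2 ^ i ≤ sz (N x) := by omega
    exact (Nat.mul_le_mul h6 h6).trans (Nat.le_add_right _ _)

theorem okB_polyTime {α : Type} [Enc α] {N t a k : α → ℕ} (hN : PolyTime N) (ht : PolyTime t)
    (ha : PolyTime a) (hk : PolyTime k) : PolyTime (fun x => okB (N x) (t x) (a x) (k x)) := by
  unfold okB
  have h1 := pow_polyTime hN hk (b := fun x => lg5 (N x)) (by fun_prop) (fun x => by omega)
  have h2 := pow_polyTime hN hk (b := fun x => lg5 (N x) + 1) (by fun_prop) (fun x => by omega)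
  have h3 := four_pow_polyTime hN hk
  exact PolyTime.decide_le ((h3.natMul h1).natMul ht) (((PolyTime.const 512).natMul ha).natMul h2)

theorem okB_iff {m t a k : ℕ} (hk : k ≤ m) : okB (tw m) t a k = true ↔ LevOK m t a k := by
  unfold okB LevOK
  rw [lg5_tw, min_eq_left hk, decide_eq_true_iff]

/-- The level computed from the cap. -/
def levN (N t a : ℕ) : ℕ := ((List.range (lg5 N + 1)).find? fun k => okB N t a k).getD N

theorem levN_polyTime {α : Type} [Enc α] {N t a : α → ℕ} (hN : PolyTime N) (ht : PolyTime t)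
    (ha : PolyTime a) : PolyTime (fun x => levN (N x) (t x) (a x)) := by
  unfold levN
  refine PolyTime.optionGetD (PolyTime.find? (by fun_prop) ?_) hN
  exact okB_polyTime (hN.comp PolyTime.fst') (ht.comp PolyTime.fst') (ha.comp PolyTime.fst')
    PolyTime.snd'

theorem levN_tw (m t a : ℕ) : levN (tw m) t a = lev m t a := by
  unfold levN lev
  rw [lg5_tw]
  split_ifs with h
  · have h1 : (List.range (m + 1)).find? (fun k => okB (tw m) t a k) = some (Nat.find h) := by
      rw [List.find?_range_eq_some]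
      obtain ⟨h2, h3⟩ := Nat.find_spec h
      refine ⟨(okB_iff h2).2 h3, List.mem_range.2 (by omega), fun j hj => ?_⟩
      have h4 := Nat.find_min h hj
      rw [Bool.not_eq_true']
      by_contra hcon
      rw [Bool.not_eq_false] at hcon
      exact h4 ⟨by omega, (okB_iff (by omega)).1 hcon⟩
    rw [h1, Option.getD_some]
  · have h1 : (List.range (m + 1)).find? (fun k => okB (tw m) t a k) = none := by
      rw [List.find?_eq_none]
      intro k hk hcon
      rw [List.mem_range] at hk
      exact h ⟨k, by omega, (okB_iff (by omega)).1 hcon⟩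
    rw [h1, Option.getD_none]

theorem card_strs_le5 (n : ℕ) : (strs n).card + 1 ≤ 2 ^ n := by
  unfold strs
  have h1 : ∀ n : ℕ, ∑ l ∈ Finset.range n, 2 ^ l + 1 = 2 ^ n := by
    intro n
    induction n with
    | zero => simp
    | succ n ih => rw [Finset.sum_range_succ, pow_succ]; omega
  have h2 : ((Finset.range n).biUnion fun l =>
      (Finset.univ : Finset (List.Vector Bool l)).image (·.1)).card ≤
      ∑ l ∈ Finset.range n, 2 ^ l := by
    refine Finset.card_biUnion_le.trans (Finset.sum_le_sum fun l _ => ?_)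
    refine Finset.card_image_le.trans ?_
    rw [Finset.card_univ, card_vector, Fintype.card_bool]
  have h3 := h1 n
  omega

/-- The strings of the window, as a list. -/
def wnL5 (N : ℕ) : List (List Bool) :=
  (strsC N (cp2 N (lg5 N))).filter fun y => decide (lg5 N ≤ y.length)

theorem strsC_polyTime' {α : Type} [Enc α] {N l : α → ℕ} (hN : PolyTime N) (hl : PolyTime l) :
    PolyTime (fun x => strsC (N x) (l x)) :=
  PolyTime.comp (g := fun p : ℕ × ℕ => strsC p.1 p.2) (f := fun x => (N x, l x)) strsC_polyTime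
    (PolyTime.pair hN hl)

theorem wnL5_polyTime {α : Type} [Enc α] {N : α → ℕ} (hN : PolyTime N) :
    PolyTime (fun x => wnL5 (N x)) := by
  unfold wnL5
  have h0 : PolyTime (fun x => strsC (N x) (cp2 (N x) (lg5 (N x)))) :=
    strsC_polyTime' hN (cp2_polyTime hN (lg5_polyTime hN))
  have h1 : PolyTime (fun p : α × List Bool => lg5 (N p.1)) :=
    PolyTime.comp (g := fun x => lg5 (N x)) (f := fun p : α × List Bool => p.1)
      (lg5_polyTime hN) PolyTime.fst'
  exact PolyTime.filter (l := fun x => strsC (N x) (cp2 (N x) (lg5 (N x))))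
    (g := fun x y => decide (lg5 (N x) ≤ y.length)) h0
    (PolyTime.decide_le h1 (PolyTime.length PolyTime.snd'))

theorem pow_Lw_le (m : ℕ) : 2 ^ Lw m ≤ tw m := by
  unfold Lw tw
  have e1 : ∀ a : ℕ, a ≤ 2 ^ a := fun a => Nat.lt_two_pow_self.le
  refine Nat.pow_le_pow_right (by norm_num) ?_
  refine Nat.pow_le_pow_right (by norm_num) ?_
  exact Nat.pow_le_pow_right (by norm_num) ((e1 _).trans (e1 _))

theorem cp2_tw5 (m : ℕ) : cp2 (tw m) m = Lw m := cp2_eq (Lw_le_tw m)

theorem strsC_tw (m : ℕ) : strsC (tw m) (cp2 (tw m) (lg5 (tw m))) = strsC (tw m) (Lw m) := by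
  rw [lg5_tw, cp2_tw5]

theorem mem_wnL5 {m : ℕ} {z : List Bool} : z ∈ wnL5 (tw m) ↔ z ∈ win m := by
  unfold wnL5
  rw [List.mem_filter, strsC_tw, mem_strsC (pow_Lw_le m), lg5_tw, decide_eq_true_iff, mem_win]
  exact and_comm

theorem length_wnL5 (m : ℕ) : (wnL5 (tw m)).length = (win m).card := by
  have h1 : (wnL5 (tw m)).Nodup := by
    unfold wnL5
    rw [strsC_tw]
    exact (strsC_nodup (pow_Lw_le m)).filter _
  rw [← List.toFinset_card_of_nodup h1]
  congr 1
  ext z
  rw [List.mem_toFinset, mem_wnL5]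

theorem pow_card_win_le (m : ℕ) : 2 ^ (win m).card ≤ tw m := by
  have h1 : (win m).card ≤ (strs (Lw m)).card := by
    unfold win
    exact Finset.card_le_card Finset.sdiff_subset
  have h2 := card_strs_le5 (Lw m)
  have e1 : ∀ a : ℕ, a ≤ 2 ^ a := fun a => Nat.lt_two_pow_self.le
  calc 2 ^ (win m).card ≤ 2 ^ 2 ^ Lw m := Nat.pow_le_pow_right (by norm_num) (by omega)
    _ ≤ tw m := by
      unfold Lw tw
      refine Nat.pow_le_pow_right (by norm_num) ?_
      refine Nat.pow_le_pow_right (by norm_num) ?_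
      refine Nat.pow_le_pow_right (by norm_num) ?_
      exact Nat.pow_le_pow_right (by norm_num) (e1 _)

/-- Membership. -/
def memB (y : List Bool) (L : List (List Bool)) : Bool := decide (y ∈ L)

theorem memB_iff {y : List Bool} {L : List (List Bool)} : memB y L = true ↔ y ∈ L := by
  unfold memB
  exact decide_eq_true_iff

theorem memB_polyTime {α : Type} [Enc α] {y : α → List Bool} {L : α → List (List Bool)}
    (hy : PolyTime y) (hL : PolyTime L) : PolyTime (fun x => memB (y x) (L x)) := by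
  refine (PolyTime.decide_mem hy hL).congr fun x => ?_
  unfold memB
  congr

/-- The table of the oracle outside the window. -/
def tabl (e : List Bool → List Bool) (N : ℕ) (Y : List (List Bool × Bool)) : List (List Bool) :=
  (Y.filter fun p => p.2 && !memB p.1 ((wnL5 N).map e)).map fun p => p.1

theorem tabl_polyTime {e : List Bool → List Bool} (he : PolyTime e) :
    PolyTime (fun z : ℕ × List (List Bool × Bool) => tabl e z.1 z.2) := by
  unfold tabl
  have h1 : PolyTime (fun z : (ℕ × List (List Bool × Bool)) × List Bool × Bool =>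
      (wnL5 z.1.1).map e) :=
    PolyTime.map (l := fun z : (ℕ × List (List Bool × Bool)) × List Bool × Bool => wnL5 z.1.1)
      (g := fun _ y => e y) (wnL5_polyTime (PolyTime.fst PolyTime.fst'))
      (PolyTime.comp (g := e) (f := fun z : ((ℕ × List (List Bool × Bool)) × List Bool × Bool) ×
        List Bool => z.2) he PolyTime.snd')
  have h2 : PolyTime (fun z : (ℕ × List (List Bool × Bool)) × List Bool × Bool =>
      z.2.2 && !memB z.2.1 ((wnL5 z.1.1).map e)) :=
    PolyTime.and (PolyTime.snd PolyTime.snd')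
      (PolyTime.not (memB_polyTime (PolyTime.fst PolyTime.snd') h1))
  have h3 : PolyTime (fun z : ℕ × List (List Bool × Bool) =>
      z.2.filter fun p => p.2 && !memB p.1 ((wnL5 z.1).map e)) :=
    PolyTime.filter (l := fun z : ℕ × List (List Bool × Bool) => z.2)
      (g := fun z p => p.2 && !memB p.1 ((wnL5 z.1).map e)) PolyTime.snd' h2
  exact PolyTime.map (l := fun z : ℕ × List (List Bool × Bool) =>
      z.2.filter fun p => p.2 && !memB p.1 ((wnL5 z.1).map e))
    (g := fun _ (p : List Bool × Bool) => p.1) h3 (PolyTime.fst PolyTime.snd')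

/-- The final computation. -/
def fin5 (e : List Bool → List Bool) (G : ℕ × ℕ × List (List Bool) → ℕ)
    (z : ℕ × List (List Bool × Bool)) : ℕ :=
  levN z.1 (cp z.1 (wnL5 z.1).length) (G (z.1, lg5 z.1, tabl e z.1 z.2))

theorem fin5_polyTime {e : List Bool → List Bool} (he : PolyTime e)
    {G : ℕ × ℕ × List (List Bool) → ℕ} (hG : PolyTime G) : PolyTime (fin5 e G) := by
  have h1 : PolyTime (fun z : ℕ × List (List Bool × Bool) => cp z.1 (wnL5 z.1).length) :=
    cp_polyTime PolyTime.fst' (PolyTime.length (wnL5_polyTime PolyTime.fst'))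
  have h2 : PolyTime (fun z : ℕ × List (List Bool × Bool) => G (z.1, lg5 z.1, tabl e z.1 z.2)) :=
    PolyTime.comp (g := G) (f := fun z : ℕ × List (List Bool × Bool) =>
      (z.1, lg5 z.1, tabl e z.1 z.2)) hG
      (PolyTime.pair PolyTime.fst' (PolyTime.pair (lg5_polyTime PolyTime.fst')
        (tabl_polyTime he)))
  exact levN_polyTime PolyTime.fst' h1 h2

/-- The strings of the table with the replies of the oracle. -/
def ask5 (X : List Bool → Bool) (N : ℕ) : List (List Bool × Bool) :=
  (strsC N (cp2 N (lg5 N))).map fun y => (y, X y)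

theorem ask5_ut : UT ask5 := by
  have h1 : UT (fun X (z : ℕ × List Bool) => (z.2, X z.2)) :=
    (UT.of PolyTime.snd').pair (UT.query.pre PolyTime.snd')
  exact UT.map (l := fun N : ℕ => strsC N (cp2 N (lg5 N)))
    (F := fun X (z : ℕ × List Bool) => (z.2, X z.2))
    (strsC_polyTime' PolyTime.id (cp2_polyTime PolyTime.id (lg5_polyTime PolyTime.id))) h1

theorem exists_level_aux {e : List Bool → List Bool} (he : PolyTime e)
    {G : ℕ × ℕ × List (List Bool) → ℕ} (hG : PolyTime G) :
    UT (fun X N => fin5 e G (N, ask5 X N)) :=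
  UT.post (g := fin5 e G) (F := fun X N => (N, ask5 X N)) (fin5_polyTime he hG)
    (UT.pair (F := fun _ N => N) (G := ask5) (UT.of PolyTime.id) ask5_ut)

theorem tabl_spec {e : List Bool → List Bool} (m : ℕ) (X : List Bool → Bool) (y : List Bool)
    (hy : y.length < Lw m) : y ∈ tabl e (tw m) (ask5 X (tw m)) ↔
      X y = true ∧ y ∉ (win m).image e := by
  unfold tabl ask5
  rw [lg5_tw, cp2_tw5, List.mem_map]
  constructor
  · rintro ⟨p, hp, rfl⟩
    rw [List.mem_filter, List.mem_map, Bool.and_eq_true, Bool.not_eq_true',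
      ← Bool.not_eq_true, memB_iff] at hp
    obtain ⟨⟨z, hz, rfl⟩, h1, h2⟩ := hp
    refine ⟨h1, fun hcon => h2 ?_⟩
    rw [Finset.mem_image] at hcon
    obtain ⟨z', hz', h3⟩ := hcon
    exact List.mem_map.2 ⟨z', mem_wnL5.2 hz', h3⟩
  · rintro ⟨h1, h2⟩
    refine ⟨(y, X y), ?_, rfl⟩
    rw [List.mem_filter, List.mem_map, Bool.and_eq_true, Bool.not_eq_true',
      ← Bool.not_eq_true, memB_iff]
    refine ⟨⟨y, (mem_strsC (pow_Lw_le m)).2 hy, rfl⟩, h1, fun hcon => h2 ?_⟩
    rw [List.mem_map] at hcon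
    obtain ⟨z', hz', h3⟩ := hcon
    exact Finset.mem_image.2 ⟨z', mem_wnL5.1 hz', h3⟩

theorem fin5_tw (e : List Bool → List Bool) (G : ℕ × ℕ × List (List Bool) → ℕ) (m : ℕ)
    (Y : List (List Bool × Bool)) : fin5 e G (tw m, Y) =
      lev m (2 ^ (win m).card) (G (tw m, m, tabl e (tw m) Y)) := by
  unfold fin5
  rw [levN_tw, lg5_tw, length_wnL5, cp_eq (pow_card_win_le m)]

/-- The level at the next scale is computable in polynomial time (numbers in unary). -/
theorem exists_level {e : List Bool → List Bool} (he : PolyTime e) (hinj : Function.Injective e)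
    {F : (List Bool → Bool) → List Bool × List Bool → Bool} {pw : Polynomial ℕ}
    (hF : Search F pw) : ∃ (K : (List Bool → Bool) → ℕ → ℕ) (m0 : ℕ), UT K ∧
      ∀ m ≥ m0, ∀ X : List Bool → Bool, K X (tw m) = level e F X m := by
  obtain ⟨G, m0, hG, hcount⟩ := exists_count he hinj hF
  have h1 : UT (fun X N => fin5 e G (N, ask5 X N)) := exists_level_aux he hG
  have h2 : ∀ m ≥ m0, ∀ X : List Bool → Bool,
      (fun X N => fin5 e G (N, ask5 X N)) X (tw m) = level e F X m := by
    intro m hm X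
    have h3 := hcount m hm X _ (tabl_spec m X)
    beta_reduce
    rw [fin5_tw, h3]
    rfl
  exact ⟨_, m0, h1, h2⟩

/-! ### Scales -/

/-- Equal, or both larger than `n`. -/
def Alike (n x y : ℕ) : Prop := x = y ∨ (n < x ∧ n < y)

theorem Alike.cp {n x y : ℕ} (h : Alike n x y) : Alike n (cp (2 * n + 1) x) (2 ^ y) := by
  have hl : n < 2 ^ Nat.log 2 (2 * n + 1) := by
    have h1 := Nat.lt_pow_succ_log_self (b := 2) (by norm_num) (2 * n + 1)
    rw [pow_succ] at h1
    omega
  rcases h with rfl | ⟨h1, h2⟩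
  · by_cases h3 : 2 ^ x ≤ 2 * n + 1
    · left
      exact cp_eq h3
    · right
      refine ⟨?_, by omega⟩
      unfold Pool.Agent.POpt70.cp
      rcases le_total x (Nat.log 2 (2 * n + 1)) with h4 | h4
      · rw [min_eq_left h4]
        omega
      · rw [min_eq_right h4]
        exact hl
  · right
    have e1 : ∀ a : ℕ, a < 2 ^ a := fun a => Nat.lt_two_pow_self
    refine ⟨?_, h2.trans (e1 y)⟩
    unfold Pool.Agent.POpt70.cp
    rcases le_total x (Nat.log 2 (2 * n + 1)) with h4 | h4
    · rw [min_eq_left h4]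
      exact h1.trans (e1 x)
    · rw [min_eq_right h4]
      exact hl

/-- The capped growth function. -/
def twC (n b : ℕ) : ℕ :=
  cp (2 * n + 1) (cp (2 * n + 1) (cp (2 * n + 1) (cp (2 * n + 1) (cp (2 * n + 1) b))))

theorem twC_alike (n b : ℕ) : Alike n (twC n b) (tw b) := by
  unfold twC tw
  exact (((((show Alike n b b from Or.inl rfl).cp).cp).cp).cp).cp

/-- One step of the search for the largest scale. -/
def scStep (n b : ℕ) : ℕ := if twC n b ≤ n then twC n b else b

theorem scStep_of_le {n b : ℕ} (h : tw b ≤ n) : scStep n b = tw b := by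
  unfold scStep
  rcases twC_alike n b with h1 | ⟨_, h2⟩
  · rw [h1, if_pos h]
  · omega

theorem scStep_of_lt {n b : ℕ} (h : n < tw b) : scStep n b = b := by
  unfold scStep
  rcases twC_alike n b with h1 | ⟨h1, _⟩
  · rw [h1, if_neg (by omega)]
  · rw [if_neg (by omega)]

theorem scStep_le (n b : ℕ) : scStep n b ≤ max b n := by
  unfold scStep
  split_ifs with h
  · exact h.trans (le_max_right _ _)
  · exact le_max_left _ _

theorem scStep_iterate_le (n i : ℕ) : (scStep n)^[i] 1 ≤ max 1 n := by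
  induction i with
  | zero => exact le_max_left _ _
  | succ i ih =>
    rw [Function.iterate_succ_apply']
    exact (scStep_le _ _).trans (max_le ih (le_max_right _ _))

theorem scStep_iterate_sc (n i : ℕ) : ∃ j, (scStep n)^[i] 1 = sc j := by
  induction i with
  | zero => exact ⟨0, rfl⟩
  | succ i ih =>
    obtain ⟨j, hj⟩ := ih
    rw [Function.iterate_succ_apply', hj]
    rcases le_or_gt (tw (sc j)) n with h | h
    · exact ⟨j + 1, scStep_of_le h⟩
    · exact ⟨j, scStep_of_lt h⟩

theorem scStep_iterate_eq (j i : ℕ) : (scStep (sc j))^[i] 1 = sc (min i j) := by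
  induction i with
  | zero => rfl
  | succ i ih =>
    rw [Function.iterate_succ_apply', ih]
    rcases lt_or_ge i j with h | h
    · rw [min_eq_left h.le, min_eq_left (by omega : i + 1 ≤ j)]
      exact scStep_of_le (sc_strictMono.monotone (by omega : i + 1 ≤ j))
    · rw [min_eq_right h, min_eq_right (by omega : j ≤ i + 1)]
      exact scStep_of_lt (lt_tw _)

/-- Scales are recognized in polynomial time (numbers in unary). -/
theorem exists_isScale : ∃ sb : ℕ → Bool, PolyTime sb ∧
    ∀ n, sb n = true ↔ ∃ j, n = sc (j + 1) := by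
  have hstep : PolyTime (fun p : ℕ × ℕ => scStep p.1 p.2) := by
    have h1 : PolyTime (fun p : ℕ × ℕ => twC p.1 p.2) := by
      unfold twC
      fun_prop
    unfold scStep
    exact PolyTime.ite (PolyTime.decide_le h1 PolyTime.fst') h1 PolyTime.snd'
  have hit : PolyTime (fun n : ℕ => (scStep n)^[n] 1) := by
    refine PolyTime.iterate' (f := scStep) (n := fun n => n) (g := fun _ => 1)
      (s := fun n => sz n + 3) hstep PolyTime.id (PolyTime.const 1) (by fun_prop)
      fun n i _ => ?_
    have h1 := scStep_iterate_le n i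
    rw [sz_nat, sz_nat]
    omega
  refine ⟨fun n => decide ((scStep n)^[n] 1 = n) && !decide (n = 1),
    PolyTime.and (PolyTime.decide_eq hit PolyTime.id)
      (PolyTime.not (PolyTime.decide_eq PolyTime.id (PolyTime.const 1))), fun n => ?_⟩
  rw [Bool.and_eq_true, Bool.not_eq_true', decide_eq_true_iff, decide_eq_false_iff_not]
  constructor
  · rintro ⟨h1, h2⟩
    obtain ⟨j, hj⟩ := scStep_iterate_sc n n
    rw [h1] at hj
    cases j with
    | zero => exact absurd hj h2
    | succ j => exact ⟨j, hj⟩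
  · rintro ⟨j, rfl⟩
    refine ⟨?_, ?_⟩
    · rw [scStep_iterate_eq, min_eq_right (le_sc (j + 1))]
    · have h1 := sc_strictMono (Nat.succ_pos j)
      have h2 := sc_pos 0
      intro h3
      change sc 0 < sc (j + 1) at h1
      omega

end Pool.Agent.TFR21
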