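import Pool.Agent.TFR21.Params

/-!
# Module TFR21/Lists

Capped enumeration of strings and of sublists, in polynomial time in the cap `N` (natural numbers
are coded in unary).

PROOFS. `PolyTime.iterate'`, `PolyTime.foldr` (see `PT/Data`, `PT/More`) with `PolyTime.take`,
`PolyTime.append`, `PolyTime.map`, `PolyTime.flatMap`, `PolyTime.cons`. Sizes: a list in
`strsC N l` has at most `N + 1` elements of length `≤ l`; a list in `subsC N L` has at most `N + 1`
elements, each a sublist of `L` (so of size `≤ sz L`, `sz_le_of_sublist`). `sz_le_of_forall`.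
Specs: if the cap is not reached, `take` does nothing.
-/

set_option autoImplicit false

namespace Pool.Agent.TFR21

open Pool.Agent.PT Pool.Agent.TMB67 Pool.Agent.POpt70 Pool.Agent.ROr14
open N68a2faeb N793a5b8e N487b59b3 MeasureTheory

/-- One step of `strsC`: all strings of length `< l + 1` from those of length `< l`. -/
def strsStep (N : ℕ) (L : List (List Bool)) : List (List Bool) :=
  ([] :: L.flatMap fun z => [false :: z, true :: z]).take (N + 1)

/-- All strings of length `< l`, capped. -/
def strsC (N l : ℕ) : List (List Bool) := (strsStep N)^[l] []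

theorem strsC_zero (N : ℕ) : strsC N 0 = [] := rfl

theorem strsC_succ (N l : ℕ) : strsC N (l + 1) = strsStep N (strsC N l) :=
  Function.iterate_succ_apply' _ _ _

theorem strsC_length_mem (N l : ℕ) : ∀ z ∈ strsC N l, z.length ≤ l := by
  induction l with
  | zero => intro z hz; simp [strsC_zero] at hz
  | succ l ih =>
    intro z hz
    rw [strsC_succ] at hz
    have hz' := List.mem_of_mem_take hz
    rcases List.mem_cons.1 hz' with rfl | hz''
    · simp
    · obtain ⟨y, hy, hzy⟩ := List.mem_flatMap.1 hz''
      have := ih y hy
      simp only [List.mem_cons, List.not_mem_nil, or_false] at hzy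
      rcases hzy with rfl | rfl <;> simp [this]

theorem length_strsC_le (N l : ℕ) : (strsC N l).length ≤ N + 1 := by
  cases l with
  | zero => simp [strsC_zero]
  | succ l =>
    rw [strsC_succ]
    exact List.length_take_le _ _

theorem sz_strsC_le (N l : ℕ) : sz (strsC N l) ≤ (N + 1) * (4 * l + 1 + 1) + 1 := by
  have h : ∀ z ∈ strsC N l, sz z ≤ 4 * l + 1 := fun z hz =>
    (sz_listBool z).trans (by have := strsC_length_mem N l z hz; omega)
  exact (sz_le_of_forall h).trans
    (Nat.add_le_add_right (Nat.mul_le_mul_right _ (length_strsC_le N l)) 1)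

theorem strsC_polyTime : PolyTime (fun p : ℕ × ℕ => strsC p.1 p.2) := by
  have hstep : PolyTime (fun p : (ℕ × ℕ) × List (List Bool) => strsStep p.1.1 p.2) := by
    unfold strsStep
    refine PolyTime.take (by fun_prop) (PolyTime.cons (by fun_prop) ?_)
    exact PolyTime.flatMap (l := fun p : (ℕ × ℕ) × List (List Bool) => p.2)
      (g := fun _ z => [false :: z, true :: z]) (by fun_prop) (by fun_prop)
  refine PolyTime.iterate' (f := fun (p : ℕ × ℕ) (L : List (List Bool)) => strsStep p.1 L)
    (n := fun p => p.2) (g := fun _ => []) hstep (by fun_prop) (by fun_prop)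
    (s := fun p => (sz p + 1) * (4 * sz p + 1 + 1) + 1) (by fun_prop) ?_
  rintro ⟨N, l⟩ i hi
  refine (sz_strsC_le N i).trans ?_
  simp only [sz_prod, sz_nat] at hi ⊢
  refine Nat.add_le_add_right (Nat.mul_le_mul ?_ ?_) 1 <;> omega

theorem strsC_spec (N l : ℕ) (h : 2 ^ l ≤ N) : (strsC N l).Nodup ∧
    (∀ z, z ∈ strsC N l ↔ z.length < l) ∧ (strsC N l).length + 1 = 2 ^ l := by
  induction l with
  | zero => simp [strsC_zero]
  | succ l ih =>
    obtain ⟨h1, h2, h3⟩ := ih ((Nat.pow_le_pow_right (by norm_num) (Nat.le_succ l)).trans h)
    have hlen : ((strsC N l).flatMap fun z => [false :: z, true :: z]).length =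
        2 * (strsC N l).length := by
      rw [List.length_flatMap]
      simp [mul_comm]
    have htake : strsC N (l + 1) =
        [] :: (strsC N l).flatMap fun z => [false :: z, true :: z] := by
      rw [strsC_succ, strsStep, List.take_of_length_le]
      rw [List.length_cons, hlen]
      rw [pow_succ] at h
      omega
    refine ⟨?_, fun z => ?_, ?_⟩
    · rw [htake, List.nodup_cons]
      refine ⟨fun hm => ?_, ?_⟩
      · obtain ⟨y, _, hy⟩ := List.mem_flatMap.1 hm
        simp at hy
      · rw [List.nodup_flatMap]
        refine ⟨fun y _ => by simp, ?_⟩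
        refine h1.imp_of_mem fun {a b} _ _ hab => ?_
        intro y hya hyb
        simp only [List.mem_cons, List.not_mem_nil, or_false] at hya hyb
        rcases hya with rfl | rfl <;> rcases hyb with hyb | hyb <;> simp_all
    · rw [htake, List.mem_cons, List.mem_flatMap]
      constructor
      · rintro (rfl | ⟨y, hy, hz⟩)
        · simp
        · have := (h2 y).1 hy
          simp only [List.mem_cons, List.not_mem_nil, or_false] at hz
          rcases hz with rfl | rfl <;> simpa using this
      · intro hz
        cases z with
        | nil => exact Or.inl rfl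
        | cons b y =>
          refine Or.inr ⟨y, (h2 y).2 (by simpa using hz), ?_⟩
          cases b <;> simp
    · rw [htake, List.length_cons, hlen, pow_succ]
      omega

theorem strsC_nodup {N l : ℕ} (h : 2 ^ l ≤ N) : (strsC N l).Nodup := (strsC_spec N l h).1

theorem mem_strsC {N l : ℕ} (h : 2 ^ l ≤ N) {z : List Bool} : z ∈ strsC N l ↔ z.length < l :=
  (strsC_spec N l h).2.1 z

/-- All sublists, capped. -/
def subsC (N : ℕ) (L : List (List Bool)) : List (List (List Bool)) :=
  L.foldr (fun a acc => (acc ++ acc.map (a :: ·)).take (N + 1)) [[]]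

theorem subsC_mem (N : ℕ) (L : List (List Bool)) : ∀ B ∈ subsC N L, B.Sublist L := by
  induction L with
  | nil => intro B hB; simp [subsC] at hB; subst hB; exact List.Sublist.refl _
  | cons a L ih =>
    intro B hB
    have hB' : B ∈ (subsC N L ++ (subsC N L).map (a :: ·)).take (N + 1) := hB
    rcases List.mem_append.1 (List.mem_of_mem_take hB') with h | h
    · exact (ih B h).cons a
    · obtain ⟨C, hC, rfl⟩ := List.mem_map.1 h
      exact (ih C hC).cons_cons a

theorem length_subsC_le (N : ℕ) (L : List (List Bool)) : (subsC N L).length ≤ N + 1 := by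
  cases L with
  | nil => simp [subsC]
  | cons a L => exact List.length_take_le _ _

theorem sz_subsC_le (N : ℕ) (L : List (List Bool)) :
    sz (subsC N L) ≤ (N + 1) * (sz L + 1) + 1 := by
  have h : ∀ z ∈ subsC N L, sz z ≤ sz L := fun z hz => sz_le_of_sublist (subsC_mem N L z hz)
  exact (sz_le_of_forall h).trans
    (Nat.add_le_add_right (Nat.mul_le_mul_right _ (length_subsC_le N L)) 1)

theorem subsC_polyTime : PolyTime (fun p : ℕ × List (List Bool) => subsC p.1 p.2) := by
  have hstep : PolyTime (fun p : (ℕ × List (List Bool)) × (List Bool × List (List (List Bool))) =>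
      (p.2.2 ++ p.2.2.map (p.2.1 :: ·)).take (p.1.1 + 1)) := by
    refine PolyTime.take (by fun_prop) (PolyTime.append (by fun_prop) ?_)
    exact PolyTime.map
      (l := fun p : (ℕ × List (List Bool)) × (List Bool × List (List (List Bool))) => p.2.2)
      (g := fun p z => p.2.1 :: z) (by fun_prop) (by fun_prop)
  refine PolyTime.foldr (l := fun p : ℕ × List (List Bool) => p.2)
    (g := fun (p : ℕ × List (List Bool)) (a : List Bool) (acc : List (List (List Bool))) =>
      (acc ++ acc.map (a :: ·)).take (p.1 + 1))
    (y := fun _ => [[]]) (by fun_prop) hstep (by fun_prop)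
    (s := fun p => (sz p + 1) * (sz p + 1) + 1) (by fun_prop) ?_
  rintro ⟨N, L⟩ i
  refine (sz_subsC_le N (L.drop i)).trans ?_
  have h1 : sz (L.drop i) ≤ sz L := sz_le_of_sublist (List.drop_sublist i L)
  have h2 : N ≤ sz (N, L) := by rw [sz_prod]; simp only [sz_nat]; omega
  have h3 : sz L ≤ sz (N, L) := by rw [sz_prod]; simp only; omega
  exact Nat.add_le_add_right (Nat.mul_le_mul (by omega) (by omega)) 1

theorem subsC_eq {N : ℕ} {L : List (List Bool)} (h : 2 ^ L.length ≤ N) :
    subsC N L = L.sublists' := by
  induction L with
  | nil => simp [subsC]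
  | cons a L ih =>
    have h' : 2 ^ L.length ≤ N :=
      (Nat.pow_le_pow_right (by norm_num) (by simp)).trans h
    have e : subsC N (a :: L) = (subsC N L ++ (subsC N L).map (a :: ·)).take (N + 1) := rfl
    rw [e, ih h', List.sublists'_cons, List.take_of_length_le]
    rw [List.length_append, List.length_map, List.length_sublists']
    rw [List.length_cons, pow_succ] at h
    omega

theorem sublist_eq_filter {B L : List (List Bool)} (h : B.Sublist L) (hL : L.Nodup) :
    L.filter (fun x => decide (x ∈ B)) = B := by
  induction h with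
  | slnil => rfl
  | @cons B L a h ih =>
    have hL' := List.nodup_cons.1 hL
    have ha : a ∉ B := fun hB => hL'.1 (h.subset hB)
    rw [List.filter_cons_of_neg (by simpa using ha)]
    exact ih hL'.2
  | @cons_cons B L a h ih =>
    have hL' := List.nodup_cons.1 hL
    rw [List.filter_cons_of_pos (by simp)]
    congr 1
    rw [← ih hL'.2]
    refine List.filter_congr fun x hx => ?_
    have hxa : x ≠ a := fun e => hL'.1 (e ▸ hx)
    rw [ih hL'.2]
    simp [hxa]

/-- Counting sublists is counting subsets. -/
theorem count_sublists {L : List (List Bool)} (hL : L.Nodup) (P : Finset (List Bool) → Bool) :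
    (L.sublists'.filter fun B => P B.toFinset).length =
      (L.toFinset.powerset.filter fun B => P B = true).card := by
  have hnd : (L.sublists'.filter fun B => P B.toFinset).Nodup :=
    (List.nodup_sublists'.2 hL).filter _
  rw [← List.toFinset_card_of_nodup hnd]
  refine Finset.card_bij (fun B _ => B.toFinset) ?_ ?_ ?_
  · intro B hB
    rw [List.mem_toFinset, List.mem_filter, List.mem_sublists'] at hB
    rw [Finset.mem_filter, Finset.mem_powerset]
    refine ⟨?_, hB.2⟩
    intro x hx
    rw [List.mem_toFinset] at hx ⊢
    exact hB.1.subset hx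
  · intro B hB C hC hBC
    rw [List.mem_toFinset, List.mem_filter, List.mem_sublists'] at hB hC
    rw [← sublist_eq_filter hB.1 hL, ← sublist_eq_filter hC.1 hL]
    refine List.filter_congr fun x _ => ?_
    have : x ∈ B.toFinset ↔ x ∈ C.toFinset := by rw [hBC]
    rw [List.mem_toFinset, List.mem_toFinset] at this
    simp only [this]
  · intro B hB
    rw [Finset.mem_filter, Finset.mem_powerset] at hB
    refine ⟨L.filter (fun x => decide (x ∈ B)), ?_, ?_⟩
    · rw [List.mem_toFinset, List.mem_filter, List.mem_sublists']
      refine ⟨List.filter_sublist, ?_⟩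
      have : (L.filter (fun x => decide (x ∈ B))).toFinset = B := by
        ext x
        simp only [List.mem_toFinset, List.mem_filter, decide_eq_true_eq]
        exact ⟨fun h => h.2, fun h => ⟨List.mem_toFinset.1 (hB.1 h), h⟩⟩
      rw [this]
      exact hB.2
    · ext x
      simp only [List.mem_toFinset, List.mem_filter, decide_eq_true_eq]
      exact ⟨fun h => h.2, fun h => ⟨List.mem_toFinset.1 (hB.1 h), h⟩⟩

end Pool.Agent.TFR21
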