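import Pool.Agent.TFR21.Run

/-!
# Module TFR21/Pairs

PROOF. As `ver_UT` and `hid_mem` in `ROr14/Main.lean`. With `X = S.orc A R`, `(a, i) = D x`,
`n = a.length`, `k = K X n`: `x` is not in the set iff `n < N0`, or `sb n = false`, or
`i.length ≠ 2 k`, or some `w` decoding to `(ones t, u)` has `t < k`, `u.length = n * n` and
`X (S.e (cpos n (ccode k i s t u) b)) = true` for all `b < n * n` (`S.orc A R (S.e z) = R z`,
`Access.mix_e`). The bound for `w`: `t < k ≤` a polynomial in `n` by `UT.bound`.
-/

set_option autoImplicit false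

namespace Pool.Agent.TFR21

open Pool.Agent.PT Pool.Agent.TMB67 Pool.Agent.POpt70 Pool.Agent.ROr14
open N68a2faeb N793a5b8e N487b59b3 MeasureTheory

open Classical in
/-- The set of the names of the instances whose half `s` is empty; `D` decodes the name into
`(ones n, i)`, `sb` recognizes scales, `lv n` is the level at scale `n`; scales below `N0` are not
used. -/
noncomputable def pairSet (D : List Bool → List Bool × List Bool) (sb : ℕ → Bool) (lv : ℕ → ℕ)
    (N0 : ℕ) (R : List Bool → Bool) (s : Bool) : DecisionProblem := fun x =>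
  decide (N0 ≤ (D x).1.length ∧ sb (D x).1.length = true ∧
    (D x).2.length = 2 * lv (D x).1.length ∧
      ¬ Succ R (D x).1.length (lv (D x).1.length) (D x).2 s)

theorem ones_polyTime {α : Type} [Enc α] {n : α → ℕ} (hn : PolyTime n) :
    PolyTime (fun x => ones (n x)) := by
  unfold ones
  exact PolyTime.replicate hn (PolyTime.const true)

theorem ccode_polyTime {α : Type} [Enc α] {k t : α → ℕ} {i u : α → List Bool} (s : Bool)
    (hk : PolyTime k) (hi : PolyTime i) (ht : PolyTime t) (hu : PolyTime u) :
    PolyTime (fun x => ccode (k x) (i x) s (t x) (u x)) := by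
  unfold ccode
  exact (Compat.enc (α := (List Bool × List Bool) × (List Bool × List Bool))).comp
    (PolyTime.pair (PolyTime.pair (ones_polyTime hk) hi)
      (PolyTime.pair (PolyTime.cons (PolyTime.const s) (ones_polyTime ht)) hu))

theorem cpos_polyTime {α : Type} [Enc α] {n b : α → ℕ} {c : α → List Bool}
    (hn : PolyTime n) (hc : PolyTime c) (hb : PolyTime b) :
    PolyTime (fun x => cpos (n x) (c x) (b x)) := by
  unfold cpos
  exact (Compat.enc (α := List Bool × (List Bool × List Bool))).comp
    (PolyTime.pair (ones_polyTime hn) (PolyTime.pair (ones_polyTime hb) hc))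

/-- The verification: `z = ((x, w), k)`. -/
def pver (S : Acc) (D D0 : List Bool → List Bool × List Bool) (sb : ℕ → Bool) (N0 : ℕ) (s : Bool)
    (X : List Bool → Bool) (z : (List Bool × List Bool) × ℕ) : Bool :=
  (decide ((D z.1.1).1.length < N0) ||
    ((!sb (D z.1.1).1.length) || (!decide ((D z.1.1).2.length = 2 * z.2)))) ||
  ((decide ((D0 z.1.2).1.length < z.2) &&
    decide ((D0 z.1.2).2.length = (D z.1.1).1.length * (D z.1.1).1.length)) &&
  ((List.range ((D z.1.1).1.length * (D z.1.1).1.length)).map fun b =>
    X (S.e (cpos (D z.1.1).1.length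
      (ccode z.2 (D z.1.1).2 s (D0 z.1.2).1.length (D0 z.1.2).2) b))).all fun b => b)

theorem pver_UT (S : Acc) {D D0 : List Bool → List Bool × List Bool} (hD : PolyTime D)
    (hD0 : PolyTime D0) {sb : ℕ → Bool} (hs : PolyTime sb) (N0 : ℕ) (s : Bool) :
    UT (pver S D D0 sb N0 s) := by
  have hx : PolyTime (fun z : (List Bool × List Bool) × ℕ => D z.1.1) :=
    hD.comp (PolyTime.fst PolyTime.fst')
  have hw : PolyTime (fun z : (List Bool × List Bool) × ℕ => D0 z.1.2) :=
    hD0.comp (PolyTime.snd PolyTime.fst')
  have hn : PolyTime (fun z : (List Bool × List Bool) × ℕ => (D z.1.1).1.length) :=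
    (PolyTime.fst hx).length
  have hi : PolyTime (fun z : (List Bool × List Bool) × ℕ => (D z.1.1).2) := PolyTime.snd hx
  have ht : PolyTime (fun z : (List Bool × List Bool) × ℕ => (D0 z.1.2).1.length) :=
    (PolyTime.fst hw).length
  have hu : PolyTime (fun z : (List Bool × List Bool) × ℕ => (D0 z.1.2).2) := PolyTime.snd hw
  have hk : PolyTime (fun z : (List Bool × List Bool) × ℕ => z.2) := PolyTime.snd'
  have h3 : UT (fun X (y : ((List Bool × List Bool) × ℕ) × ℕ) =>
      X (S.e (cpos (D y.1.1.1).1.length
        (ccode y.1.2 (D y.1.1.1).2 s (D0 y.1.1.2).1.length (D0 y.1.1.2).2) y.2))) := by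
    refine UT.query.pre (g := fun y : ((List Bool × List Bool) × ℕ) × ℕ =>
      S.e (cpos (D y.1.1.1).1.length
        (ccode y.1.2 (D y.1.1.1).2 s (D0 y.1.1.2).1.length (D0 y.1.1.2).2) y.2)) ?_
    exact S.he.comp (cpos_polyTime (hn.comp PolyTime.fst')
      (ccode_polyTime s (hk.comp PolyTime.fst') (hi.comp PolyTime.fst') (ht.comp PolyTime.fst')
        (hu.comp PolyTime.fst')) PolyTime.snd')
  have h4 := UT.map (l := fun z : (List Bool × List Bool) × ℕ =>
    List.range ((D z.1.1).1.length * (D z.1.1).1.length)) (PolyTime.range (hn.natMul hn)) h3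
  have h5 : UT (fun _ (z : (List Bool × List Bool) × ℕ) =>
      (decide ((D z.1.1).1.length < N0) ||
        ((!sb (D z.1.1).1.length) || (!decide ((D z.1.1).2.length = 2 * z.2))))) :=
    UT.of (PolyTime.or (PolyTime.decide_lt hn (PolyTime.const N0))
      (PolyTime.or (PolyTime.not (hs.comp hn)) (PolyTime.not
        (PolyTime.decide_eq hi.length ((PolyTime.const 2).natMul hk)))))
  have h6 : UT (fun _ (z : (List Bool × List Bool) × ℕ) =>
      (decide ((D0 z.1.2).1.length < z.2) &&
        decide ((D0 z.1.2).2.length = (D z.1.1).1.length * (D z.1.1).1.length))) :=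
    UT.of (PolyTime.and (PolyTime.decide_lt ht hk)
      (PolyTime.decide_eq hu.length (hn.natMul hn)))
  refine ((h5.pair (h6.pair h4)).post (g := fun z : Bool × Bool × List Bool =>
    z.1 || (z.2.1 && z.2.2.all fun b => b)) ?_).congr fun X y => rfl
  refine PolyTime.or PolyTime.fst' (PolyTime.and (PolyTime.fst PolyTime.snd')
    (PolyTime.all (PolyTime.snd PolyTime.snd') (g := fun _ b => b) ?_))
  exact PolyTime.snd'

theorem length_bitEncode_list (l : List Bool) : (bitEncode l : List Bool).length = 3 * l.length := by
  change (((l.map bitEncode).map delimit).flatten).length = _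
  induction l with
  | nil => rfl
  | cons a l ih =>
    rw [List.map_cons, List.map_cons, List.flatten_cons, List.length_append, ih,
      List.length_cons, length_delimit]
    change 2 * ([a] : List Bool).length + 1 + _ = _
    simp only [List.length_singleton]
    ring

theorem length_bitEncode_pair (a b : List Bool) :
    (bitEncode (a, b) : List Bool).length = 6 * a.length + 1 + 3 * b.length := by
  change (delimit (bitEncode a) ++ bitEncode b).length = _
  rw [List.length_append, length_delimit, length_bitEncode_list, length_bitEncode_list]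
  ring

theorem pairSet_compl_mem (S : Acc) (A R : List Bool → Bool)
    {D : List Bool → List Bool × List Bool} (hD : PolyTime D)
    {sb : ℕ → Bool} (hs : PolyTime sb) {K : (List Bool → Bool) → ℕ → ℕ} (hK : UT K) (N0 : ℕ)
    (s : Bool) : (pairSet D sb (K (S.orc A R)) N0 R s)ᶜ ∈ NPOracle (S.orc A R) := by
  classical
  obtain ⟨D0, hD0, hD0'⟩ := Compat.dec (α := List Bool × List Bool)
  obtain ⟨r, hr⟩ := hK.bound
  have hnp : PBdd (fun x : List Bool => (D x).1.length) :=
    (PolyTime.fst hD).length.pbdd.of_le fun x => by rw [sz_nat]; omega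
  have hb : PBdd (fun x : List Bool => 6 * r.eval (sz (D x).1.length) + 1 +
      3 * ((D x).1.length * (D x).1.length)) := by
    have h1 : PBdd (fun x : List Bool => sz (D x).1.length) := (PolyTime.fst hD).length.pbdd
    exact (((PBdd.const 6).mul (h1.eval r)).add (PBdd.const 1)).add
      ((PBdd.const 3).mul (hnp.mul hnp))
  obtain ⟨p, hp⟩ := hb
  have hU : UT (fun X (y : List Bool × List Bool) =>
      pver S D D0 sb N0 s X (y, K X (D y.1).1.length)) := by
    have h1 : UT (fun X (y : List Bool × List Bool) => (y, K X (D y.1).1.length)) :=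
      (UT.of PolyTime.id).pair (hK.pre (g := fun y : List Bool × List Bool => (D y.1).1.length)
        ((PolyTime.fst (hD.comp PolyTime.fst')).length))
    exact (pver_UT S hD hD0 hs N0 s).comp h1
  refine ⟨p.comp (4 * Polynomial.X + 1), _, hU.isPolyTimeOracle (S.orc A R), fun x => ?_⟩
  have hx : ((pairSet D sb (K (S.orc A R)) N0 R s)ᶜ x = true) ↔
      ((D x).1.length < N0 ∨ sb (D x).1.length = false ∨
        (D x).2.length ≠ 2 * K (S.orc A R) (D x).1.length) ∨
      Succ R (D x).1.length (K (S.orc A R) (D x).1.length) (D x).2 s := by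
    rw [Pi.compl_apply]
    unfold pairSet
    rw [show ∀ b : Bool, (bᶜ = true) ↔ ¬ (b = true) by decide, decide_eq_true_iff]
    rw [Bool.eq_false_iff]
    constructor
    · intro h
      by_contra hcon
      push Not at hcon
      exact h ⟨hcon.1.1, hcon.1.2.1, hcon.1.2.2, hcon.2⟩
    · rintro h ⟨h1, h2, h3, h4⟩
      rcases h with (h | h | h) | h
      · omega
      · exact h h2
      · exact h h3
      · exact h4 h
  rw [hx]
  constructor
  · rintro (h | ⟨t, ht, u, hu, h⟩)
    · refine ⟨[], Nat.zero_le _, ?_⟩
      unfold pver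
      simp only
      rw [Bool.or_eq_true, Bool.or_eq_true, Bool.or_eq_true, decide_eq_true_iff]
      left
      rcases h with h | h | h
      · exact Or.inl h
      · right; left; rw [h]; rfl
      · right; right; rw [decide_eq_false h]; rfl
    · refine ⟨bitEncode (ones t, u), ?_, ?_⟩
      · rw [length_bitEncode_pair, Polynomial.eval_comp]
        have h2 := hp x
        beta_reduce at h2
        have h3 := eval_mono p (show sz x ≤ (4 * Polynomial.X + 1 : Polynomial ℕ).eval x.length by
          simpa using sz_listBool x)
        have h4 := hr (S.orc A R) (D x).1.length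
        rw [sz_nat] at h4
        rw [hu, show (ones t).length = t from List.length_replicate]
        omega
      · unfold pver
        simp only [hD0']
        rw [Bool.or_eq_true, Bool.and_eq_true, Bool.and_eq_true, decide_eq_true_iff,
          decide_eq_true_iff, show (ones t).length = t from List.length_replicate]
        refine Or.inr ⟨⟨ht, hu⟩, ?_⟩
        rw [List.all_eq_true]
        intro b hb
        obtain ⟨j, hj, rfl⟩ := List.mem_map.1 hb
        rw [List.mem_range] at hj
        have h5 := S.mix_e A R
          (cpos (D x).1.length (ccode (K (S.orc A R) (D x).1.length) (D x).2 s t u) j)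
        exact h5.trans (h j hj)
  · rintro ⟨w, _, hw⟩
    unfold pver at hw
    simp only at hw
    rw [Bool.or_eq_true, Bool.or_eq_true, Bool.or_eq_true, Bool.and_eq_true, Bool.and_eq_true,
      decide_eq_true_iff, decide_eq_true_iff, decide_eq_true_iff, List.all_eq_true] at hw
    rcases hw with (h | h | h) | ⟨⟨h1, h2⟩, h3⟩
    · exact Or.inl (Or.inl h)
    · refine Or.inl (Or.inr (Or.inl ?_))
      simpa using h
    · refine Or.inl (Or.inr (Or.inr ?_))
      simpa using h
    · refine Or.inr ⟨(D0 w).1.length, h1, (D0 w).2, h2, fun b hb => ?_⟩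
      have := h3 _ (List.mem_map.2 ⟨b, List.mem_range.2 hb, rfl⟩)
      have h5 := S.mix_e A R
        (cpos (D x).1.length (ccode (K (S.orc A R) (D x).1.length) (D x).2 s (D0 w).1.length
          (D0 w).2) b)
      exact h5.symm.trans this

end Pool.Agent.TFR21
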