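import Pool.Agent.TFR21.Alpha
import Pool.Agent.TFR21.Beta
import Pool.Agent.TFR21.Descent
import Pool.Agent.TFR21.Pairs
import Pool.Agent.TFR21.Level
import Pool.Agent.TFR21.Ctb

/-!
# The main theorem
-/

set_option autoImplicit false

namespace Pool.Agent.TFR21

open Pool.Agent.PT Pool.Agent.TMB67 Pool.Agent.POpt70 Pool.Agent.ROr14
open N68a2faeb N793a5b8e N487b59b3 MeasureTheory

/-- The search problem: given `π`, find a witness for `P π`. -/
def sf (p : Polynomial ℕ) (FV : (List Bool → Bool) → List Bool × List Bool → Bool)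
    (FP : (List Bool → Bool) → List Bool → List Bool) (X : List Bool → Bool)
    (z : List Bool × List Bool) : Bool :=
  decide (z.2.length ≤ p.eval (FP X z.1).length) && FV X (FP X z.1, z.2)

theorem sf_search (p : Polynomial ℕ) {FV : (List Bool → Bool) → List Bool × List Bool → Bool}
    {FP : (List Bool → Bool) → List Bool → List Bool} (hV : UT FV) (hP : UT FP) :
    ∃ pw : Polynomial ℕ, Search (sf p FV FP) pw := by
  obtain ⟨r, hr⟩ := hP.bound
  refine ⟨p.comp (r.comp (4 * Polynomial.X + 1)), ?_, ?_⟩
  · have h1 : UT (fun X (z : List Bool × List Bool) => FP X z.1) := hP.pre PolyTime.fst'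
    have h2 : UT (fun X (z : List Bool × List Bool) => FV X (FP X z.1, z.2)) :=
      hV.comp (h1.pair (UT.of PolyTime.snd'))
    have h3 := (h1.pair (UT.of (PolyTime.snd' (α := List Bool) (β := List Bool)))).pair h2
    refine (h3.post (g := fun y : (List Bool × List Bool) × Bool =>
      decide (y.1.2.length ≤ p.eval y.1.1.length) && y.2) ?_).congr fun X z => rfl
    refine PolyTime.and (PolyTime.decide_le ?_ ?_) PolyTime.snd'
    · exact (PolyTime.snd PolyTime.fst').length
    · exact Pool.Agent.POpt67.polyEval_length p (PolyTime.fst PolyTime.fst')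
  · intro X π w h
    unfold sf at h
    rw [Bool.and_eq_true, decide_eq_true_iff] at h
    rw [Polynomial.eval_comp, Polynomial.eval_comp]
    refine h.1.trans (eval_mono p ?_)
    refine (length_le_sz _).trans ((hr X π).trans (eval_mono r ?_))
    simpa using sz_listBool π

/-- The properties of almost all oracles used in the proof. -/
def GoodFor (S : Acc) (A : List Bool → Bool)
    (F : (List Bool → Bool) → List Bool × List Bool → Bool) (M : Algorithm)
    (R : List Bool → Bool) : Prop :=
  ((∀ π, ∃ w, F (S.orc A R) (π, w) = true) →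
    ∃ j0, ∀ j ≥ j0, Covered R (sc (j + 1)) (level S.e F (S.orc A R) (sc j))) ∧
  ((∃ j0, ∀ j ≥ j0, Works S F M A R (sc (j + 1)) (level S.e F (S.orc A R) (sc j))) →
    ∃ j1, ∀ j ≥ j1, 511 / 512 ≤ frac (win (sc (j + 1)))
      {R' | Works S F M A R' (sc (j + 1)) (level S.e F (S.orc A R) (sc j))} R)

theorem ae_goodFor (S : Acc) (A : List Bool → Bool) : ∀ᵐ R ∂randomOracle,
    ∀ (F : (List Bool → Bool) → List Bool × List Bool → Bool) (pw : Polynomial ℕ),
      Search F pw → ∀ M : Algorithm, GoodFor S A F M R := by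
  have hc1 := countable_natPoly
  have hc2 := countable_algorithm
  have h1 : ∀ᵐ R ∂randomOracle,
      ∀ F ∈ {F : (List Bool → Bool) → List Bool × List Bool → Bool | UT F},
        ∀ pw : Polynomial ℕ, ∀ M : Algorithm, Search F pw → GoodFor S A F M R := by
    rw [ae_ball_iff countable_UT']
    intro F hF
    rw [ae_all_iff]
    intro pw
    rw [ae_all_iff]
    intro M
    by_cases hS : Search F pw
    · filter_upwards [alpha S A hS, beta S A hS M] with R h1 h2 _ using ⟨h1, h2⟩
    · exact Filter.Eventually.of_forall fun R h => absurd h hS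
  filter_upwards [h1] with R hR F pw hS M using hR F hS.ut pw M hS

theorem main_det (S : Acc) (A R : List Bool → Bool)
    (hgood : ∀ (F : (List Bool → Bool) → List Bool × List Bool → Bool) (pw : Polynomial ℕ),
      Search F pw → ∀ M : Algorithm, GoodFor S A F M R)
    (V : List Bool × List Bool → Bool) (p : Polynomial ℕ) (P : List Bool → List Bool)
    (hV : IsPolyTimeOracle (S.orc A R) V) (hP : IsPolyTimeOracle (S.orc A R) P)
    (hT : ∀ π, ∃ w : List Bool, w.length ≤ p.eval (P π).length ∧ V (P π, w) = true) :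
    ∃ C D : DecisionProblem, Cᶜ ∈ NPOracle (S.orc A R) ∧ Dᶜ ∈ NPOracle (S.orc A R) ∧
      (∀ x, ¬ (C x = true ∧ D x = true)) ∧
      ∀ M : Algorithm, ∃ W, FindsWitnesses V p P W ∧
        ¬ Separates (M.run (S.orc A R) W) C D := by
  classical
  obtain ⟨FV, hFV, hFV'⟩ := hV.exists_UT
  obtain ⟨FP, hFP, hFP'⟩ := hP.exists_UT
  obtain ⟨pw, hS⟩ := sf_search p hFV hFP
  set F := sf p FV FP with hF
  have hF' : ∀ π w, F (S.orc A R) (π, w) = true ↔
      w.length ≤ p.eval (P π).length ∧ V (P π, w) = true := by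
    intro π w
    rw [hF]
    unfold sf
    rw [Bool.and_eq_true, decide_eq_true_iff, hFV', hFP']
  have hTF : ∀ π, ∃ w, F (S.orc A R) (π, w) = true := by
    intro π
    obtain ⟨w, h⟩ := hT π
    exact ⟨w, (hF' π w).2 h⟩
  obtain ⟨K, m0, hK, hKl⟩ := exists_level S.he S.e_inj hS
  obtain ⟨sb, hsb, hsb'⟩ := exists_isScale
  obtain ⟨D, hD, hD'⟩ := Compat.dec (α := List Bool × List Bool)
  have hM0 : ∃ j0, ∀ j ≥ j0, Covered R (sc (j + 1)) (level S.e F (S.orc A R) (sc j)) := by
    by_contra hno
    -- any algorithm gives the property `alpha`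
    have M0 : Algorithm := ⟨0, fun _ => [], fun _ => true,
      isPolyTime_iff.2 (PolyTime.const _), isPolyTime_iff.2 (PolyTime.const _)⟩
    exact hno ((hgood F pw hS M0).1 hTF)
  obtain ⟨j0, hj0⟩ := hM0
  set N0 := sc (j0 + m0 + 1) with hN0
  have hscale : ∀ n, N0 ≤ n → sb n = true → ∃ j, j0 ≤ j ∧ n = sc (j + 1) ∧
      K (S.orc A R) n = level S.e F (S.orc A R) (sc j) := by
    intro n hn hs
    obtain ⟨j, rfl⟩ := (hsb' n).1 hs
    have hj : j0 + m0 ≤ j := by
      have := sc_strictMono.le_iff_le.1 hn
      omega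
    refine ⟨j, by omega, rfl, ?_⟩
    exact hKl (sc j) (by have := le_sc j; omega) _
  have hk : ∀ j, j0 + m0 ≤ j → N0 ≤ sc (j + 1) ∧ sb (sc (j + 1)) = true ∧
      K (S.orc A R) (sc (j + 1)) = level S.e F (S.orc A R) (sc j) := by
    intro j hj
    refine ⟨sc_strictMono.monotone (by omega), (hsb' _).2 ⟨j, rfl⟩, ?_⟩
    exact hKl (sc j) (by have := le_sc j; omega) _
  refine ⟨pairSet D sb (K (S.orc A R)) N0 R false, pairSet D sb (K (S.orc A R)) N0 R true,
    pairSet_compl_mem S A R hD hsb hK N0 false, pairSet_compl_mem S A R hD hsb hK N0 true,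
    fun x => ?_, fun M => ?_⟩
  · rintro ⟨h1, h2⟩
    unfold pairSet at h1 h2
    rw [decide_eq_true_iff] at h1 h2
    obtain ⟨j, hj, hn, hKj⟩ := hscale _ h1.1 h1.2.1
    have hc := hj0 j hj (D x).2 (by rw [h1.2.2.1, hKj])
    rw [← hKj, ← hn] at hc
    rcases hc with h | h
    · exact h1.2.2.2 h
    · exact h2.2.2.2 h
  · by_contra hno
    push Not at hno
    refine descent S A R hS M ⟨j0, hj0⟩ ((hgood F pw hS M).2 ⟨j0 + m0, fun j hj => ?_⟩)
    obtain ⟨hn, hs, hKj⟩ := hk j hj
    intro i hi W hW
    obtain ⟨W', hW', hrun⟩ := Valid.extend hTF hW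
    have hsep := hno W' fun π => (hF' π (W' π)).1 (hW' π)
    rw [← hrun]
    have hDx : D (inst (sc (j + 1)) i) = (ones (sc (j + 1)), i) := hD' _
    have hlen : (ones (sc (j + 1))).length = sc (j + 1) := by simp [ones]
    have hmem : ∀ s, pairSet D sb (K (S.orc A R)) N0 R s (inst (sc (j + 1)) i) = true ↔
        ¬ Succ R (sc (j + 1)) (level S.e F (S.orc A R) (sc j)) i s := by
      intro s
      unfold pairSet
      rw [decide_eq_true_iff, hDx]
      simp only [hlen, hKj]
      exact ⟨fun h => h.2.2.2, fun h => ⟨hn, hs, hi, h⟩⟩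
    have hcov := hj0 j (by omega) i hi
    cases hr : M.run (S.orc A R) W' (inst (sc (j + 1)) i) with
    | false =>
      by_contra h
      have := hsep.1 _ ((hmem false).2 h)
      rw [hr] at this
      exact absurd this (by simp)
    | true =>
      by_contra h
      have := hsep.2 _ ((hmem true).2 h)
      rw [hr] at this
      exact absurd this (by simp)

theorem main (S : Acc) (A : List Bool → Bool) : ∀ᵐ R ∂randomOracle,
    ∀ (V : List Bool × List Bool → Bool) (p : Polynomial ℕ) (P : List Bool → List Bool),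
      IsPolyTimeOracle (S.orc A R) V → IsPolyTimeOracle (S.orc A R) P →
      (∀ π, ∃ w : List Bool, w.length ≤ p.eval (P π).length ∧ V (P π, w) = true) →
      ∃ C D : DecisionProblem, Cᶜ ∈ NPOracle (S.orc A R) ∧ Dᶜ ∈ NPOracle (S.orc A R) ∧
        (∀ x, ¬ (C x = true ∧ D x = true)) ∧
        ∀ M : Algorithm, ∃ W, FindsWitnesses V p P W ∧
          ¬ Separates (M.run (S.orc A R) W) C D := by
  filter_upwards [ae_goodFor S A] with R hR V p P hV hP hT using main_det S A R hR V p P hV hP hT

/-- Direct access. -/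
def acR : Acc where
  toAccess := accR
  hec := by
    intro y z h
    have : y = z := by
      have h' : some y = some z := h
      simpa using h'
    exact this

/-- Access through a join. -/
def acJ : Acc where
  toAccess := accJ
  hec := by
    intro w z h
    match w, h with
    | true :: y, h =>
      have : y = z := by
        have h' : some y = some z := h
        simpa using h'
      rw [this]
      rfl

end Pool.Agent.TFR21
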