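import Pool.Agent.TFR21.Loc

/-!
# Module TFR21/Run

PROOFS. `run_transfer`: let `b = M.bound x` and `Q_m = (M.q (padded x, replies .. m)).take b` for
`m < b` (computed with `X, W`). If `Q_m = false :: z` put `T_m = {z}`; if `Q_m = true :: π` then
`F X (π, W π) = true` by `hv`, `π.length ≤ b`, take `T_m` from `hloc`; if `Q_m = []` put `T_m = ∅`.
`T = ⋃_{m < b} T_m`. If `X'` agrees with `X` on `T`, then by induction on `m ≤ b` the first `m`
replies for `X'` and `X` coincide; so the questions coincide, `Valid` holds for `X'` and the output
is the same. `eval_mono` for monotonicity of polynomials.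
`Valid.extend`: `W' π = W π` if `F X (π, W π) = true` and a solution from `hT` otherwise; by
induction the replies are the same since `W' π = W π` for all `π` asked.
`works_dep`: with `strs l` for `l > PT.eval b + b + 1`, from `run_transfer` (strings `y` in `T`, the
coordinate of `y` is not longer than `y` by `S.hc`), and `Succ` depends on the coordinates
`cpos n (ccode k i s t u) b` only; if `Works .. R ..` and `R'` agrees with `R` on `strs l`, and `W`
is valid for `R'`, then by `run_transfer` (applied to `R'`) `W` is valid for `R`, same output.
-/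

set_option autoImplicit false

namespace Pool.Agent.TFR21

open Pool.Agent.PT Pool.Agent.TMB67 Pool.Agent.POpt70 Pool.Agent.ROr14
open N68a2faeb N793a5b8e N487b59b3 MeasureTheory

/-- The questions asked in a run. -/
private def qst (M : Algorithm) (O : List Bool → List Bool) (x : List Bool) (m : ℕ) : List Bool :=
  (M.q (padded x, replies O M.q (M.bound x) (padded x) m)).take (M.bound x)

private theorem replies_congr_aux (M : Algorithm) {O O' : List Bool → List Bool} {x : List Bool}
    (h : ∀ m < M.bound x, O' (qst M O x m) = O (qst M O x m)) :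
    ∀ m ≤ M.bound x, replies O' M.q (M.bound x) (padded x) m =
      replies O M.q (M.bound x) (padded x) m := by
  intro m
  induction m with
  | zero => intro _; rfl
  | succ m ih =>
    intro hm
    have h1 := ih (Nat.le_of_succ_le hm)
    rw [replies, replies, h1]
    have h2 := h m hm
    unfold qst at h2
    rw [h2]

/-- A run with solutions depends on few places of the oracle. -/
theorem run_transfer {F : (List Bool → Bool) → List Bool × List Bool → Bool} {PT : Polynomial ℕ}
    (hloc : Local F PT) (M : Algorithm) {X : List Bool → Bool} {W : List Bool → List Bool}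
    {x : List Bool} (hv : Valid F M X W x) :
    ∃ T : Finset (List Bool), T.card ≤ M.bound x * (PT.eval (M.bound x) + 1) ∧
      (∀ y ∈ T, y.length ≤ PT.eval (M.bound x) + M.bound x) ∧
      ∀ X' : List Bool → Bool, (∀ y ∈ T, X' y = X y) →
        Valid F M X' W x ∧ M.run X' W x = M.run X W x := by
  classical
  have key : ∀ m, ∃ T : Finset (List Bool), T.card ≤ PT.eval (M.bound x) + 1 ∧
      (∀ y ∈ T, y.length ≤ PT.eval (M.bound x) + M.bound x) ∧
      (m < M.bound x → ∀ X' : List Bool → Bool, (∀ y ∈ T, X' y = X y) →
        both X' W (qst M (both X W) x m) = both X W (qst M (both X W) x m) ∧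
        ∀ π, qst M (both X W) x m = true :: π → F X' (π, W π) = true) := by
    intro m
    by_cases hm : m < M.bound x
    · have hlen : (qst M (both X W) x m).length ≤ M.bound x := by
        unfold qst
        exact List.length_take_le _ _
      rcases hq : qst M (both X W) x m with _ | ⟨c, z⟩
      · refine ⟨∅, by simp, by simp, fun _ X' _ => ⟨rfl, fun π h => ?_⟩⟩
        simp at h
      · rw [hq, List.length_cons] at hlen
        cases c with
        | false =>
          refine ⟨{z}, ?_, ?_, fun _ X' hX' => ⟨?_, fun π h => ?_⟩⟩
          · rw [Finset.card_singleton]; omega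
          · intro y hy
            rw [Finset.mem_singleton] at hy
            subst hy
            omega
          · show [X' z] = [X z]
            rw [hX' z (Finset.mem_singleton_self z)]
          · simp at h
        | true =>
          have h1 : F X (z, W z) = true := hv m hm z hq
          obtain ⟨T, hT1, hT2, hT3⟩ := hloc X z (W z) h1
          have h2 : PT.eval z.length ≤ PT.eval (M.bound x) :=
            eval_mono PT (by omega)
          refine ⟨T, by omega, fun y hy => ?_, fun _ X' hX' => ⟨rfl, fun π h => ?_⟩⟩
          · have := hT2 y hy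
            omega
          · have h3 : z = π := by simpa using h
            rw [← h3]
            exact hT3 X' hX'
    · exact ⟨∅, by simp, by simp, fun h => absurd h hm⟩
  choose T hT1 hT2 hT3 using key
  refine ⟨(Finset.range (M.bound x)).biUnion T, ?_, ?_, ?_⟩
  · refine Finset.card_biUnion_le.trans ?_
    refine (Finset.sum_le_sum fun m _ => hT1 m).trans ?_
    rw [Finset.sum_const, Finset.card_range, smul_eq_mul]
  · intro y hy
    obtain ⟨m, _, hy⟩ := Finset.mem_biUnion.1 hy
    exact hT2 m y hy
  · intro X' hX'
    have hX'' : ∀ m < M.bound x, ∀ y ∈ T m, X' y = X y := fun m hm y hy =>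
      hX' y (Finset.mem_biUnion.2 ⟨m, Finset.mem_range.2 hm, hy⟩)
    have hrep := replies_congr_aux M (O := both X W) (O' := both X' W) (x := x)
      fun m hm => (hT3 m hm X' (hX'' m hm)).1
    refine ⟨fun m hm π hπ => ?_, ?_⟩
    · rw [hrep m hm.le] at hπ
      exact (hT3 m hm X' (hX'' m hm)).2 π hπ
    · unfold Algorithm.run
      rw [hrep _ le_rfl]

/-- If the search problem is total then partial solvers extend. -/
theorem Valid.extend {F : (List Bool → Bool) → List Bool × List Bool → Bool} {M : Algorithm}
    {X : List Bool → Bool} {W : List Bool → List Bool} {x : List Bool}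
    (hT : ∀ π, ∃ w, F X (π, w) = true) (hv : Valid F M X W x) :
    ∃ W' : List Bool → List Bool, (∀ π, F X (π, W' π) = true) ∧
      M.run X W' x = M.run X W x := by
  classical
  choose w hw using hT
  refine ⟨fun π => if F X (π, W π) = true then W π else w π, fun π => ?_, ?_⟩
  · by_cases h : F X (π, W π) = true
    · simp only [h, if_true]
    · simp only [h]
      exact hw π
  · unfold Algorithm.run
    rw [replies_congr_aux M (O := both X W) (x := x) (fun m hm => ?_) _ le_rfl]
    rcases hq : qst M (both X W) x m with _ | ⟨c, z⟩
    · rfl
    · cases c with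
      | false => rfl
      | true =>
        have h1 : F X (z, W z) = true := hv m hm z hq
        show (if F X (z, W z) = true then W z else w z) = W z
        rw [if_pos h1]

private theorem enc_list (l : List Bool) : (bitEncode l : List Bool).length = 3 * l.length := by
  change (((l.map bitEncode).map delimit).flatten).length = _
  induction l with
  | nil => rfl
  | cons b l ih =>
    rw [List.map_cons, List.map_cons, List.flatten_cons, List.length_append, ih, length_delimit,
      List.length_cons]
    change 2 * 1 + 1 + _ = _
    ring

private theorem enc_pair {α β : Type*} [N487b59b3 α] [N487b59b3 β] (p : α × β) :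
    (bitEncode p : List Bool).length = 2 * (bitEncode p.1 : List Bool).length + 1 +
      (bitEncode p.2 : List Bool).length := by
  change (delimit (bitEncode p.1) ++ bitEncode p.2).length = _
  rw [List.length_append, length_delimit]

/-- The coordinates of a block have bounded length. -/
theorem cpos_length {n k t b : ℕ} {i u : List Bool} {s : Bool} (hk : k ≤ n)
    (hi : i.length = 2 * k) (ht : t < k) (hu : u.length = n * n) (hb : b < n * n) :
    n ≤ (cpos n (ccode k i s t u) b).length ∧
      (cpos n (ccode k i s t u) b).length ≤ 200 * (n * n + n + 1) := by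
  have h1 : (cpos n (ccode k i s t u) b).length =
      2 * (3 * n) + 1 + (2 * (3 * b) + 1 + 3 * (2 * (2 * (3 * k) + 1 + 3 * (2 * k)) + 1 +
        (2 * (3 * (t + 1)) + 1 + 3 * (n * n)))) := by
    unfold cpos ccode
    simp only [enc_pair, enc_list, List.length_replicate, List.length_cons, hi, hu]
  rw [h1]
  constructor
  · omega
  · generalize n * n = N at *
    omega

private theorem succ_dep {n k l : ℕ} (hk : k ≤ n) (hl : 200 * (n * n + n + 1) < l)
    {i : List Bool} (hi : i.length = 2 * k) {s : Bool} {R R' : List Bool → Bool}
    (hR : ∀ z ∈ strs l, R z = R' z) (h : Succ R n k i s) : Succ R' n k i s := by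
  obtain ⟨t, ht, u, hu, h⟩ := h
  refine ⟨t, ht, u, hu, fun b hb => ?_⟩
  rw [← hR _ (mem_strs.2 ((cpos_length hk hi ht hu hb).2.trans_lt hl))]
  exact h b hb

private theorem orc_eq (S : Acc) (A : List Bool → Bool) {R R' : List Bool → Bool} {l : ℕ}
    (hR : ∀ z ∈ strs l, R z = R' z) {y : List Bool} (hy : y.length < l) :
    S.orc A R y = S.orc A R' y :=
  mix_congr fun z hz => hR z (mem_strs.2 ((S.hc y z hz).trans_lt hy))

/-- The event `Works` depends on coordinates of bounded length. -/
theorem works_dep {F : (List Bool → Bool) → List Bool × List Bool → Bool} {PT : Polynomial ℕ}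
    (hloc : Local F PT) (M : Algorithm) (S : Acc) (A : List Bool → Bool) {n k l : ℕ} (hk : k ≤ n)
    (hl : 200 * (n * n + n + 1) < l)
    (hb : ∀ i : List Bool, i.length = 2 * k →
      PT.eval (M.bound (inst n i)) + M.bound (inst n i) < l) :
    Dep (strs l) {R | Works S F M A R n k} := by
  intro R R' hR h i hi W hv
  obtain ⟨T, _, hT2, hT3⟩ := run_transfer hloc M hv
  obtain ⟨h1, h2⟩ := hT3 (S.orc A R) fun y hy =>
    orc_eq S A hR ((hT2 y hy).trans_lt (hb i hi))
  rw [← h2]
  exact succ_dep hk hl hi hR (h i hi W h1)

/-- The event `Tot` depends on coordinates of bounded length. -/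
theorem tot_dep {F : (List Bool → Bool) → List Bool × List Bool → Bool} {PT : Polynomial ℕ}
    (hloc : Local F PT) (S : Acc) (A : List Bool → Bool) {m l : ℕ} (hl : PT.eval m < l) :
    Dep (strs l) {R | Tot F (S.orc A R) m} := by
  intro R R' hR h π hπ
  obtain ⟨w, hw⟩ := h π hπ
  obtain ⟨T, _, hT2, hT3⟩ := hloc _ π w hw
  refine ⟨w, hT3 (S.orc A R') fun y hy => ?_⟩
  exact (orc_eq S A hR (((hT2 y hy).trans (eval_mono PT hπ)).trans_lt hl)).symm

/-- The event `Covered` depends on coordinates of bounded length. -/
theorem covered_dep {n k l : ℕ} (hk : k ≤ n) (hl : 200 * (n * n + n + 1) < l) :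
    Dep (strs l) {R | Covered R n k} := by
  intro R R' hR h i hi
  exact (h i hi).imp (succ_dep hk hl hi hR) (succ_dep hk hl hi hR)

end Pool.Agent.TFR21
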